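import Mathlib
import Pool.Agent.Helper232.SD.Main

set_option autoImplicit false

/-! Finite-dimensional modules given by matrices, and pp formulas. -/

namespace Pool.Agent.W439

open Pool.Agent.Helper232.RZ

theorem sysFin {R : Type} [Ring R] {n : ℕ} (I J : Type) [Fintype I] [Fintype J]
    (α : J → I → R) (β : J → Fin n → R) :
    ∃ φ : PP R n, ∀ (M : Type) [AddCommGroup M] [Module R M] (x : Fin n → M),
      φ.H x ↔ ∃ u : I → M, ∀ j, (∑ i, α j i • u i) + ∑ i, β j i • x i = 0 := by
  classical
  obtain ⟨φ, hφ⟩ := sysPP I J Finset.univ (fun j => Finsupp.equivFunOnFinite.symm (α j)) β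
  refine ⟨φ, fun M _ _ x => ?_⟩
  rw [hφ M x]
  refine exists_congr fun u => ?_
  have hs : ∀ j, ((Finsupp.equivFunOnFinite.symm (α j)).sum fun i r => r • u i) =
      ∑ i, α j i • u i := by
    intro j
    rw [Finsupp.sum_fintype]
    · rfl
    · intro i; exact zero_smul _ _
  constructor
  · intro h j
    have := h j (Finset.mem_univ j)
    rwa [hs] at this
  · intro h j _
    rw [hs]
    exact h j

theorem supN {R : Type} [Ring R] {n : ℕ} (φ ψ : PP R n) :
    ∃ χ : PP R n, ∀ (M : Type) [AddCommGroup M] [Module R M] (x : Fin n → M),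
      χ.H x ↔ ∃ y z : Fin n → M, x = y + z ∧ φ.H y ∧ ψ.H z := by
  classical
  obtain ⟨χ, hχ⟩ := sysFin (R := R) (n := n) (Fin n ⊕ (Fin φ.p ⊕ Fin ψ.p)) (Fin φ.m ⊕ Fin ψ.m)
    (Sum.elim (fun i => Sum.elim (fun j => φ.A i j) (Sum.elim (fun l => φ.B i l) (fun _ => 0)))
      (fun i => Sum.elim (fun j => - ψ.A i j) (Sum.elim (fun _ => 0) (fun l => ψ.B i l))))
    (Sum.elim (fun _ _ => 0) (fun i j => ψ.A i j))
  refine ⟨χ, fun M _ _ x => ?_⟩
  rw [hχ M x]
  constructor
  · rintro ⟨u, hu⟩
    refine ⟨fun j => u (Sum.inl j), x - fun j => u (Sum.inl j), by simp, ⟨fun l =>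
      u (Sum.inr (Sum.inl l)), fun i => ?_⟩, ⟨fun l => u (Sum.inr (Sum.inr l)), fun i => ?_⟩⟩
    · have := hu (Sum.inl i)
      simpa [Fintype.sum_sum_type] using this
    · have := hu (Sum.inr i)
      simp only [Fintype.sum_sum_type, Sum.elim_inr, Sum.elim_inl, neg_smul,
        Finset.sum_neg_distrib, zero_smul, Finset.sum_const_zero, zero_add] at this
      simp only [Pi.sub_apply, smul_sub, Finset.sum_sub_distrib]
      rw [← this]
      abel
  · rintro ⟨y, z, rfl, ⟨u, hu⟩, ⟨v, hv⟩⟩
    refine ⟨Sum.elim y (Sum.elim u v), ?_⟩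
    rintro (i | i)
    · simpa [Fintype.sum_sum_type] using hu i
    · simp only [Fintype.sum_sum_type, Sum.elim_inr, Sum.elim_inl, neg_smul,
        Finset.sum_neg_distrib, zero_smul, Finset.sum_const_zero, zero_add, Pi.add_apply,
        smul_add, Finset.sum_add_distrib]
      rw [← hv i]
      abel

/-- a finite-dimensional module given by matrices -/
structure Ob (F R : Type) [Field F] [Ring R] [Algebra F R] where
  d : ℕ
  ρ : R →ₐ[F] Matrix (Fin d) (Fin d) F

section
variable {F R : Type} [Field F] [Ring R] [Algebra F R]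

/-- the space -/
def Ob.M (V : Ob F R) : Type := Fin V.d → F

instance (V : Ob F R) : AddCommGroup V.M := inferInstanceAs (AddCommGroup (Fin V.d → F))
instance (V : Ob F R) : Module F V.M := inferInstanceAs (Module F (Fin V.d → F))
instance (V : Ob F R) : Module.Finite F V.M := inferInstanceAs (Module.Finite F (Fin V.d → F))

theorem Ob.act_one (V : Ob F R) (x : Fin V.d → F) : (V.ρ 1).mulVec x = x := by
  rw [map_one, Matrix.one_mulVec]

theorem Ob.act_mul (V : Ob F R) (r s : R) (x : Fin V.d → F) :
    (V.ρ (r * s)).mulVec x = (V.ρ r).mulVec ((V.ρ s).mulVec x) := by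
  rw [map_mul, Matrix.mulVec_mulVec]

theorem Ob.act_add (V : Ob F R) (r s : R) (x : Fin V.d → F) :
    (V.ρ (r + s)).mulVec x = (V.ρ r).mulVec x + (V.ρ s).mulVec x := by
  rw [map_add, Matrix.add_mulVec]

theorem Ob.act_zero (V : Ob F R) (x : Fin V.d → F) : (V.ρ 0).mulVec x = 0 := by
  rw [map_zero, Matrix.zero_mulVec]

theorem Ob.act_smul (V : Ob F R) (c : F) (r : R) (x : Fin V.d → F) :
    (V.ρ (c • r)).mulVec x = c • (V.ρ r).mulVec x := by
  rw [map_smul, Matrix.smul_mulVec]

instance (V : Ob F R) : Module R V.M where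
  smul r x := (V.ρ r).mulVec x
  one_smul x := V.act_one x
  mul_smul r s x := V.act_mul r s x
  smul_zero _ := Matrix.mulVec_zero _
  smul_add _ _ _ := Matrix.mulVec_add _ _ _
  add_smul r s x := V.act_add r s x
  zero_smul x := V.act_zero x

theorem Ob.smul_def (V : Ob F R) (r : R) (x : V.M) :
    r • x = (V.ρ r).mulVec (x : Fin V.d → F) := rfl

theorem Ob.smul_apply (V : Ob F R) (r : R) (x : V.M) (i : Fin V.d) :
    (r • x) i = ∑ j, V.ρ r i j * x j := rfl

instance (V : Ob F R) : IsScalarTower F R V.M := ⟨fun c r x => V.act_smul c r x⟩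

/-- the standard basis -/
def Ob.e (V : Ob F R) (j : Fin V.d) : V.M := (Pi.single j (1 : F) : Fin V.d → F)

theorem Ob.sum_single (V : Ob F R) (v : V.M) : v = ∑ l, v l • V.e l := by
  have h : ∀ v : Fin V.d → F, v = ∑ l, v l • (Pi.single l (1 : F) : Fin V.d → F) := by
    intro v
    funext i
    rw [Finset.sum_apply]
    simp [Pi.single_apply]
  exact h v

/-- linear over a spanning set implies linear -/
theorem lin_of_span {ι : Type} (a : ι → R) (ha : Submodule.span F (Set.range a) = ⊤)
    {M N : Type} [AddCommGroup M] [Module F M] [Module R M] [IsScalarTower F R M]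
    [AddCommGroup N] [Module F N] [Module R N] [IsScalarTower F R N] (f : M →ₗ[F] N)
    (h : ∀ i m, f (a i • m) = a i • f m) : ∃ g : M →ₗ[R] N, ∀ m, g m = f m := by
  have key : ∀ r : R, ∀ m, f (r • m) = r • f m := by
    intro r
    have hr : r ∈ Submodule.span F (Set.range a) := by rw [ha]; trivial
    induction hr using Submodule.span_induction with
    | mem x hx =>
      obtain ⟨i, rfl⟩ := hx
      exact h i
    | zero => intro m; rw [zero_smul, zero_smul, map_zero]
    | add x y _ _ hx hy =>
      intro m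
      rw [add_smul, add_smul, map_add, hx, hy]
    | smul c x _ hx =>
      intro m
      rw [smul_assoc, smul_assoc, map_smul, hx]
  exact ⟨{ toFun := f, map_add' := map_add f, map_smul' := key }, fun m => rfl⟩

theorem exists_gen (F R : Type) [Field F] [Ring R] [Algebra F R] [Module.Finite F R] :
    ∃ (r : ℕ) (a : Fin r → R), Submodule.span F (Set.range a) = ⊤ := by
  obtain ⟨r, a, ha⟩ := Module.Finite.exists_fin (R := F) (M := R)
  exact ⟨r, a, ha⟩

/-- the formula that `x` is the image of `w` -/
theorem homPP [Module.Finite F R] {n : ℕ} (W : Ob F R) (w : Fin n → W.M) :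
    ∃ φ : PP R n, ∀ (M : Type) [AddCommGroup M] [Module R M] (x : Fin n → M),
      φ.H x ↔ ∃ u : W.M →ₗ[R] M, ∀ i, u (w i) = x i := by
  classical
  obtain ⟨r, a, ha⟩ := exists_gen F R
  obtain ⟨φ, hφ⟩ := sysFin (R := R) (n := n) (Fin W.d) ((Fin r × Fin W.d) ⊕ Fin n)
    (Sum.elim (fun t l => (if l = t.2 then a t.1 else 0) - algebraMap F R (W.ρ (a t.1) l t.2))
      (fun p l => - algebraMap F R (w p l)))
    (Sum.elim (fun _ _ => 0) (fun p i => if i = p then 1 else 0))
  refine ⟨φ, fun M _ _ x => ?_⟩
  rw [hφ M x]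
  let iF : Module F M := Module.compHom M (algebraMap F R)
  have iT : IsScalarTower F R M := ⟨fun c r m => by
    show (c • r) • m = algebraMap F R c • (r • m)
    rw [← mul_smul, Algebra.smul_def]⟩
  have hFR : ∀ (c : F) (m : M), algebraMap F R c • m = c • m := fun c m => rfl
  constructor
  · rintro ⟨y, hy⟩
    have e1 : ∀ (i : Fin r) (j : Fin W.d), a i • y j = ∑ l, W.ρ (a i) l j • y l := by
      intro i j
      have h1 := hy (Sum.inl (i, j))
      simp only [Sum.elim_inl, sub_smul, Finset.sum_sub_distrib, ite_smul, zero_smul,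
        Finset.sum_ite_eq', Finset.mem_univ, if_true, Finset.sum_const_zero, add_zero, hFR] at h1
      exact sub_eq_zero.1 h1
    have e2 : ∀ p, x p = ∑ l, w p l • y l := by
      intro p
      have h1 := hy (Sum.inr p)
      simp only [Sum.elim_inr, neg_smul, Finset.sum_neg_distrib, ite_smul, zero_smul, one_smul,
        Finset.sum_ite_eq', Finset.mem_univ, if_true, hFR] at h1
      rw [neg_add_eq_sub] at h1
      exact sub_eq_zero.1 h1
    let u0 : W.M →ₗ[F] M := Fintype.linearCombination F y
    have hu0 : ∀ v : W.M, u0 v = ∑ l, v l • y l := fun v => Fintype.linearCombination_apply F y v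
    obtain ⟨u, hu⟩ := lin_of_span a ha u0 (by
      intro i m
      rw [hu0, hu0, Finset.smul_sum]
      have h3 : ∀ j ∈ Finset.univ, a i • m j • y j = ∑ l, (W.ρ (a i) l j * m j) • y l := by
        intro j _
        have h4 : a i • m j • y j = m j • a i • y j := by
          rw [← hFR, ← hFR, ← mul_smul, ← mul_smul, Algebra.commutes]
        rw [h4, e1, Finset.smul_sum]
        refine Finset.sum_congr rfl fun l _ => ?_
        rw [smul_smul, mul_comm]
      rw [Finset.sum_congr rfl h3, Finset.sum_comm]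
      refine Finset.sum_congr rfl fun l _ => ?_
      rw [Ob.smul_apply, Finset.sum_smul])
    refine ⟨u, fun p => ?_⟩
    rw [hu, hu0, e2]
  · rintro ⟨u, hu⟩
    have hsm : ∀ (c : F) (v : W.M), u (c • v) = algebraMap F R c • u v := by
      intro c v
      rw [← map_smul, algebraMap_smul]
    let e : Fin W.d → W.M := W.e
    have hv : ∀ v : W.M, v = ∑ l, v l • e l := Ob.sum_single W
    have huv : ∀ v : W.M, u v = ∑ l, algebraMap F R (v l) • u (e l) := by
      intro v
      conv_lhs => rw [hv v, map_sum]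
      refine Finset.sum_congr rfl fun l _ => ?_
      rw [hsm]
    refine ⟨fun j => u (e j), ?_⟩
    rintro (⟨i, j⟩ | p)
    · simp only [Sum.elim_inl, sub_smul, Finset.sum_sub_distrib, ite_smul, zero_smul,
        Finset.sum_ite_eq', Finset.mem_univ, if_true, Finset.sum_const_zero, add_zero]
      rw [sub_eq_zero, ← map_smul, huv (a i • e j)]
      refine Finset.sum_congr rfl fun l _ => ?_
      rw [Ob.smul_apply]
      congr 2
      show ∑ t, W.ρ (a i) l t * (Pi.single j (1 : F) : Fin W.d → F) t = _
      simp [Pi.single_apply]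
    · simp only [Sum.elim_inr, neg_smul, Finset.sum_neg_distrib, ite_smul, zero_smul, one_smul,
        Finset.sum_ite_eq', Finset.mem_univ, if_true]
      rw [← hu, huv (w p), neg_add_cancel]

end

end Pool.Agent.W439
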