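import Mathlib
import Pool.Agent.W439.PPx

set_option autoImplicit false

/-! Duality for pp formulas over a finite-dimensional algebra. -/

namespace Pool.Agent.W439

open Pool.Agent.Helper232.RZ

section
variable {F R : Type} [Field F] [Ring R] [Algebra F R]

theorem notMem_range {M N : Type} [AddCommGroup M] [Module F M] [AddCommGroup N] [Module F N]
    (f : M →ₗ[F] N) (v : N) (h : v ∉ LinearMap.range f) :
    ∃ χ : N →ₗ[F] F, (∀ m, χ (f m) = 0) ∧ χ v ≠ 0 := by
  obtain ⟨χ, h1, h2⟩ := Submodule.exists_le_ker_of_notMem h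
  exact ⟨χ, fun m => h2 ⟨m, rfl⟩, h1⟩

/-- the trace pairing of a linear map -/
theorem tr_mu {n : ℕ} (U : Ob F R) (μ : (Fin n → U.M) →ₗ[F] F) {M : Type} [AddCommGroup M]
    [Module F M] (h : M →ₗ[F] U.M) (x : Fin n → M) :
    ∑ p, h (∑ j, μ (Pi.single j (U.e p)) • x j) p = μ (fun j => h (x j)) := by
  classical
  have h1 : (fun j => h (x j)) = ∑ j, ∑ p, h (x j) p • (Pi.single j (U.e p) : Fin n → U.M) := by
    have h2 : ∀ j, (Pi.single j (h (x j)) : Fin n → U.M) =
        ∑ p, h (x j) p • (Pi.single j (U.e p) : Fin n → U.M) := by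
      intro j
      conv_lhs => rw [Ob.sum_single U (h (x j))]
      rw [← LinearMap.single_apply (R := F), map_sum]
      refine Finset.sum_congr rfl fun p _ => ?_
      rw [map_smul, LinearMap.single_apply]
    rw [← Finset.sum_congr rfl fun j _ => h2 j]
    exact (Finset.univ_sum_single fun j => h (x j)).symm
  rw [h1, map_sum]
  have h3 : ∀ p, h (∑ j, μ (Pi.single j (U.e p)) • x j) p =
      ∑ j, μ (Pi.single j (U.e p)) * h (x j) p := by
    intro p
    have h4 : ∀ (s : Finset (Fin n)) (f : Fin n → U.M), (∑ j ∈ s, f j) p = ∑ j ∈ s, f j p := by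
      intro s f
      exact Finset.sum_apply p s f
    rw [map_sum, h4]
    refine Finset.sum_congr rfl fun j _ => ?_
    rw [map_smul]
    rfl
  rw [Finset.sum_congr rfl fun p _ => h3 p, Finset.sum_comm]
  refine Finset.sum_congr rfl fun j _ => ?_
  rw [map_sum]
  refine Finset.sum_congr rfl fun p _ => ?_
  rw [map_smul, smul_eq_mul, mul_comm]

/-- the condition that a functional kills all images under homomorphisms is a pp formula -/
theorem dualPP [Module.Finite F R] {n : ℕ} (U : Ob F R) (μ : (Fin n → U.M) →ₗ[F] F) :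
    ∃ φ : PP R n, ∀ (M : Type) [AddCommGroup M] [Module R M] (x : Fin n → M),
      φ.H x ↔ ∀ h : M →ₗ[R] U.M, μ (fun j => h (x j)) = 0 := by
  classical
  obtain ⟨r, a, ha⟩ := exists_gen F R
  obtain ⟨φ, hφ⟩ := sysFin (R := R) (n := n) (Fin U.d × Fin r) (Fin U.d)
    (fun q t => (if t.1 = q then a t.2 else 0) - algebraMap F R (U.ρ (a t.2) t.1 q))
    (fun q j => - algebraMap F R (μ (Pi.single j (U.e q))))
  refine ⟨φ, fun M _ _ x => ?_⟩
  rw [hφ M x]
  let iF : Module F M := Module.compHom M (algebraMap F R)
  have iT : IsScalarTower F R M := ⟨fun c r m => by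
    show (c • r) • m = algebraMap F R c • (r • m)
    rw [← mul_smul, Algebra.smul_def]⟩
  have hFR : ∀ (c : F) (m : M), algebraMap F R c • m = c • m := fun c m => rfl
  have hsumR : ∀ (c : R) (f g : M), c • (f + g) = c • f + c • g := smul_add
  -- the linear map
  let Φ : (Fin U.d × Fin r → M) →ₗ[F] (Fin U.d → M) :=
    { toFun := fun y q => ∑ t : Fin U.d × Fin r,
        ((if t.1 = q then a t.2 else 0) - algebraMap F R (U.ρ (a t.2) t.1 q)) • y t
      map_add' := by
        intro y y'
        funext q
        simp only [Pi.add_apply, smul_add, Finset.sum_add_distrib]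
      map_smul' := by
        intro c y
        funext q
        simp only [Pi.smul_apply, RingHom.id_apply, Finset.smul_sum]
        refine Finset.sum_congr rfl fun t _ => ?_
        rw [← hFR c, ← hFR c, ← mul_smul, ← mul_smul, Algebra.commutes] }
  have hΦ : ∀ y q, Φ y q = ∑ t : Fin U.d × Fin r,
        ((if t.1 = q then a t.2 else 0) - algebraMap F R (U.ρ (a t.2) t.1 q)) • y t :=
    fun y q => rfl
  let v : Fin U.d → M := fun q => ∑ j, μ (Pi.single j (U.e q)) • x j
  have hsys : (∃ u : Fin U.d × Fin r → M, ∀ q, (∑ t,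
      ((if t.1 = q then a t.2 else 0) - algebraMap F R (U.ρ (a t.2) t.1 q)) • u t) +
        ∑ j, (- algebraMap F R (μ (Pi.single j (U.e q)))) • x j = 0) ↔ v ∈ LinearMap.range Φ := by
    constructor
    · rintro ⟨u, hu⟩
      refine ⟨u, funext fun q => ?_⟩
      have h1 := hu q
      simp only [neg_smul, Finset.sum_neg_distrib] at h1
      rw [← sub_eq_add_neg, sub_eq_zero] at h1
      exact h1
    · rintro ⟨u, hu⟩
      refine ⟨u, fun q => ?_⟩
      have h1 := congrFun hu q
      simp only [neg_smul, Finset.sum_neg_distrib]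
      rw [← sub_eq_add_neg, sub_eq_zero]
      exact h1
  rw [hsys]
  have hap : ∀ {ι : Type} (s : Finset ι) (f : ι → U.M) (p : Fin U.d),
      (∑ j ∈ s, f j) p = ∑ j ∈ s, f j p := by
    intro ι s f p
    exact Finset.sum_apply p s f
  have key : ∀ (h : M →ₗ[F] U.M) (y : Fin U.d × Fin r → M),
      ∑ q, h (Φ y q) q = ∑ t : Fin U.d × Fin r, (h (a t.2 • y t) - a t.2 • h (y t)) t.1 := by
    intro h y
    have h1 : ∀ q, h (Φ y q) q = ∑ t : Fin U.d × Fin r, ((if t.1 = q then h (a t.2 • y t) q else 0)
        - U.ρ (a t.2) t.1 q * h (y t) q) := by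
      intro q
      rw [hΦ, map_sum, hap]
      refine Finset.sum_congr rfl fun t _ => ?_
      rw [sub_smul, map_sub, hFR, LinearMap.map_smul h (U.ρ (a t.2) t.1 q)]
      show (h ((if t.1 = q then a t.2 else 0) • y t)) q - U.ρ (a t.2) t.1 q * h (y t) q = _
      congr 1
      split_ifs
      · rfl
      · rw [zero_smul, map_zero]
        rfl
    rw [Finset.sum_congr rfl fun q _ => h1 q, Finset.sum_comm]
    refine Finset.sum_congr rfl fun t _ => ?_
    rw [Finset.sum_sub_distrib]
    show _ = h (a t.2 • y t) t.1 - (a t.2 • h (y t)) t.1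
    rw [Ob.smul_apply]
    congr 1
    rw [Finset.sum_ite_eq]
    simp
  constructor
  · rintro ⟨y, hy⟩ h
    have h1 := tr_mu U μ (h.restrictScalars F) x
    have h2 := key (h.restrictScalars F) y
    have h3 : ∀ t : Fin U.d × Fin r, ((h.restrictScalars F) (a t.2 • y t) -
        a t.2 • (h.restrictScalars F) (y t)) t.1 = 0 := by
      intro t
      have : (h.restrictScalars F) (a t.2 • y t) - a t.2 • (h.restrictScalars F) (y t) = 0 := by
        show h (a t.2 • y t) - a t.2 • h (y t) = 0
        rw [map_smul, sub_self]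
      rw [this]
      rfl
    rw [Finset.sum_congr rfl fun t _ => h3 t, Finset.sum_const_zero, hy] at h2
    exact h1.symm.trans h2
  · intro hx
    by_contra hv
    obtain ⟨χ, hχ, hχv⟩ := notMem_range Φ v hv
    let h0 : M →ₗ[F] U.M := (LinearMap.pi fun p => χ ∘ₗ LinearMap.single F (fun _ => M) p :
      M →ₗ[F] (Fin U.d → F))
    have hh0 : ∀ m p, h0 m p = χ (Pi.single p m) := fun m p => rfl
    have hχ0 : ∀ w : Fin U.d → M, χ w = ∑ q, h0 (w q) q := by
      intro w
      conv_lhs => rw [← Finset.univ_sum_single w, map_sum]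
      exact Finset.sum_congr rfl fun q _ => (hh0 (w q) q).symm
    obtain ⟨h, hh⟩ := lin_of_span a ha h0 (by
      intro i m
      funext p
      have h1 := key h0 (Pi.single (p, i) m)
      rw [← hχ0, hχ, Finset.sum_eq_single (p, i)] at h1
      · rw [Pi.single_eq_same] at h1
        exact (sub_eq_zero.1 h1.symm : h0 (a i • m) p = (a i • h0 m) p)
      · intro t _ ht
        rw [Pi.single_eq_of_ne ht, smul_zero, map_zero, smul_zero, sub_zero]
        rfl
      · intro h
        exact absurd (Finset.mem_univ _) h)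
    apply hχv
    rw [hχ0]
    have h1 := tr_mu U μ h0 x
    refine h1.trans ?_
    have h2 := hx h
    rw [← h2]
    congr 1
    funext j
    exact (hh _).symm

/-- abstract finite-dimensional modules -/
theorem toOb (U : Type) [AddCommGroup U] [Module F U] [Module R U] [IsScalarTower F R U]
    [Module.Finite F U] : ∃ V : Ob F R, Nonempty (U ≃ₗ[R] V.M) := by
  classical
  let b := Module.finBasis F U
  let V : Ob F R := ⟨Module.finrank F U, (LinearMap.toMatrixAlgEquiv b).toAlgHom.comp
    (Algebra.lsmul F F U : R →ₐ[F] Module.End F U)⟩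
  let e0 : U ≃ₗ[F] V.M := b.equivFun
  have h0 : ∀ (r : R) (u : U), b.equivFun (r • u) = (V.ρ r).mulVec (b.equivFun u) := by
    intro r u
    have := LinearMap.toMatrix_mulVec_repr b b (Algebra.lsmul F F U r) u
    exact this.symm
  exact ⟨V, ⟨{ e0 with map_smul' := fun r u => h0 r u }⟩⟩

/-- the dual of the regular module -/
def Du (F R : Type) [Field F] [Ring R] [Algebra F R] : Type := R →ₗ[F] F

instance : AddCommGroup (Du F R) := inferInstanceAs (AddCommGroup (R →ₗ[F] F))
instance : Module F (Du F R) := inferInstanceAs (Module F (R →ₗ[F] F))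
instance [Module.Finite F R] : Module.Finite F (Du F R) :=
  inferInstanceAs (Module.Finite F (R →ₗ[F] F))

/-- evaluation -/
def Du.ev (f : Du F R) : R →ₗ[F] F := f

theorem Du.ext {f g : Du F R} (h : ∀ r, f.ev r = g.ev r) : f = g :=
  (LinearMap.ext h : f.ev = g.ev)

instance : SMul R (Du F R) := ⟨fun s f => (f.ev ∘ₗ LinearMap.mulRight F s : R →ₗ[F] F)⟩

theorem Du.smul_ev (s : R) (f : Du F R) (r : R) : (s • f).ev r = f.ev (r * s) := rfl
theorem Du.add_ev (f g : Du F R) (r : R) : (f + g).ev r = f.ev r + g.ev r := rfl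
theorem Du.zero_ev (r : R) : (0 : Du F R).ev r = 0 := rfl
theorem Du.fsmul_ev (c : F) (f : Du F R) (r : R) : (c • f).ev r = c * f.ev r := rfl

instance : Module R (Du F R) where
  one_smul f := Du.ext fun r => by rw [Du.smul_ev, mul_one]
  mul_smul s t f := Du.ext fun r => by rw [Du.smul_ev, Du.smul_ev, Du.smul_ev, mul_assoc]
  smul_zero s := Du.ext fun r => by rw [Du.smul_ev, Du.zero_ev, Du.zero_ev]
  smul_add s f g := Du.ext fun r => by
    rw [Du.smul_ev, Du.add_ev, Du.add_ev, Du.smul_ev, Du.smul_ev]
  add_smul s t f := Du.ext fun r => by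
    rw [Du.smul_ev, Du.add_ev, Du.smul_ev, Du.smul_ev, mul_add, map_add]
  zero_smul f := Du.ext fun r => by rw [Du.smul_ev, mul_zero, map_zero, Du.zero_ev]

instance : IsScalarTower F R (Du F R) := ⟨fun c s f => Du.ext fun r => by
  rw [Du.smul_ev, Du.fsmul_ev, Du.smul_ev, mul_smul_comm, map_smul, smul_eq_mul]⟩

/-- the module of the dual presentation -/
def dU {n : ℕ} (φ : PP R n) : Submodule R (Fin φ.m → Du F R) where
  carrier := {f | ∀ l r, ∑ i, (f i).ev (φ.B i l * r) = 0}
  add_mem' := by
    intro f g hf hg l r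
    have : ∑ i, ((f + g) i).ev (φ.B i l * r) = ∑ i, (f i).ev (φ.B i l * r) +
        ∑ i, (g i).ev (φ.B i l * r) := by
      rw [← Finset.sum_add_distrib]
      rfl
    rw [this, hf l r, hg l r, add_zero]
  zero_mem' := by
    intro l r
    exact Finset.sum_eq_zero fun i _ => rfl
  smul_mem' := by
    intro s f hf l r
    have : ∑ i, ((s • f) i).ev (φ.B i l * r) = ∑ i, (f i).ev (φ.B i l * (r * s)) := by
      refine Finset.sum_congr rfl fun i _ => ?_
      rw [Pi.smul_apply, Du.smul_ev, mul_assoc]
    rw [this, hf l _]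

theorem mem_dU {n : ℕ} (φ : PP R n) (f : Fin φ.m → Du F R) :
    f ∈ dU (F := F) φ ↔ ∀ l r, ∑ i, (f i).ev (φ.B i l * r) = 0 := Iff.rfl

/-- every pp formula is the condition that a functional kills all images under homomorphisms -/
theorem ppDual [Module.Finite F R] {n : ℕ} (φ : PP R n) :
    ∃ (U : Ob F R) (μ : (Fin n → U.M) →ₗ[F] F), ∀ (M : Type) [AddCommGroup M] [Module R M]
      (x : Fin n → M), φ.H x ↔ ∀ h : M →ₗ[R] U.M, μ (fun j => h (x j)) = 0 := by
  classical
  let μ0 : (Fin n → dU (F := F) φ) →ₗ[F] F :=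
    { toFun := fun f => ∑ i, ∑ j, ((f j).1 i).ev (φ.A i j)
      map_add' := by
        intro f g
        rw [← Finset.sum_add_distrib]
        refine Finset.sum_congr rfl fun i _ => ?_
        rw [← Finset.sum_add_distrib]
        rfl
      map_smul' := by
        intro c f
        rw [RingHom.id_apply, Finset.smul_sum]
        refine Finset.sum_congr rfl fun i _ => ?_
        rw [Finset.smul_sum]
        rfl }
  have hμ0 : ∀ f, μ0 f = ∑ i, ∑ j, ((f j).1 i).ev (φ.A i j) := fun f => rfl
  have abs : ∀ (M : Type) [AddCommGroup M] [Module R M] (x : Fin n → M),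
      φ.H x ↔ ∀ h : M →ₗ[R] dU (F := F) φ, μ0 (fun j => h (x j)) = 0 := by
    intro M _ _ x
    let iF : Module F M := Module.compHom M (algebraMap F R)
    have iT : IsScalarTower F R M := ⟨fun c r m => by
      show (c • r) • m = algebraMap F R c • (r • m)
      rw [← mul_smul, Algebra.smul_def]⟩
    have hFR : ∀ (c : F) (m : M), algebraMap F R c • m = c • m := fun c m => rfl
    have e1 : ∀ (h : M →ₗ[R] dU (F := F) φ) (i : Fin φ.m) (c : R) (m : M),
        ((h m).1 i).ev c = ((h (c • m)).1 i).ev 1 := by
      intro h i c m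
      rw [map_smul]
      show _ = (c • ((h m).1 i)).ev 1
      rw [Du.smul_ev, one_mul]
    have e2 : ∀ (h : M →ₗ[R] dU (F := F) φ) (i : Fin φ.m) {q : ℕ} (f : Fin q → M),
        ((h (∑ j, f j)).1 i).ev 1 = ∑ j, ((h (f j)).1 i).ev 1 := by
      intro h i q f
      let g : M →+ F :=
        { toFun := fun m => ((h m).1 i).ev 1
          map_zero' := by rw [map_zero]; rfl
          map_add' := by intro m m'; rw [map_add]; rfl }
      exact map_sum g f Finset.univ
    constructor
    · rintro ⟨y, hy⟩ h
      rw [hμ0]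
      have h1 : ∀ i, ∑ j, ((h (x j)).1 i).ev (φ.A i j) = - ∑ l, ((h (y l)).1 i).ev (φ.B i l) := by
        intro i
        have h2 := hy i
        have h3 : ((h ((∑ j, φ.A i j • x j) + ∑ l, φ.B i l • y l)).1 i).ev 1 = 0 := by
          rw [h2, map_zero]
          rfl
        rw [map_add] at h3
        have h4 : ((h (∑ j, φ.A i j • x j)).1 i).ev 1 + ((h (∑ l, φ.B i l • y l)).1 i).ev 1 = 0 :=
          h3
        rw [e2, e2] at h4
        rw [Finset.sum_congr rfl fun j _ => e1 h i (φ.A i j) (x j),
          Finset.sum_congr rfl fun l _ => e1 h i (φ.B i l) (y l)]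
        exact eq_neg_of_add_eq_zero_left h4
      rw [Finset.sum_congr rfl fun i _ => h1 i, Finset.sum_neg_distrib, Finset.sum_comm]
      have h5 : ∀ l, ∑ i, ((h (y l)).1 i).ev (φ.B i l) = 0 := by
        intro l
        have := (h (y l)).2 l 1
        simpa using this
      rw [Finset.sum_congr rfl fun l _ => h5 l, Finset.sum_const_zero, neg_zero]
    · intro hx
      by_contra hno
      let Ψ : (Fin φ.p → M) →ₗ[F] (Fin φ.m → M) :=
        { toFun := fun y i => ∑ l, φ.B i l • y l
          map_add' := by
            intro y y'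
            funext i
            simp only [Pi.add_apply, smul_add, Finset.sum_add_distrib]
          map_smul' := by
            intro c y
            funext i
            simp only [Pi.smul_apply, RingHom.id_apply, Finset.smul_sum]
            refine Finset.sum_congr rfl fun t _ => ?_
            rw [← hFR c, ← hFR c, ← mul_smul, ← mul_smul, Algebra.commutes] }
      let v : Fin φ.m → M := fun i => ∑ j, φ.A i j • x j
      have hv : v ∉ LinearMap.range Ψ := by
        rintro ⟨y, hy⟩
        apply hno
        refine ⟨fun l => - y l, fun i => ?_⟩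
        have h1 : ∑ l, φ.B i l • y l = ∑ j, φ.A i j • x j := congrFun hy i
        simp only [smul_neg, Finset.sum_neg_distrib]
        rw [h1, add_neg_cancel]
      obtain ⟨χ, hχ, hχv⟩ := notMem_range Ψ v hv
      let h0 : M → Fin φ.m → Du F R := fun m i =>
        (χ ∘ₗ LinearMap.single F (fun _ => M) i ∘ₗ (LinearMap.toSpanSingleton R M m).restrictScalars F
          : R →ₗ[F] F)
      have hh0 : ∀ m i r, (h0 m i).ev r = χ (Pi.single i (r • m)) := fun m i r => rfl
      have hmem : ∀ m, h0 m ∈ dU (F := F) φ := by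
        intro m l r
        have h1 : ∑ i, (h0 m i).ev (φ.B i l * r) = χ (Ψ (Pi.single l (r • m))) := by
          have h2 : Ψ (Pi.single l (r • m)) =
              ∑ i, (Pi.single i ((φ.B i l * r) • m) : Fin φ.m → M) := by
            rw [Finset.univ_sum_single fun i => (φ.B i l * r) • m]
            funext i
            show ∑ t, φ.B i t • (Pi.single l (r • m) : Fin φ.p → M) t = _
            rw [Finset.sum_eq_single l]
            · rw [Pi.single_eq_same, mul_smul]
            · intro t _ ht
              rw [Pi.single_eq_of_ne ht, smul_zero]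
            · intro h
              exact absurd (Finset.mem_univ _) h
          rw [h2, map_sum]
          rfl
        rw [h1, hχ]
      let h : M →ₗ[R] dU (F := F) φ :=
        { toFun := fun m => ⟨h0 m, hmem m⟩
          map_add' := by
            intro m m'
            apply Subtype.ext
            funext i
            refine Du.ext fun r => ?_
            show (h0 (m + m') i).ev r = (h0 m i).ev r + (h0 m' i).ev r
            rw [hh0, hh0, hh0, smul_add, Pi.single_add, map_add]
          map_smul' := by
            intro s m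
            apply Subtype.ext
            funext i
            refine Du.ext fun r => ?_
            show (h0 (s • m) i).ev r = (s • h0 m i).ev r
            rw [hh0, Du.smul_ev, hh0, mul_smul] }
      apply hχv
      have h1 := hx h
      rw [hμ0] at h1
      rw [← h1]
      have h2 : v = ∑ i, (Pi.single i (v i) : Fin φ.m → M) :=
        (Finset.univ_sum_single v).symm
      rw [h2, map_sum]
      refine Finset.sum_congr rfl fun i _ => ?_
      show χ (Pi.single i (∑ j, φ.A i j • x j)) = ∑ j, χ (Pi.single i (φ.A i j • x j))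
      rw [← map_sum]
      congr 1
      exact map_sum (LinearMap.single F (fun _ => M) i) (fun j => φ.A i j • x j) Finset.univ
  -- transport
  haveI : Module.Finite F (dU (F := F) φ) :=
    Module.Finite.of_injective ((dU (F := F) φ).subtype.restrictScalars F)
      (Submodule.injective_subtype _)
  obtain ⟨V, ⟨e⟩⟩ := toOb (F := F) (R := R) (dU (F := F) φ)
  refine ⟨V, μ0 ∘ₗ (LinearMap.pi fun j => (e.symm.toLinearMap.restrictScalars F) ∘ₗ
    LinearMap.proj j), fun M _ _ x => ?_⟩
  rw [abs M x]
  constructor
  · intro h g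
    have := h (e.symm.toLinearMap ∘ₗ g)
    exact this
  · intro h g
    have := h (e.toLinearMap ∘ₗ g)
    have h2 : μ0 (fun j => e.symm (e (g (x j)))) = 0 := this
    simpa using h2

end

end Pool.Agent.W439
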