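import Mathlib

set_option autoImplicit false

/-! Countable modular lattices of infinite width have a filter without large elements. -/

namespace Pool.Agent.W439

theorem maxsub {α : Type} [DecidableEq α] (S : Finset α) (P : Finset α → Prop) (h0 : P ∅) :
    ∃ T ⊆ S, P T ∧ ∀ s ∈ S, s ∉ T → ¬ P (insert s T) := by
  classical
  obtain ⟨T, hT, hmax⟩ := Finset.exists_max_image (S.powerset.filter P) Finset.card
    ⟨∅, by simp [h0]⟩
  rw [Finset.mem_filter, Finset.mem_powerset] at hT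
  refine ⟨T, hT.1, hT.2, fun s hs hsT hP => ?_⟩
  have h1 := hmax (insert s T) (by
    rw [Finset.mem_filter, Finset.mem_powerset]
    exact ⟨Finset.insert_subset hs hT.1, hP⟩)
  rw [Finset.card_insert_of_notMem hsT] at h1
  omega

section
variable {L : Type} [Lattice L] [IsModularLattice L] [BoundedOrder L]

theorem zstep (hw : ∀ b a : L, b < a → ∃ c d, b ≤ c ∧ c ≤ a ∧ b ≤ d ∧ d ≤ a ∧ ¬ c ≤ d ∧ ¬ d ≤ c)
    (l Ps : Finset L) (η : L) (hP : ∀ ψ ∈ Ps, ∃ φ ∈ l, ¬ φ ≤ ψ) (hη : ¬ l.sup id ≤ η) :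
    ∃ (l' : Finset L) (θ1 θ2 : L), (∀ φ' ∈ l', ∃ φ ∈ l, φ' ≤ φ) ∧
      (∀ ψ ∈ Ps, ∃ φ ∈ l', ¬ φ ≤ ψ) ∧ (∃ φ ∈ l', ¬ φ ≤ θ1) ∧ (∃ φ ∈ l', ¬ φ ≤ θ2) ∧
      η ≤ θ1 ∧ η ≤ θ2 ∧ ∀ φ' ∈ l', φ' ≤ θ1 ∨ φ' ≤ θ2 := by
  classical
  obtain ⟨T, hTl, hT, hTmax⟩ := maxsub l (fun T => ¬ l.sup id ≤ η ⊔ T.sup id) (by simpa using hη)
  set ps := η ⊔ T.sup id with hps
  set top := ps ⊔ l.sup id with htop
  have hlt : ¬ top ≤ ps := fun h => hT (le_sup_right.trans h)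
  have hs : ∀ s ∈ l, s ∉ T → ps ⊔ s = top := by
    intro s hs hsT
    have h1 := hTmax s hs hsT
    rw [not_not, Finset.sup_insert, id] at h1
    refine le_antisymm (sup_le_sup_left (Finset.le_sup (f := id) hs) _) ?_
    refine sup_le le_sup_left (h1.trans ?_)
    refine sup_le (le_sup_left.trans le_sup_left) (sup_le le_sup_right ?_)
    exact le_sup_right.trans le_sup_left
  have hTne : ∃ s ∈ l, s ∉ T := by
    by_contra hcon
    push Not at hcon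
    apply hT
    refine (Finset.sup_mono hcon).trans le_sup_right
  have hθ : ∀ s ∈ l, s ∉ T → ∀ θ, ps ≤ θ → θ ≤ top → ps ⊔ (s ⊓ θ) = θ := by
    intro s h1 h2 θ h3 h4
    rw [← sup_inf_assoc_of_le _ h3, hs s h1 h2]
    exact inf_eq_right.2 h4
  choose! f hf1 hf2 using hP
  let μ : L → L := fun ψ => ps ⊔ (f ψ ⊓ ψ)
  obtain ⟨U, hUP, hU, hUmax⟩ := maxsub Ps (fun U => ¬ top ≤ ps ⊔ U.sup (fun ψ => if f ψ ∈ T then
    ⊥ else if top ≤ μ ψ then ⊥ else μ ψ)) (by simpa using hlt)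
  set g : L → L := fun ψ => if f ψ ∈ T then ⊥ else if top ≤ μ ψ then ⊥ else μ ψ with hg
  set ν := ps ⊔ U.sup g with hν
  have hgle : ∀ ψ ∈ Ps, g ψ ≤ top := by
    intro ψ hψ
    simp only [hg]
    split_ifs
    · exact bot_le
    · exact bot_le
    · exact sup_le le_sup_left (inf_le_left.trans ((Finset.le_sup (f := id) (hf1 ψ hψ)).trans
        le_sup_right))
  have hνtop : ν ≤ top := sup_le le_sup_left (Finset.sup_le fun ψ hψ => hgle ψ (hUP hψ))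
  have hνlt : ν < top := lt_of_le_of_ne hνtop fun h => hU (le_of_eq h.symm)
  obtain ⟨θ1, θ2, a1, a2, a3, a4, a5, a6⟩ := hw ν top hνlt
  have b1 : ps ≤ θ1 := le_sup_left.trans a1
  have b2 : ps ≤ θ2 := le_sup_left.trans a3
  obtain ⟨s0, hs0, hs0T⟩ := hTne
  refine ⟨T ∪ ((l \ T).image (fun s => s ⊓ θ1) ∪ (l \ T).image (fun s => s ⊓ θ2)), θ1, θ2,
    ?_, ?_, ?_, ?_, ?_, ?_, ?_⟩
  · intro φ' hφ'
    simp only [Finset.mem_union, Finset.mem_image, Finset.mem_sdiff] at hφ'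
    rcases hφ' with h | ⟨s, h, rfl⟩ | ⟨s, h, rfl⟩
    · exact ⟨φ', hTl h, le_refl _⟩
    · exact ⟨s, h.1, inf_le_left⟩
    · exact ⟨s, h.1, inf_le_left⟩
  · intro ψ hψ
    by_cases hfT : f ψ ∈ T
    · exact ⟨f ψ, Finset.mem_union_left _ hfT, hf2 ψ hψ⟩
    have m1 : f ψ ⊓ θ1 ∈ T ∪ ((l \ T).image (fun s => s ⊓ θ1) ∪
        (l \ T).image (fun s => s ⊓ θ2)) := by
      simp only [Finset.mem_union, Finset.mem_image, Finset.mem_sdiff]
      exact Or.inr (Or.inl ⟨f ψ, ⟨hf1 ψ hψ, hfT⟩, rfl⟩)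
    have m2 : f ψ ⊓ θ2 ∈ T ∪ ((l \ T).image (fun s => s ⊓ θ1) ∪
        (l \ T).image (fun s => s ⊓ θ2)) := by
      simp only [Finset.mem_union, Finset.mem_image, Finset.mem_sdiff]
      exact Or.inr (Or.inr ⟨f ψ, ⟨hf1 ψ hψ, hfT⟩, rfl⟩)
    by_cases hμ : top ≤ μ ψ
    · refine ⟨f ψ ⊓ θ1, m1, fun h => ?_⟩
      apply hf2 ψ hψ
      have h1 : f ψ ≤ (f ψ ⊓ ps) ⊔ (f ψ ⊓ ψ) := by
        have h2 : (f ψ ⊓ ps) ⊔ (f ψ ⊓ ψ) = f ψ ⊓ (ps ⊔ (f ψ ⊓ ψ)) := by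
          have h3 : (f ψ ⊓ ψ) ⊔ ps ⊓ f ψ = ((f ψ ⊓ ψ) ⊔ ps) ⊓ f ψ :=
            (sup_inf_assoc_of_le _ inf_le_left).symm
          rw [sup_comm, inf_comm (f ψ) ps, h3, inf_comm, sup_comm]
        rw [h2]
        exact le_inf (le_refl _) (((Finset.le_sup (f := id) (hf1 ψ hψ)).trans
          le_sup_right).trans hμ)
      refine h1.trans (sup_le ((inf_le_inf_left _ b1).trans h) inf_le_right)
    · -- now `μ ψ` is not the top
      have hgψ : g ψ = μ ψ := by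
        simp only [hg]
        rw [if_neg hfT, if_neg hμ]
      have key : ¬ θ1 ≤ μ ψ ∨ ¬ θ2 ≤ μ ψ := by
        by_cases hψU : ψ ∈ U
        · left
          intro h
          apply a5
          have h1 : μ ψ ≤ ν := by
            rw [← hgψ]
            exact (Finset.le_sup hψU).trans le_sup_right
          exact (h.trans h1).trans a3
        · by_contra hcon
          push Not at hcon
          apply hμ
          have h1 := hUmax ψ hψ hψU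
          rw [not_not, Finset.sup_insert, hgψ] at h1
          refine h1.trans (sup_le le_sup_left (sup_le (le_refl _) ?_))
          exact (le_sup_right.trans a1).trans hcon.1
      rcases key with h | h
      · refine ⟨_, m1, fun h2 => h ?_⟩
        rw [← hθ (f ψ) (hf1 ψ hψ) hfT θ1 b1 a2]
        exact sup_le_sup_left (le_inf inf_le_left h2) _
      · refine ⟨_, m2, fun h2 => h ?_⟩
        rw [← hθ (f ψ) (hf1 ψ hψ) hfT θ2 b2 a4]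
        exact sup_le_sup_left (le_inf inf_le_left h2) _
  · refine ⟨s0 ⊓ θ2, ?_, fun h => a6 ?_⟩
    · simp only [Finset.mem_union, Finset.mem_image, Finset.mem_sdiff]
      exact Or.inr (Or.inr ⟨s0, ⟨hs0, hs0T⟩, rfl⟩)
    · rw [← hθ s0 hs0 hs0T θ2 b2 a4]
      exact sup_le b1 h
  · refine ⟨s0 ⊓ θ1, ?_, fun h => a5 ?_⟩
    · simp only [Finset.mem_union, Finset.mem_image, Finset.mem_sdiff]
      exact Or.inr (Or.inl ⟨s0, ⟨hs0, hs0T⟩, rfl⟩)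
    · rw [← hθ s0 hs0 hs0T θ1 b1 a2]
      exact sup_le b2 h
  · exact le_sup_left.trans b1
  · exact le_sup_left.trans b2
  · intro φ' hφ'
    simp only [Finset.mem_union, Finset.mem_image, Finset.mem_sdiff] at hφ'
    rcases hφ' with h | ⟨s, h, rfl⟩ | ⟨s, h, rfl⟩
    · left
      exact ((Finset.le_sup (f := id) h).trans le_sup_right).trans b1
    · exact Or.inl inf_le_right
    · exact Or.inr inf_le_right

theorem zieg0 [Countable L] (hnt : ¬ (⊤ : L) ≤ ⊥)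
    (hw : ∀ b a : L, b < a → ∃ c d, b ≤ c ∧ c ≤ a ∧ b ≤ d ∧ d ≤ a ∧ ¬ c ≤ d ∧ ¬ d ≤ c) :
    ∃ p : Set L, (∀ a ∈ p, ∀ b, a ≤ b → b ∈ p) ∧ (∀ a ∈ p, ∀ b ∈ p, a ⊓ b ∈ p) ∧ ⊤ ∈ p ∧ ⊥ ∉ p ∧
      ∀ η, η ∉ p → ∃ ψ0 ψ1, η ≤ ψ0 ∧ η ≤ ψ1 ∧ ψ0 ∉ p ∧ ψ1 ∉ p ∧
        ∀ χ ∈ p, (ψ0 ⊓ χ) ⊔ (ψ1 ⊓ χ) ∈ p := by
  classical
  obtain ⟨en, hen⟩ := exists_surjective_nat L
  -- one stage of the construction
  have hstep : ∀ (s : {s : Finset L × Finset L // ∀ ψ ∈ s.2, ∃ φ ∈ s.1, ¬ φ ≤ ψ}) (n : ℕ),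
      ∃ s' : {s : Finset L × Finset L // ∀ ψ ∈ s.2, ∃ φ ∈ s.1, ¬ φ ≤ ψ},
        s.1.2 ⊆ s'.1.2 ∧ (∀ φ' ∈ s'.1.1, ∃ φ ∈ s.1.1, φ' ≤ φ) ∧
        (¬ s.1.1.sup id ≤ en n → ∃ θ1 ∈ s'.1.2, ∃ θ2 ∈ s'.1.2, en n ≤ θ1 ∧ en n ≤ θ2 ∧
          ∀ φ' ∈ s'.1.1, φ' ≤ θ1 ∨ φ' ≤ θ2) := by
    rintro ⟨⟨l, Ps⟩, hP⟩ n
    by_cases hη : l.sup id ≤ en n
    · exact ⟨⟨(l, Ps), hP⟩, fun _ h => h, fun φ h => ⟨φ, h, le_refl _⟩, fun h => absurd hη h⟩
    · obtain ⟨l', θ1, θ2, h1, h2, h3, h4, h5, h6, h7⟩ := zstep hw l Ps (en n) hP hη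
      refine ⟨⟨(l', insert θ1 (insert θ2 Ps)), ?_⟩, ?_, h1, fun _ => ⟨θ1, ?_, θ2, ?_, h5, h6, h7⟩⟩
      · intro ψ hψ
        rcases Finset.mem_insert.1 hψ with rfl | hψ
        · exact h3
        rcases Finset.mem_insert.1 hψ with rfl | hψ
        · exact h4
        · exact h2 ψ hψ
      · intro ψ hψ
        exact Finset.mem_insert_of_mem (Finset.mem_insert_of_mem hψ)
      · exact Finset.mem_insert_self _ _
      · exact Finset.mem_insert_of_mem (Finset.mem_insert_self _ _)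
  choose step hs1 hs2 hs3 using hstep
  let st : ℕ → {s : Finset L × Finset L // ∀ ψ ∈ s.2, ∃ φ ∈ s.1, ¬ φ ≤ ψ} := fun n =>
    Nat.rec ⟨({⊤}, {⊥}), by
      intro ψ hψ
      rw [Finset.mem_singleton] at hψ
      exact ⟨⊤, Finset.mem_singleton_self _, by rw [hψ]; exact hnt⟩⟩ (fun n s => step s n) n
  have st0 : (st 0).1 = ({⊤}, {⊥}) := rfl
  have stS : ∀ n, st (n + 1) = step (st n) n := fun n => rfl
  have mono2 : ∀ n m, n ≤ m → (st n).1.2 ⊆ (st m).1.2 := by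
    intro n m h
    induction h with
    | refl => exact fun _ h => h
    | step _ ih => exact ih.trans (hs1 _ _)
  have mono1 : ∀ n m, n ≤ m → ∀ φ' ∈ (st m).1.1, ∃ φ ∈ (st n).1.1, φ' ≤ φ := by
    intro n m h
    induction h with
    | refl => exact fun φ h => ⟨φ, h, le_refl _⟩
    | step _ ih =>
      intro φ' hφ'
      obtain ⟨φ, h1, h2⟩ := hs2 _ _ φ' hφ'
      obtain ⟨φ0, h3, h4⟩ := ih φ h1
      exact ⟨φ0, h3, h2.trans h4⟩
  let χ : ℕ → L := fun n => (st n).1.1.sup id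
  have hχ : ∀ n m, n ≤ m → χ m ≤ χ n := by
    intro n m h
    refine Finset.sup_le fun φ' hφ' => ?_
    obtain ⟨φ, h1, h2⟩ := mono1 n m h φ' hφ'
    exact h2.trans (Finset.le_sup (f := id) h1)
  have hΨ : ∀ n, ∀ ψ ∈ (st n).1.2, ∀ m, ¬ χ m ≤ ψ := by
    intro n ψ hψ m h
    obtain ⟨φ, h1, h2⟩ := (st (max n m)).2 ψ (mono2 n _ (le_max_left _ _) hψ)
    apply h2
    exact ((Finset.le_sup (f := id) h1).trans (hχ m _ (le_max_right n m))).trans h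
  refine ⟨{a | ∃ n, χ n ≤ a}, ?_, ?_, ?_, ?_, ?_⟩
  · rintro a ⟨n, h⟩ b hab
    exact ⟨n, h.trans hab⟩
  · rintro a ⟨n, h⟩ b ⟨m, h'⟩
    exact ⟨max n m, le_inf ((hχ _ _ (le_max_left _ _)).trans h)
      ((hχ _ _ (le_max_right _ _)).trans h')⟩
  · exact ⟨0, le_top⟩
  · rintro ⟨n, h⟩
    exact hΨ 0 ⊥ (by rw [st0]; exact Finset.mem_singleton_self _) n h
  · intro η hη
    obtain ⟨n, rfl⟩ := hen η
    have h1 : ¬ χ n ≤ en n := fun h => hη ⟨n, h⟩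
    obtain ⟨θ1, t1, θ2, t2, h2, h3, h4⟩ := hs3 (st n) n h1
    rw [← stS] at t1 t2 h4
    refine ⟨θ1, θ2, h2, h3, ?_, ?_, ?_⟩
    · rintro ⟨m, h⟩
      exact hΨ (n + 1) _ t1 m h
    · rintro ⟨m, h⟩
      exact hΨ (n + 1) _ t2 m h
    · rintro c ⟨m, hm⟩
      refine ⟨max (n + 1) m, Finset.sup_le fun φ hφ => ?_⟩
      have h5 : φ ≤ c := (Finset.le_sup (f := id) hφ).trans ((hχ _ _ (le_max_right _ _)).trans hm)
      obtain ⟨φ', h6, h7⟩ := mono1 (n + 1) _ (le_max_left _ m) φ hφ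
      rcases h4 φ' h6 with h | h
      · exact (le_inf (h7.trans h) h5).trans le_sup_left
      · exact (le_inf (h7.trans h) h5).trans le_sup_right

end

end Pool.Agent.W439
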