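import Mathlib
import Pool.Agent.W439.Zieg

set_option autoImplicit false

/-! Intervals of infinite width and the quotient by the intervals not of this kind. -/

namespace Pool.Agent.W439

section
variable {L : Type} [Lattice L]

/-- a set of pairs with the tree property -/
def SW (Q : Set (L × L)) : Prop :=
  Q.Nonempty ∧ ∀ q ∈ Q, q.1 < q.2 ∧ ∃ c ∈ Q, ∃ d ∈ Q, q.1 ≤ c.1 ∧ q.1 ≤ d.1 ∧
    c.2 ≤ c.1 ⊔ d.1 ∧ d.2 ≤ c.1 ⊔ d.1 ∧ c.1 ⊔ d.1 ≤ q.2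

/-- the interval from `b` to `a` contains such a set -/
def Wi (b a : L) : Prop := ∃ Q : Set (L × L), SW Q ∧ ∀ q ∈ Q, b ≤ q.1 ∧ q.2 ≤ a

theorem Wi.mono {b a b' a' : L} (h : Wi b a) (hb : b' ≤ b) (ha : a ≤ a') : Wi b' a' := by
  obtain ⟨Q, hQ, h⟩ := h
  exact ⟨Q, hQ, fun q hq => ⟨hb.trans (h q hq).1, (h q hq).2.trans ha⟩⟩

theorem Wi.lt {b a : L} (h : Wi b a) : b < a := by
  obtain ⟨Q, ⟨⟨q, hq⟩, hQ⟩, h⟩ := h
  exact lt_of_le_of_lt (h q hq).1 (lt_of_lt_of_le (hQ q hq).1 (h q hq).2)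

theorem Wi.irrefl (a : L) : ¬ Wi a a := fun h => lt_irrefl _ h.lt

theorem SW.node {Q : Set (L × L)} (hQ : SW Q) (q : L × L) (hq : q ∈ Q) : Wi q.1 q.2 := by
  refine ⟨{r | r ∈ Q ∧ q.1 ≤ r.1 ∧ r.2 ≤ q.2}, ⟨⟨q, hq, le_refl _, le_refl _⟩, ?_⟩, ?_⟩
  · rintro r ⟨hr, h1, h2⟩
    obtain ⟨h3, c, hc, d, hd, h4, h5, h6, h7, h8⟩ := hQ.2 r hr
    exact ⟨h3, c, ⟨hc, h1.trans h4, h6.trans (h8.trans h2)⟩, d,
      ⟨hd, h1.trans h5, h7.trans (h8.trans h2)⟩, h4, h5, h6, h7, h8⟩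
  · rintro r ⟨_, h1, h2⟩
    exact ⟨h1, h2⟩

variable [IsModularLattice L]

theorem Wi.split {b a : L} (h : Wi b a) (g : L) : Wi (b ⊓ g) (a ⊓ g) ∨ Wi (b ⊔ g) (a ⊔ g) := by
  obtain ⟨Q, hQ, h⟩ := h
  by_cases hc : ∃ q ∈ Q, q.2 ≤ q.1 ⊔ g
  · left
    obtain ⟨q, hq, hqg⟩ := hc
    have key : ∀ z, q.1 ≤ z → z ≤ q.2 → z = q.1 ⊔ (z ⊓ g) := by
      intro z h1 h2
      rw [inf_comm, ← sup_inf_assoc_of_le _ h1]
      exact (inf_eq_right.2 (h2.trans hqg)).symm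
    refine ⟨(fun r : L × L => (r.1 ⊓ g, r.2 ⊓ g)) '' {r | r ∈ Q ∧ q.1 ≤ r.1 ∧ r.2 ≤ q.2},
      ⟨⟨_, ⟨q, ⟨hq, le_refl _, le_refl _⟩, rfl⟩⟩, ?_⟩, ?_⟩
    · rintro _ ⟨r, ⟨hr, h1, h2⟩, rfl⟩
      obtain ⟨h3, c, hc, d, hd, h4, h5, h6, h7, h8⟩ := hQ.2 r hr
      have hsup : (c.1 ⊔ d.1) ⊓ g ≤ (c.1 ⊓ g) ⊔ (d.1 ⊓ g) := by
        have hcd : c.1 ⊔ d.1 = q.1 ⊔ ((c.1 ⊓ g) ⊔ (d.1 ⊓ g)) := by
          conv_lhs => rw [key c.1 (h1.trans h4) (le_sup_left.trans (h8.trans h2)),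
            key d.1 (h1.trans h5) (le_sup_right.trans (h8.trans h2))]
          rw [sup_sup_sup_comm, sup_idem]
        rw [hcd, sup_comm, sup_inf_assoc_of_le _ (sup_le inf_le_right inf_le_right)]
        refine sup_le (le_refl _) ?_
        exact le_sup_of_le_left (inf_le_inf_right g (h1.trans h4))
      refine ⟨lt_of_le_of_ne (inf_le_inf_right g h3.le) fun he => ?_, (c.1 ⊓ g, c.2 ⊓ g),
        ⟨c, ⟨hc, h1.trans h4, h6.trans (h8.trans h2)⟩, rfl⟩, (d.1 ⊓ g, d.2 ⊓ g),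
        ⟨d, ⟨hd, h1.trans h5, h7.trans (h8.trans h2)⟩, rfl⟩, inf_le_inf_right g h4,
        inf_le_inf_right g h5, ?_, ?_, ?_⟩
      · have he' : r.1 ⊓ g = r.2 ⊓ g := he
        have e1 := key r.1 h1 (h3.le.trans h2)
        have e2 := key r.2 (h1.trans h3.le) h2
        rw [he', ← e2] at e1
        exact absurd e1 (ne_of_lt h3)
      · exact (inf_le_inf_right g h6).trans hsup
      · exact (inf_le_inf_right g h7).trans hsup
      · exact sup_le (inf_le_inf_right g (le_sup_left.trans h8))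
          (inf_le_inf_right g (le_sup_right.trans h8))
    · rintro _ ⟨r, ⟨hr, h1, h2⟩, rfl⟩
      exact ⟨inf_le_inf_right g (h r hr).1, inf_le_inf_right g (h r hr).2⟩
  · right
    push Not at hc
    refine ⟨(fun r : L × L => (r.1 ⊔ g, r.2 ⊔ g)) '' Q, ⟨hQ.1.image _, ?_⟩, ?_⟩
    · rintro _ ⟨r, hr, rfl⟩
      obtain ⟨h3, c, hc', d, hd, h4, h5, h6, h7, h8⟩ := hQ.2 r hr
      refine ⟨lt_of_le_of_ne (sup_le_sup_right h3.le g) fun he => ?_, _, ⟨c, hc', rfl⟩, _,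
        ⟨d, hd, rfl⟩, sup_le_sup_right h4 g, sup_le_sup_right h5 g, ?_, ?_, ?_⟩
      · have he' : r.1 ⊔ g = r.2 ⊔ g := he
        apply hc r hr
        rw [he']
        exact le_sup_left
      · show c.2 ⊔ g ≤ (c.1 ⊔ g) ⊔ (d.1 ⊔ g)
        rw [← sup_sup_distrib_right]
        exact sup_le_sup_right h6 g
      · show d.2 ⊔ g ≤ (c.1 ⊔ g) ⊔ (d.1 ⊔ g)
        rw [← sup_sup_distrib_right]
        exact sup_le_sup_right h7 g
      · show (c.1 ⊔ g) ⊔ (d.1 ⊔ g) ≤ r.2 ⊔ g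
        rw [← sup_sup_distrib_right]
        exact sup_le_sup_right h8 g
    · rintro _ ⟨r, hr, rfl⟩
      exact ⟨sup_le_sup_right (h r hr).1 g, sup_le_sup_right (h r hr).2 g⟩

/-- the preorder -/
def wle (a b : L) : Prop := ¬ Wi (a ⊓ b) a

theorem wle_of_le {a b : L} (h : a ≤ b) : wle a b := by
  unfold wle
  rw [inf_eq_left.2 h]
  exact Wi.irrefl a

theorem wle_trans {a b c : L} (h1 : wle a b) (h2 : wle b c) : wle a c := by
  intro h
  have h3 : Wi (a ⊓ b ⊓ c) a := h.mono (inf_le_inf_right c inf_le_left) (le_refl _)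
  rcases h3.split (a ⊓ b) with h4 | h4
  · have h5 : Wi (a ⊓ b ⊓ c) (a ⊓ b) := h4.mono (le_inf (le_refl _) inf_le_left) inf_le_right
    rcases h5.split (b ⊓ c) with h6 | h6
    · have : a ⊓ b ⊓ c ⊓ (b ⊓ c) = a ⊓ b ⊓ (b ⊓ c) := by
        rw [inf_assoc, inf_assoc, inf_assoc]
        congr 1
        rw [inf_left_comm c b c, inf_idem]
      rw [this] at h6
      exact Wi.irrefl _ h6
    · exact h2 (h6.mono le_sup_right (sup_le inf_le_right inf_le_left))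
  · exact h1 (h4.mono le_sup_right (sup_le (le_refl _) inf_le_left))

theorem wle_inf {a b : L} (h : wle a b) (c : L) : wle (a ⊓ c) (b ⊓ c) := by
  intro h1
  have h2 : Wi (a ⊓ b ⊓ c) (a ⊓ c) := h1.mono (by
    refine le_inf (inf_le_inf_right c inf_le_left) (inf_le_inf_right c inf_le_right)) (le_refl _)
  rcases h2.split (a ⊓ b) with h6 | h6
  · have : a ⊓ b ⊓ c ⊓ (a ⊓ b) = a ⊓ c ⊓ (a ⊓ b) := by
      refine le_antisymm ?_ ?_
      · exact inf_le_inf_right _ (inf_le_inf_right c inf_le_left)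
      · refine le_inf (le_inf inf_le_right (inf_le_left.trans inf_le_right)) inf_le_right
    rw [this] at h6
    exact Wi.irrefl _ h6
  · exact h (h6.mono le_sup_right (sup_le inf_le_left inf_le_left))

theorem wle_sup {a b : L} (h : wle a b) (c : L) : wle (a ⊔ c) (b ⊔ c) := by
  intro h1
  have h2 : Wi ((a ⊓ b) ⊔ c) (a ⊔ c) := h1.mono (by
    refine le_inf (sup_le_sup_right inf_le_left c) (sup_le_sup_right inf_le_right c)) (le_refl _)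
  rcases h2.split a with h6 | h6
  · exact h (h6.mono (le_inf le_sup_left inf_le_left) inf_le_right)
  · have : a ⊓ b ⊔ c ⊔ a = a ⊔ c ⊔ a := by
      refine le_antisymm ?_ ?_
      · exact sup_le_sup_right (sup_le_sup_right inf_le_left c) a
      · exact sup_le (sup_le le_sup_right (le_sup_right.trans le_sup_left)) le_sup_right
    rw [this] at h6
    exact Wi.irrefl _ h6

/-- the equivalence relation -/
def wS (L : Type) [Lattice L] [IsModularLattice L] : Setoid L where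
  r a b := wle a b ∧ wle b a
  iseqv := ⟨fun a => ⟨wle_of_le (le_refl a), wle_of_le (le_refl a)⟩, fun h => ⟨h.2, h.1⟩,
    fun h1 h2 => ⟨wle_trans h1.1 h2.1, wle_trans h2.2 h1.2⟩⟩

/-- the quotient lattice -/
def WQ (L : Type) [Lattice L] [IsModularLattice L] : Type := Quotient (wS L)

/-- the class -/
def wq (a : L) : WQ L := Quotient.mk (wS L) a

theorem wq_eq {a b : L} : wq a = wq b ↔ wle a b ∧ wle b a :=
  ⟨fun h => Quotient.exact h, fun h => Quotient.sound h⟩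

theorem wq_surj (x : WQ L) : ∃ a, wq a = x := Quotient.exists_rep x

theorem wle_sup_sup {a b a' b' : L} (h : wle a a') (h' : wle b b') : wle (a ⊔ b) (a' ⊔ b') := by
  refine wle_trans (wle_sup h b) ?_
  rw [sup_comm, sup_comm a']
  exact wle_sup h' a'

theorem wle_inf_inf {a b a' b' : L} (h : wle a a') (h' : wle b b') : wle (a ⊓ b) (a' ⊓ b') := by
  refine wle_trans (wle_inf h b) ?_
  rw [inf_comm, inf_comm a']
  exact wle_inf h' a'

instance : Max (WQ L) := ⟨fun x y => Quotient.liftOn₂ x y (fun a b => wq (a ⊔ b))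
  fun _ _ _ _ h h' => wq_eq.2 ⟨wle_sup_sup h.1 h'.1, wle_sup_sup h.2 h'.2⟩⟩

instance : Min (WQ L) := ⟨fun x y => Quotient.liftOn₂ x y (fun a b => wq (a ⊓ b))
  fun _ _ _ _ h h' => wq_eq.2 ⟨wle_inf_inf h.1 h'.1, wle_inf_inf h.2 h'.2⟩⟩

theorem wq_sup (a b : L) : wq a ⊔ wq b = wq (a ⊔ b) := rfl
theorem wq_inf (a b : L) : wq a ⊓ wq b = wq (a ⊓ b) := rfl

instance : Lattice (WQ L) := Lattice.mk'
  (by
    intro x y
    obtain ⟨a, rfl⟩ := wq_surj x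
    obtain ⟨b, rfl⟩ := wq_surj y
    rw [wq_sup, wq_sup, sup_comm])
  (by
    intro x y z
    obtain ⟨a, rfl⟩ := wq_surj x
    obtain ⟨b, rfl⟩ := wq_surj y
    obtain ⟨c, rfl⟩ := wq_surj z
    rw [wq_sup, wq_sup, wq_sup, wq_sup, sup_assoc])
  (by
    intro x y
    obtain ⟨a, rfl⟩ := wq_surj x
    obtain ⟨b, rfl⟩ := wq_surj y
    rw [wq_inf, wq_inf, inf_comm])
  (by
    intro x y z
    obtain ⟨a, rfl⟩ := wq_surj x
    obtain ⟨b, rfl⟩ := wq_surj y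
    obtain ⟨c, rfl⟩ := wq_surj z
    rw [wq_inf, wq_inf, wq_inf, wq_inf, inf_assoc])
  (by
    intro x y
    obtain ⟨a, rfl⟩ := wq_surj x
    obtain ⟨b, rfl⟩ := wq_surj y
    rw [wq_inf, wq_sup, sup_inf_self])
  (by
    intro x y
    obtain ⟨a, rfl⟩ := wq_surj x
    obtain ⟨b, rfl⟩ := wq_surj y
    rw [wq_sup, wq_inf, inf_sup_self])

theorem wq_le {a b : L} : wq a ≤ wq b ↔ wle a b := by
  rw [← sup_eq_right (a := wq a), wq_sup, wq_eq]
  constructor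
  · intro h
    exact wle_trans (wle_of_le le_sup_left) h.1
  · intro h
    refine ⟨?_, wle_of_le le_sup_right⟩
    have := wle_sup h b
    rwa [sup_idem] at this

instance : IsModularLattice (WQ L) := ⟨by
  intro x y z h
  obtain ⟨a, rfl⟩ := wq_surj x
  obtain ⟨b, rfl⟩ := wq_surj y
  obtain ⟨c, rfl⟩ := wq_surj z
  have h1 : wq c = wq (a ⊔ c) := by
    rw [← wq_sup]
    exact (sup_eq_right.2 h).symm
  rw [h1, wq_sup, wq_inf, wq_inf, wq_sup, wq_le]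
  exact wle_of_le (IsModularLattice.sup_inf_le_assoc_of_le b le_sup_left)⟩

instance [BoundedOrder L] : BoundedOrder (WQ L) where
  top := wq ⊤
  bot := wq ⊥
  le_top := by
    intro x
    obtain ⟨a, rfl⟩ := wq_surj x
    exact wq_le.2 (wle_of_le le_top)
  bot_le := by
    intro x
    obtain ⟨a, rfl⟩ := wq_surj x
    exact wq_le.2 (wle_of_le bot_le)

instance [Countable L] : Countable (WQ L) := inferInstanceAs (Countable (Quotient _))

theorem wq_wide (y x : WQ L) (h : y < x) :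
    ∃ c d, y ≤ c ∧ c ≤ x ∧ y ≤ d ∧ d ≤ x ∧ ¬ c ≤ d ∧ ¬ d ≤ c := by
  obtain ⟨b, rfl⟩ := wq_surj y
  obtain ⟨a, rfl⟩ := wq_surj x
  have h1 : ¬ wle a b := fun h2 => not_le_of_gt h (wq_le.2 h2)
  unfold wle at h1
  rw [not_not] at h1
  have h0 : wq (a ⊓ b) = wq b := by
    rw [← wq_inf]
    exact inf_eq_right.2 h.le
  obtain ⟨Q, hQ, hQ2⟩ := h1
  obtain ⟨q, hq⟩ := hQ.1
  obtain ⟨h3, c, hc, d, hd, h4, h5, h6, h7, h8⟩ := hQ.2 q hq
  have main : ∀ c d : L × L, d ∈ Q → d.2 ≤ c.1 ⊔ d.1 → ¬ wle c.1 d.1 := by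
    intro c d hd h
    unfold wle
    rw [not_not]
    have hw : Wi d.1 (c.1 ⊔ d.1) := (hQ.node d hd).mono (le_refl _) h
    rcases hw.split c.1 with h6 | h6
    · exact h6.mono (by rw [inf_comm]) inf_le_right
    · have : d.1 ⊔ c.1 = c.1 ⊔ d.1 ⊔ c.1 := by
        rw [sup_comm c.1 d.1, sup_assoc, sup_idem]
      rw [this] at h6
      exact absurd h6 (Wi.irrefl _)
  refine ⟨wq c.1, wq d.1, ?_, ?_, ?_, ?_, ?_, ?_⟩
  · rw [← h0]
    exact wq_le.2 (wle_of_le ((hQ2 q hq).1.trans h4))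
  · exact wq_le.2 (wle_of_le ((le_sup_left.trans h8).trans (hQ2 q hq).2))
  · rw [← h0]
    exact wq_le.2 (wle_of_le ((hQ2 q hq).1.trans h5))
  · exact wq_le.2 (wle_of_le ((le_sup_right.trans h8).trans (hQ2 q hq).2))
  · intro hcd
    exact main c d hd h7 (wq_le.1 hcd)
  · intro hcd
    exact main d c hc (by rw [sup_comm]; exact h6) (wq_le.1 hcd)

theorem zieg [BoundedOrder L] [Countable L] (hW : Wi (⊥ : L) ⊤) :
    ∃ p : Set L, (∀ a ∈ p, ∀ b, a ≤ b → b ∈ p) ∧ (∀ a ∈ p, ∀ b ∈ p, a ⊓ b ∈ p) ∧ ⊤ ∈ p ∧ ⊥ ∉ p ∧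
      ∀ η, η ∉ p → ∃ ψ0 ψ1, η ≤ ψ0 ∧ η ≤ ψ1 ∧ ψ0 ∉ p ∧ ψ1 ∉ p ∧
        ∀ χ ∈ p, (ψ0 ⊓ χ) ⊔ (ψ1 ⊓ χ) ∈ p := by
  obtain ⟨p, h1, h2, h3, h4, h5⟩ := zieg0 (L := WQ L) (by
    intro h
    have h' : wle (⊤ : L) ⊥ := wq_le.1 h
    apply h'
    rw [inf_bot_eq]
    exact hW) wq_wide
  refine ⟨{a | wq a ∈ p}, ?_, ?_, h3, h4, ?_⟩
  · intro a ha b hab
    exact h1 _ ha _ (wq_le.2 (wle_of_le hab))
  · intro a ha b hb
    show wq (a ⊓ b) ∈ p
    rw [← wq_inf]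
    exact h2 _ ha _ hb
  · intro η hη
    obtain ⟨x, y, g1, g2, g3, g4, g5⟩ := h5 (wq η) hη
    obtain ⟨a, rfl⟩ := wq_surj x
    obtain ⟨b, rfl⟩ := wq_surj y
    have e1 : wq (η ⊔ a) = wq a := by
      rw [← wq_sup]
      exact sup_eq_right.2 g1
    have e2 : wq (η ⊔ b) = wq b := by
      rw [← wq_sup]
      exact sup_eq_right.2 g2
    refine ⟨η ⊔ a, η ⊔ b, le_sup_left, le_sup_left, ?_, ?_, ?_⟩
    · show wq _ ∉ p
      rw [e1]
      exact g3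
    · show wq _ ∉ p
      rw [e2]
      exact g4
    · intro χ hχ
      show wq _ ∈ p
      rw [← wq_sup, ← wq_inf, ← wq_inf, e1, e2]
      exact g5 _ hχ

end

end Pool.Agent.W439
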