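import Mathlib
import Pool.Agent.W439.PPd
import Pool.Agent.W439.Semi

set_option autoImplicit false

/-! The functor without large elements over a countable finite-dimensional algebra. -/

namespace Pool.Agent.W439

open Pool.Agent.Helper232.RZ

section
variable (F R : Type) [Field F] [Ring R] [Algebra F R]

/-- the product of all finite-dimensional modules -/
abbrev NN : Type := ∀ V : Ob F R, V.M

variable {R}

/-- the pp-definable subgroup -/
def pN {n : ℕ} (φ : PP R n) : AddSubgroup (Fin n → NN F R) where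
  carrier := {x | φ.H x}
  add_mem' := fun {a b} ha hb => (H_add φ a b).1 ha hb
  zero_mem' := (H_add φ (0 : Fin n → NN F R) 0).2.2.1
  neg_mem' := fun {a} ha => (H_add φ a a).2.1 ha

variable {F}

theorem mem_pN {n : ℕ} (φ : PP R n) (x : Fin n → NN F R) : x ∈ pN F φ ↔ φ.H x := Iff.rfl

theorem andN {n : ℕ} (φ ψ : PP R n) :
    ∃ χ : PP R n, ∀ (M : Type) [AddCommGroup M] [Module R M] (x : Fin n → M),
      χ.H x ↔ φ.H x ∧ ψ.H x := by
  classical
  obtain ⟨χ, hχ⟩ := andFin ({φ, ψ} : Finset (PP R n))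
  refine ⟨χ, fun M _ _ x => ?_⟩
  rw [hχ]
  simp

variable (F)

/-- the lattice -/
def pL (R : Type) [Ring R] [Algebra F R] (n : ℕ) : Sublattice (AddSubgroup (Fin n → NN F R)) where
  carrier := Set.range (pN F (R := R))
  supClosed' := by
    rintro _ ⟨φ, rfl⟩ _ ⟨ψ, rfl⟩
    obtain ⟨χ, hχ⟩ := supN φ ψ
    refine ⟨χ, ?_⟩
    ext x
    rw [mem_pN, hχ, AddSubgroup.mem_sup]
    constructor
    · rintro ⟨y, z, h, hy, hz⟩
      exact ⟨y, hy, z, hz, h.symm⟩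
    · rintro ⟨y, hy, z, hz, h⟩
      exact ⟨y, z, h.symm, hy, hz⟩
  infClosed' := by
    rintro _ ⟨φ, rfl⟩ _ ⟨ψ, rfl⟩
    obtain ⟨χ, hχ⟩ := andN φ ψ
    refine ⟨χ, ?_⟩
    ext x
    rw [mem_pN, hχ, AddSubgroup.mem_inf]
    exact Iff.rfl

/-- an element of the lattice -/
def pl {n : ℕ} (φ : PP R n) : pL F R n := ⟨pN F φ, ⟨φ, rfl⟩⟩

variable {F}

theorem pl_le {n : ℕ} (φ ψ : PP R n) :
    pl F φ ≤ pl F ψ ↔ ∀ x : Fin n → NN F R, φ.H x → ψ.H x := Iff.rfl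

theorem pl_surj {n : ℕ} (b : pL F R n) : ∃ φ : PP R n, pl F φ = b := by
  obtain ⟨b, φ, rfl⟩ := b
  exact ⟨φ, rfl⟩

theorem pl_inf {n : ℕ} (φ ψ χ : PP R n) (hχ : ∀ (M : Type) [AddCommGroup M] [Module R M]
    (x : Fin n → M), χ.H x ↔ φ.H x ∧ ψ.H x) : pl F χ = pl F φ ⊓ pl F ψ := by
  apply Subtype.ext
  show pN F χ = pN F φ ⊓ pN F ψ
  ext x
  rw [mem_pN, hχ, AddSubgroup.mem_inf]
  exact Iff.rfl

theorem pl_sup {n : ℕ} (φ ψ χ : PP R n) (hχ : ∀ (M : Type) [AddCommGroup M] [Module R M]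
    (x : Fin n → M), χ.H x ↔ ∃ y z : Fin n → M, x = y + z ∧ φ.H y ∧ ψ.H z) :
    pl F χ = pl F φ ⊔ pl F ψ := by
  apply Subtype.ext
  show pN F χ = pN F φ ⊔ pN F ψ
  ext x
  rw [mem_pN, hχ, AddSubgroup.mem_sup]
  constructor
  · rintro ⟨y, z, h, hy, hz⟩
    exact ⟨y, hy, z, hz, h.symm⟩
  · rintro ⟨y, hy, z, hz, h⟩
    exact ⟨y, z, h.symm, hy, hz⟩

instance (n : ℕ) : IsModularLattice (pL F R n) := ⟨by
  intro x y z h
  exact IsModularLattice.sup_inf_le_assoc_of_le (y : AddSubgroup (Fin n → NN F R)) h⟩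

instance (n : ℕ) [Countable R] : Countable (PP R n) := by
  let f : PP R n → Σ m p : ℕ, (Fin m → Fin n → R) × (Fin m → Fin p → R) :=
    fun φ => ⟨φ.m, φ.p, φ.A, φ.B⟩
  refine Function.Injective.countable (f := f) ?_
  rintro ⟨m, p, A, B⟩ ⟨m', p', A', B'⟩ h
  simp only [f, Sigma.mk.injEq] at h
  obtain ⟨rfl, h⟩ := h
  rw [heq_iff_eq, Sigma.mk.injEq] at h
  obtain ⟨rfl, h⟩ := h
  rw [heq_iff_eq, Prod.mk.injEq] at h
  obtain ⟨rfl, rfl⟩ := h
  rfl

instance (n : ℕ) [Countable R] : Countable (pL F R n) :=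
  Function.Surjective.countable (f := pl F (R := R) (n := n)) pl_surj

/-- the formula `x = 0` -/
def botN (R : Type) [Ring R] (n : ℕ) : PP R n :=
  ⟨n, 0, fun i j => if j = i then 1 else 0, fun _ l => l.elim0⟩

/-- the true formula -/
def topN (R : Type) [Ring R] (n : ℕ) : PP R n := ⟨0, 0, fun i => i.elim0, fun i => i.elim0⟩

theorem botN_H {n : ℕ} {M : Type} [AddCommGroup M] [Module R M] (x : Fin n → M) :
    (botN R n).H x ↔ x = 0 := by
  have h1 : ∀ i : Fin n, (∑ j, (if j = i then (1 : R) else 0) • x j) = x i := by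
    intro i
    simp [ite_smul]
  constructor
  · rintro ⟨y, hy⟩
    funext i
    have h2 := hy i
    change (∑ j, (if j = i then (1 : R) else 0) • x j) + ∑ l : Fin 0, _ = 0 at h2
    rw [h1] at h2
    simpa using h2
  · rintro rfl
    exact (H_add (botN R n) (0 : Fin n → M) 0).2.2.1

theorem topN_H {n : ℕ} {M : Type} [AddCommGroup M] [Module R M] (x : Fin n → M) :
    (topN R n).H x := ⟨fun _ => 0, fun i => i.elim0⟩

instance (n : ℕ) : BoundedOrder (pL F R n) where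
  top := pl F (topN R n)
  bot := pl F (botN R n)
  le_top := by
    intro x
    obtain ⟨φ, rfl⟩ := pl_surj x
    rw [pl_le]
    intro y _
    exact topN_H y
  bot_le := by
    intro x
    obtain ⟨φ, rfl⟩ := pl_surj x
    rw [pl_le]
    intro y hy
    rw [botN_H] at hy
    rw [hy]
    exact (H_add φ (0 : Fin n → NN F R) 0).2.2.1

theorem bot_eq (n : ℕ) : (⊥ : pL F R n) = pl F (botN R n) := rfl

/-- subspaces defined by pp formulas -/
def pF {M : Type} [AddCommGroup M] [Module F M] [Module R M] [IsScalarTower F R M] {n : ℕ}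
    (φ : PP R n) : Submodule F (Fin n → M) where
  carrier := {x | φ.H x}
  add_mem' := fun {a b} ha hb => (H_add φ a b).1 ha hb
  zero_mem' := (H_add φ (0 : Fin n → M) 0).2.2.1
  smul_mem' := by
    intro c x hx
    have h1 := (H_add φ x x).2.2.2 (algebraMap F R c) (fun r => Algebra.commutes c r) hx
    have h2 : (fun i => algebraMap F R c • x i) = c • x := by
      funext i
      rw [algebraMap_smul]
      rfl
    rw [h2] at h1
    exact h1

theorem mem_pF {M : Type} [AddCommGroup M] [Module F M] [Module R M] [IsScalarTower F R M] {n : ℕ}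
    (φ : PP R n) (x : Fin n → M) : x ∈ pF (F := F) φ ↔ φ.H x := Iff.rfl

/-- a functional which kills the common kernel of the functionals `ζ h` is of this form -/
theorem factor {n : ℕ} (U V : Ob F R) (ζ : (Fin n → V.M) →ₗ[F] F) (μ : (Fin n → U.M) →ₗ[F] F)
    (h : ∀ x : Fin n → U.M, (∀ g : U.M →ₗ[R] V.M, ζ (fun j => g (x j)) = 0) → μ x = 0) :
    ∃ g : U.M →ₗ[R] V.M, ∀ x, μ x = ζ (fun j => g (x j)) := by
  let Z : Submodule F (Module.Dual F (Fin n → U.M)) :=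
    { carrier := {ν | ∃ g : U.M →ₗ[R] V.M, ∀ x, ν x = ζ (fun j => g (x j))}
      add_mem' := by
        rintro a b ⟨g, hg⟩ ⟨g', hg'⟩
        refine ⟨g + g', fun x => ?_⟩
        rw [LinearMap.add_apply, hg, hg', ← map_add]
        rfl
      zero_mem' := by
        refine ⟨0, fun x => ?_⟩
        rw [LinearMap.zero_apply]
        exact (map_zero ζ).symm
      smul_mem' := by
        rintro c a ⟨g, hg⟩
        refine ⟨c • g, fun x => ?_⟩
        rw [LinearMap.smul_apply, hg, ← map_smul]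
        rfl }
  have h1 : μ ∈ Z.dualCoannihilator.dualAnnihilator := by
    rw [Submodule.mem_dualAnnihilator]
    intro x hx
    rw [Submodule.mem_dualCoannihilator] at hx
    refine h x fun g => ?_
    exact hx (ζ ∘ₗ (LinearMap.pi fun j => (g.restrictScalars F) ∘ₗ LinearMap.proj j))
      ⟨g, fun x => rfl⟩
  rw [Subspace.dualCoannihilator_dualAnnihilator_eq] at h1
  exact h1

end

section
variable {F R : Type} [Field F] [Ring R] [Algebra F R] [Module.Finite F R] [Countable R]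

theorem klevel {n : ℕ} {T : Type} (t0 : T) (le : T → T → Prop) (W : T → Ob F R)
    (w : ∀ E, Fin n → (W E).M)
    (hbr : ∀ (E : T) (S : Finset T), (∀ s ∈ S, ¬ le s E) → ∃ E1 E2, le E E1 ∧ le E E2 ∧
      ¬ le E1 E2 ∧ ¬ le E2 E1 ∧ ∀ s ∈ S, ¬ le s E1 ∧ ¬ le s E2)
    (h1 : ∀ E E', le E E' → ∃ u : (W E).M →ₗ[R] (W E').M, ∀ i, u (w E i) = w E' i)
    (h2 : ∀ (E' : T) (S : Finset T) (u : ∀ E, (W E).M →ₗ[R] (W E').M),
      (∀ i, w E' i = ∑ E ∈ S, u E (w E i)) → ∃ E ∈ S, le E E') :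
    ∃ B : ∀ V : Ob F R, Submodule F V.M,
      (∀ (U V : Ob F R) (h : U.M →ₗ[R] V.M), ∀ x ∈ B U, h x ∈ B V) ∧
      (∀ (V : Ob F R) (ζ : V.M →ₗ[F] F), (∃ x ∈ B V, ζ x ≠ 0) →
        ∃ (U0 U1 : Ob F R) (g0 : U0.M →ₗ[R] V.M) (g1 : U1.M →ₗ[R] V.M),
          (∃ x ∈ B U0, ζ (g0 x) ≠ 0) ∧ (∃ x ∈ B U1, ζ (g1 x) ≠ 0) ∧
          ∀ (Y : Ob F R) (k0 : Y.M →ₗ[R] U0.M) (k1 : Y.M →ₗ[R] U1.M),
            (∀ x ∈ B Y, ζ (g0 (k0 x)) = ζ (g1 (k1 x))) → ∀ x ∈ B Y, ζ (g0 (k0 x)) = 0) ∧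
      ∃ V : Ob F R, ∃ x ∈ B V, x ≠ 0 := by
  classical
  -- the formulas
  choose th hth using fun E => homPP (F := F) (R := R) (W E) (w E)
  -- the sums
  let jn : Finset T → pL F R n := fun S => S.sup fun E => pl F (th E)
  have mem_jn : ∀ (S : Finset T) (x : Fin n → NN F R), x ∈ (jn S).1 →
      ∃ u : ∀ E, (W E).M →ₗ[R] NN F R, ∀ i, x i = ∑ E ∈ S, u E (w E i) := by
    intro S
    induction S using Finset.induction_on with
    | empty =>
      intro x hx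
      have : x = 0 := (botN_H x).1 hx
      refine ⟨fun _ => 0, fun i => ?_⟩
      rw [this]
      rfl
    | insert E S hE ih =>
      intro x hx
      have h3 : jn (insert E S) = pl F (th E) ⊔ jn S := Finset.sup_insert
      rw [h3] at hx
      have hx' : x ∈ (pl F (th E)).1 ⊔ (jn S).1 := hx
      rw [AddSubgroup.mem_sup] at hx'
      obtain ⟨y, hy, z, hz, rfl⟩ := hx'
      obtain ⟨u, hu⟩ := ih z hz
      obtain ⟨v, hv⟩ := (hth E _ y).1 hy
      refine ⟨Function.update u E v, fun i => ?_⟩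
      rw [Finset.sum_insert hE, Function.update_self, Pi.add_apply, hv, hu]
      congr 1
      refine Finset.sum_congr rfl fun E' hE' => ?_
      rw [Function.update_of_ne]
      rintro rfl
      exact hE hE'
  have not_le : ∀ (E' : T) (S : Finset T), pl F (th E') ≤ jn S → ∃ E ∈ S, le E E' := by
    intro E' S hle
    have h3 : (fun i => (Pi.single (W E') (w E' i) : NN F R)) ∈ (pl F (th E')).1 := by
      refine (hth E' _ _).2 ⟨LinearMap.single R (fun V : Ob F R => V.M) (W E'), fun i => rfl⟩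
    obtain ⟨u, hu⟩ := mem_jn S _ (hle h3)
    refine h2 E' S (fun E => (LinearMap.proj (W E') : NN F R →ₗ[R] (W E').M) ∘ₗ u E) fun i => ?_
    have h4 := congrArg (fun z : NN F R => z (W E')) (hu i)
    simp only [Pi.single_eq_same, Finset.sum_apply] at h4
    exact h4
  have le_of : ∀ E E', le E E' → pl F (th E') ≤ pl F (th E) := by
    intro E E' h
    obtain ⟨u, hu⟩ := h1 E E' h
    rw [pl_le]
    intro x hx
    rw [hth] at hx ⊢
    obtain ⟨v, hv⟩ := hx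
    exact ⟨v ∘ₗ u, fun i => by rw [LinearMap.comp_apply, hu, hv]⟩
  have hW : Wi (⊥ : pL F R n) ⊤ := by
    refine ⟨{q | ∃ (S : Finset T) (E : T), (∀ s ∈ S, ¬ le s E) ∧
      q = (jn S, jn S ⊔ pl F (th E))}, ⟨⟨_, ⟨∅, t0, by simp, rfl⟩⟩, ?_⟩, fun q _ =>
      ⟨bot_le, le_top⟩⟩
    rintro _ ⟨S, E, hS, rfl⟩
    obtain ⟨E1, E2, a1, a2, a3, a4, a5⟩ := hbr E S hS
    refine ⟨lt_of_le_of_ne le_sup_left fun h => ?_, _, ⟨insert E1 S, E2, ?_, rfl⟩, _,
      ⟨insert E2 S, E1, ?_, rfl⟩, ?_, ?_, ?_, ?_, ?_⟩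
    · have h' : jn S = jn S ⊔ pl F (th E) := h
      obtain ⟨s, hs, hsE⟩ := not_le E S (by rw [h']; exact le_sup_right)
      exact hS s hs hsE
    · intro s hs
      rcases Finset.mem_insert.1 hs with rfl | hs
      · exact a3
      · exact (a5 s hs).2
    · intro s hs
      rcases Finset.mem_insert.1 hs with rfl | hs
      · exact a4
      · exact (a5 s hs).1
    · show jn S ≤ jn (insert E1 S)
      exact Finset.sup_mono (Finset.subset_insert _ _)
    · show jn S ≤ jn (insert E2 S)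
      exact Finset.sup_mono (Finset.subset_insert _ _)
    · show jn (insert E1 S) ⊔ pl F (th E2) ≤ jn (insert E1 S) ⊔ jn (insert E2 S)
      refine sup_le_sup_left ?_ _
      exact Finset.le_sup (f := fun E => pl F (th E)) (Finset.mem_insert_self _ _)
    · show jn (insert E2 S) ⊔ pl F (th E1) ≤ jn (insert E1 S) ⊔ jn (insert E2 S)
      rw [sup_comm (jn (insert E1 S))]
      refine sup_le_sup_left ?_ _
      exact Finset.le_sup (f := fun E => pl F (th E)) (Finset.mem_insert_self _ _)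
    · show jn (insert E1 S) ⊔ jn (insert E2 S) ≤ jn S ⊔ pl F (th E)
      have e1 : jn (insert E1 S) = pl F (th E1) ⊔ jn S := Finset.sup_insert
      have e2 : jn (insert E2 S) = pl F (th E2) ⊔ jn S := Finset.sup_insert
      rw [e1, e2]
      exact sup_le (sup_le ((le_of E E1 a1).trans le_sup_right) le_sup_left)
        (sup_le ((le_of E E2 a2).trans le_sup_right) le_sup_left)
  obtain ⟨p, p1, p2, p3, p4, p5⟩ := zieg hW
  -- the functor
  let BB : ∀ V : Ob F R, Set (Fin n → V.M) := fun V => {x | ∀ φ : PP R n, pl F φ ∈ p → φ.H x}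
  have hBmap : ∀ (U V : Ob F R) (h : U.M →ₗ[R] V.M) (x : Fin n → U.M), x ∈ BB U →
      (fun j => h (x j)) ∈ BB V := by
    intro U V h x hx φ hφ
    exact H_map h φ x (hx φ hφ)
  have hfd : ∀ Y : Ob F R, ∃ χ : PP R n, pl F χ ∈ p ∧ ∀ x : Fin n → Y.M, χ.H x ↔ x ∈ BB Y := by
    intro Y
    obtain ⟨Sm, ⟨χ, hχ, hχS⟩, hmin⟩ := IsArtinian.set_has_minimal
      (R := F) {Sm : Submodule F (Fin n → Y.M) | ∃ χ : PP R n, pl F χ ∈ p ∧ Sm = pF χ}
      ⟨_, ⟨topN R n, p3, rfl⟩⟩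
    refine ⟨χ, hχ, fun x => ⟨fun hx φ hφ => ?_, fun hx => hx χ hχ⟩⟩
    obtain ⟨κ, hκ⟩ := andN χ φ
    have hκp : pl F κ ∈ p := by
      rw [pl_inf χ φ κ hκ]
      exact p2 _ hχ _ hφ
    have h3 : ¬ (pF κ : Submodule F (Fin n → Y.M)) < Sm := hmin _ ⟨κ, hκp, rfl⟩
    have h4 : (pF κ : Submodule F (Fin n → Y.M)) ≤ Sm := by
      intro y hy
      rw [mem_pF, hκ] at hy
      rw [hχS]
      exact hy.1
    have h5 : (pF κ : Submodule F (Fin n → Y.M)) = Sm := by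
      by_contra hne
      exact h3 (lt_of_le_of_ne h4 hne)
    have h6 : x ∈ (pF κ : Submodule F (Fin n → Y.M)) := by
      rw [h5, hχS]
      exact hx
    rw [mem_pF, hκ] at h6
    exact h6.2
  have hchar : ∀ ψ : PP R n, (∀ (V : Ob F R), ∀ x ∈ BB V, ψ.H x) → pl F ψ ∈ p := by
    intro ψ hψ
    obtain ⟨U, μ, hμ⟩ := ppDual (F := F) ψ
    obtain ⟨χ, hχ, hχB⟩ := hfd U
    refine p1 _ hχ _ ?_
    rw [pl_le]
    intro x hx
    rw [hμ]
    intro h
    have h3 : χ.H (fun j => h (x j)) := H_map h χ x hx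
    have h4 := hψ U _ ((hχB _).1 h3)
    rw [hμ] at h4
    exact h4 LinearMap.id
  -- the main property for tuples
  have main : ∀ (V : Ob F R) (ζ : (Fin n → V.M) →ₗ[F] F), (∃ x ∈ BB V, ζ x ≠ 0) →
        ∃ (U0 U1 : Ob F R) (g0 : U0.M →ₗ[R] V.M) (g1 : U1.M →ₗ[R] V.M),
          (∃ x ∈ BB U0, ζ (fun j => g0 (x j)) ≠ 0) ∧ (∃ x ∈ BB U1, ζ (fun j => g1 (x j)) ≠ 0) ∧
          ∀ (Y : Ob F R) (k0 : Y.M →ₗ[R] U0.M) (k1 : Y.M →ₗ[R] U1.M),
            (∀ x ∈ BB Y, ζ (fun j => g0 (k0 (x j))) = ζ (fun j => g1 (k1 (x j)))) →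
              ∀ x ∈ BB Y, ζ (fun j => g0 (k0 (x j))) = 0 := by
    intro V ζ hζ
    obtain ⟨η, hη⟩ := dualPP V ζ
    have hηp : pl F η ∉ p := by
      intro h
      obtain ⟨x, hx, hx2⟩ := hζ
      apply hx2
      exact (hη _ x).1 (hx η h) LinearMap.id
    obtain ⟨b0, b1, c0, c1, d0, d1, hd⟩ := p5 _ hηp
    obtain ⟨φ0, rfl⟩ := pl_surj b0
    obtain ⟨φ1, rfl⟩ := pl_surj b1
    obtain ⟨U0, μ0, hμ0⟩ := ppDual (F := F) φ0
    obtain ⟨U1, μ1, hμ1⟩ := ppDual (F := F) φ1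
    have tr : ∀ (φ ψ : PP R n), pl F φ ≤ pl F ψ → ∀ (U : Ob F R) (x : Fin n → U.M),
        φ.H x → ψ.H x := by
      intro φ ψ hle U x hx
      have h3 := H_map (LinearMap.single R (fun V : Ob F R => V.M) U) φ x hx
      have h4 := (pl_le φ ψ).1 hle _ h3
      have h5 := H_map (LinearMap.proj U : NN F R →ₗ[R] U.M) ψ _ h4
      have h6 : (fun i => (LinearMap.proj U : NN F R →ₗ[R] U.M)
          (LinearMap.single R (fun V : Ob F R => V.M) U (x i))) = x := by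
        funext i
        simp
      rw [h6] at h5
      exact h5
    obtain ⟨g0, hg0⟩ := factor U0 V ζ μ0 (by
      intro x hx
      have h3 := tr η φ0 c0 U0 x ((hη _ x).2 hx)
      exact (hμ0 _ x).1 h3 LinearMap.id)
    obtain ⟨g1, hg1⟩ := factor U1 V ζ μ1 (by
      intro x hx
      have h3 := tr η φ1 c1 U1 x ((hη _ x).2 hx)
      exact (hμ1 _ x).1 h3 LinearMap.id)
    have hne : ∀ (φ : PP R n) (U : Ob F R) (μ : (Fin n → U.M) →ₗ[F] F)
        (g : U.M →ₗ[R] V.M), (∀ (M : Type) [AddCommGroup M] [Module R M] (x : Fin n → M),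
        φ.H x ↔ ∀ h : M →ₗ[R] U.M, μ (fun j => h (x j)) = 0) → pl F φ ∉ p →
        (∀ x, μ x = ζ (fun j => g (x j))) → ∃ x ∈ BB U, ζ (fun j => g (x j)) ≠ 0 := by
      intro φ U μ g hμ hφ hg
      by_contra hcon
      push Not at hcon
      apply hφ
      refine hchar φ fun V' x hx => ?_
      rw [hμ]
      intro h
      rw [hg]
      exact hcon _ (hBmap V' U h x hx)
    refine ⟨U0, U1, g0, g1, hne φ0 U0 μ0 g0 hμ0 d0 hg0, hne φ1 U1 μ1 g1 hμ1 d1 hg1, ?_⟩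
    intro Y k0 k1 hk x hx
    obtain ⟨χ, hχ, hχB⟩ := hfd Y
    obtain ⟨κ0, hκ0⟩ := andN φ0 χ
    obtain ⟨κ1, hκ1⟩ := andN φ1 χ
    obtain ⟨κ, hκ⟩ := supN κ0 κ1
    have hκp : pl F κ ∈ p := by
      rw [pl_sup κ0 κ1 κ hκ, pl_inf φ0 χ κ0 hκ0, pl_inf φ1 χ κ1 hκ1]
      exact hd _ hχ
    obtain ⟨y, z, hyz, hy, hz⟩ := (hκ _ x).1 (hx κ hκp)
    rw [hκ0] at hy
    rw [hκ1] at hz
    have e0 : ζ (fun j => g0 (k0 (y j))) = 0 := by
      rw [← hg0]
      exact (hμ0 _ y).1 hy.1 k0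
    have e1 : ζ (fun j => g1 (k1 (z j))) = 0 := by
      rw [← hg1]
      exact (hμ1 _ z).1 hz.1 k1
    have e2 := hk z ((hχB z).1 hz.2)
    have e3 : (fun j => g0 (k0 (x j))) = (fun j => g0 (k0 (y j))) + fun j => g0 (k0 (z j)) := by
      funext j
      rw [hyz, Pi.add_apply, Pi.add_apply, map_add, map_add]
    rw [e3, map_add, e0, e2, e1, add_zero]
  -- nonzero
  have hnz : ∃ V : Ob F R, ∃ x ∈ BB V, x ≠ 0 := by
    by_contra hcon
    push Not at hcon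
    apply p4
    rw [bot_eq]
    refine hchar _ fun V x hx => ?_
    rw [botN_H]
    exact hcon V x hx
  obtain ⟨V0, x0, hx0, hx00⟩ := hnz
  have hj : ∃ j, x0 j ≠ 0 := by
    by_contra hcon
    push Not at hcon
    exact hx00 (funext hcon)
  obtain ⟨j, hj⟩ := hj
  let BS : ∀ V : Ob F R, Submodule F (Fin n → V.M) := fun V =>
    { carrier := BB V
      add_mem' := fun {a b} ha hb φ hφ => (H_add φ a b).1 (ha φ hφ) (hb φ hφ)
      zero_mem' := fun φ _ => (H_add φ (0 : Fin n → V.M) 0).2.2.1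
      smul_mem' := fun c x hx φ hφ => (pF (F := F) φ).smul_mem c (hx φ hφ) }
  have hBS : ∀ V x, x ∈ BS V ↔ x ∈ BB V := fun V x => Iff.rfl
  refine ⟨fun V => (BS V).map (LinearMap.proj j), ?_, ?_, ?_⟩
  · rintro U V h _ ⟨x, hx, rfl⟩
    exact ⟨fun i => h (x i), hBmap U V h x hx, rfl⟩
  · rintro V ζ ⟨_, ⟨x, hx, rfl⟩, hζ⟩
    obtain ⟨U0, U1, g0, g1, ⟨y0, hy0, hy0'⟩, ⟨y1, hy1, hy1'⟩, hm⟩ :=
      main V (ζ ∘ₗ LinearMap.proj j) ⟨x, hx, hζ⟩
    refine ⟨U0, U1, g0, g1, ⟨y0 j, ⟨y0, hy0, rfl⟩, hy0'⟩, ⟨y1 j, ⟨y1, hy1, rfl⟩, hy1'⟩, ?_⟩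
    rintro Y k0 k1 hk _ ⟨y, hy, rfl⟩
    exact hm Y k0 k1 (fun z hz => hk _ ⟨z, hz, rfl⟩) y hy
  · exact ⟨V0, x0 j, ⟨x0, hx0, rfl⟩, hj⟩

end

end Pool.Agent.W439
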