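import Mathlib
import Pool.Agent.W439.KLevel

set_option autoImplicit false

/-! The functor without large elements, from an interval of infinite width. -/

namespace Pool.Agent.W439

open Pool.Agent.Helper232.RZ

section
variable {F R : Type} [Field F] [Ring R] [Algebra F R] [Module.Finite F R] [Countable R]

theorem klevelW {n : ℕ} (hW : Wi (⊥ : pL F R n) ⊤) :
    ∃ B : ∀ V : Ob F R, Submodule F V.M,
      (∀ (U V : Ob F R) (h : U.M →ₗ[R] V.M), ∀ x ∈ B U, h x ∈ B V) ∧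
      (∀ (V : Ob F R) (ζ : V.M →ₗ[F] F), (∃ x ∈ B V, ζ x ≠ 0) →
        ∃ (U0 U1 : Ob F R) (g0 : U0.M →ₗ[R] V.M) (g1 : U1.M →ₗ[R] V.M),
          (∃ x ∈ B U0, ζ (g0 x) ≠ 0) ∧ (∃ x ∈ B U1, ζ (g1 x) ≠ 0) ∧
          ∀ (Y : Ob F R) (k0 : Y.M →ₗ[R] U0.M) (k1 : Y.M →ₗ[R] U1.M),
            (∀ x ∈ B Y, ζ (g0 (k0 x)) = ζ (g1 (k1 x))) → ∀ x ∈ B Y, ζ (g0 (k0 x)) = 0) ∧
      ∃ V : Ob F R, ∃ x ∈ B V, x ≠ 0 := by
  classical
  obtain ⟨p, p1, p2, p3, p4, p5⟩ := zieg hW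
  -- the functor
  let BB : ∀ V : Ob F R, Set (Fin n → V.M) := fun V => {x | ∀ φ : PP R n, pl F φ ∈ p → φ.H x}
  have hBmap : ∀ (U V : Ob F R) (h : U.M →ₗ[R] V.M) (x : Fin n → U.M), x ∈ BB U →
      (fun j => h (x j)) ∈ BB V := by
    intro U V h x hx φ hφ
    exact H_map h φ x (hx φ hφ)
  have hfd : ∀ Y : Ob F R, ∃ χ : PP R n, pl F χ ∈ p ∧ ∀ x : Fin n → Y.M, χ.H x ↔ x ∈ BB Y := by
    intro Y
    obtain ⟨Sm, ⟨χ, hχ, hχS⟩, hmin⟩ := IsArtinian.set_has_minimal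
      (R := F) {Sm : Submodule F (Fin n → Y.M) | ∃ χ : PP R n, pl F χ ∈ p ∧ Sm = pF χ}
      ⟨_, ⟨topN R n, p3, rfl⟩⟩
    refine ⟨χ, hχ, fun x => ⟨fun hx φ hφ => ?_, fun hx => hx χ hχ⟩⟩
    obtain ⟨κ, hκ⟩ := andN χ φ
    have hκp : pl F κ ∈ p := by
      rw [pl_inf χ φ κ hκ]
      exact p2 _ hχ _ hφ
    have h3 : ¬ (pF κ : Submodule F (Fin n → Y.M)) < Sm := hmin _ ⟨κ, hκp, rfl⟩
    have h4 : (pF κ : Submodule F (Fin n → Y.M)) ≤ Sm := by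
      intro y hy
      rw [mem_pF, hκ] at hy
      rw [hχS]
      exact hy.1
    have h5 : (pF κ : Submodule F (Fin n → Y.M)) = Sm := by
      by_contra hne
      exact h3 (lt_of_le_of_ne h4 hne)
    have h6 : x ∈ (pF κ : Submodule F (Fin n → Y.M)) := by
      rw [h5, hχS]
      exact hx
    rw [mem_pF, hκ] at h6
    exact h6.2
  have hchar : ∀ ψ : PP R n, (∀ (V : Ob F R), ∀ x ∈ BB V, ψ.H x) → pl F ψ ∈ p := by
    intro ψ hψ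
    obtain ⟨U, μ, hμ⟩ := ppDual (F := F) ψ
    obtain ⟨χ, hχ, hχB⟩ := hfd U
    refine p1 _ hχ _ ?_
    rw [pl_le]
    intro x hx
    rw [hμ]
    intro h
    have h3 : χ.H (fun j => h (x j)) := H_map h χ x hx
    have h4 := hψ U _ ((hχB _).1 h3)
    rw [hμ] at h4
    exact h4 LinearMap.id
  -- the main property for tuples
  have main : ∀ (V : Ob F R) (ζ : (Fin n → V.M) →ₗ[F] F), (∃ x ∈ BB V, ζ x ≠ 0) →
        ∃ (U0 U1 : Ob F R) (g0 : U0.M →ₗ[R] V.M) (g1 : U1.M →ₗ[R] V.M),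
          (∃ x ∈ BB U0, ζ (fun j => g0 (x j)) ≠ 0) ∧ (∃ x ∈ BB U1, ζ (fun j => g1 (x j)) ≠ 0) ∧
          ∀ (Y : Ob F R) (k0 : Y.M →ₗ[R] U0.M) (k1 : Y.M →ₗ[R] U1.M),
            (∀ x ∈ BB Y, ζ (fun j => g0 (k0 (x j))) = ζ (fun j => g1 (k1 (x j)))) →
              ∀ x ∈ BB Y, ζ (fun j => g0 (k0 (x j))) = 0 := by
    intro V ζ hζ
    obtain ⟨η, hη⟩ := dualPP V ζ
    have hηp : pl F η ∉ p := by
      intro h
      obtain ⟨x, hx, hx2⟩ := hζ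
      apply hx2
      exact (hη _ x).1 (hx η h) LinearMap.id
    obtain ⟨b0, b1, c0, c1, d0, d1, hd⟩ := p5 _ hηp
    obtain ⟨φ0, rfl⟩ := pl_surj b0
    obtain ⟨φ1, rfl⟩ := pl_surj b1
    obtain ⟨U0, μ0, hμ0⟩ := ppDual (F := F) φ0
    obtain ⟨U1, μ1, hμ1⟩ := ppDual (F := F) φ1
    have tr : ∀ (φ ψ : PP R n), pl F φ ≤ pl F ψ → ∀ (U : Ob F R) (x : Fin n → U.M),
        φ.H x → ψ.H x := by
      intro φ ψ hle U x hx
      have h3 := H_map (LinearMap.single R (fun V : Ob F R => V.M) U) φ x hx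
      have h4 := (pl_le φ ψ).1 hle _ h3
      have h5 := H_map (LinearMap.proj U : NN F R →ₗ[R] U.M) ψ _ h4
      have h6 : (fun i => (LinearMap.proj U : NN F R →ₗ[R] U.M)
          (LinearMap.single R (fun V : Ob F R => V.M) U (x i))) = x := by
        funext i
        simp
      rw [h6] at h5
      exact h5
    obtain ⟨g0, hg0⟩ := factor U0 V ζ μ0 (by
      intro x hx
      have h3 := tr η φ0 c0 U0 x ((hη _ x).2 hx)
      exact (hμ0 _ x).1 h3 LinearMap.id)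
    obtain ⟨g1, hg1⟩ := factor U1 V ζ μ1 (by
      intro x hx
      have h3 := tr η φ1 c1 U1 x ((hη _ x).2 hx)
      exact (hμ1 _ x).1 h3 LinearMap.id)
    have hne : ∀ (φ : PP R n) (U : Ob F R) (μ : (Fin n → U.M) →ₗ[F] F)
        (g : U.M →ₗ[R] V.M), (∀ (M : Type) [AddCommGroup M] [Module R M] (x : Fin n → M),
        φ.H x ↔ ∀ h : M →ₗ[R] U.M, μ (fun j => h (x j)) = 0) → pl F φ ∉ p →
        (∀ x, μ x = ζ (fun j => g (x j))) → ∃ x ∈ BB U, ζ (fun j => g (x j)) ≠ 0 := by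
      intro φ U μ g hμ hφ hg
      by_contra hcon
      push Not at hcon
      apply hφ
      refine hchar φ fun V' x hx => ?_
      rw [hμ]
      intro h
      rw [hg]
      exact hcon _ (hBmap V' U h x hx)
    refine ⟨U0, U1, g0, g1, hne φ0 U0 μ0 g0 hμ0 d0 hg0, hne φ1 U1 μ1 g1 hμ1 d1 hg1, ?_⟩
    intro Y k0 k1 hk x hx
    obtain ⟨χ, hχ, hχB⟩ := hfd Y
    obtain ⟨κ0, hκ0⟩ := andN φ0 χ
    obtain ⟨κ1, hκ1⟩ := andN φ1 χ
    obtain ⟨κ, hκ⟩ := supN κ0 κ1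
    have hκp : pl F κ ∈ p := by
      rw [pl_sup κ0 κ1 κ hκ, pl_inf φ0 χ κ0 hκ0, pl_inf φ1 χ κ1 hκ1]
      exact hd _ hχ
    obtain ⟨y, z, hyz, hy, hz⟩ := (hκ _ x).1 (hx κ hκp)
    rw [hκ0] at hy
    rw [hκ1] at hz
    have e0 : ζ (fun j => g0 (k0 (y j))) = 0 := by
      rw [← hg0]
      exact (hμ0 _ y).1 hy.1 k0
    have e1 : ζ (fun j => g1 (k1 (z j))) = 0 := by
      rw [← hg1]
      exact (hμ1 _ z).1 hz.1 k1
    have e2 := hk z ((hχB z).1 hz.2)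
    have e3 : (fun j => g0 (k0 (x j))) = (fun j => g0 (k0 (y j))) + fun j => g0 (k0 (z j)) := by
      funext j
      rw [hyz, Pi.add_apply, Pi.add_apply, map_add, map_add]
    rw [e3, map_add, e0, e2, e1, add_zero]
  -- nonzero
  have hnz : ∃ V : Ob F R, ∃ x ∈ BB V, x ≠ 0 := by
    by_contra hcon
    push Not at hcon
    apply p4
    rw [bot_eq]
    refine hchar _ fun V x hx => ?_
    rw [botN_H]
    exact hcon V x hx
  obtain ⟨V0, x0, hx0, hx00⟩ := hnz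
  have hj : ∃ j, x0 j ≠ 0 := by
    by_contra hcon
    push Not at hcon
    exact hx00 (funext hcon)
  obtain ⟨j, hj⟩ := hj
  let BS : ∀ V : Ob F R, Submodule F (Fin n → V.M) := fun V =>
    { carrier := BB V
      add_mem' := fun {a b} ha hb φ hφ => (H_add φ a b).1 (ha φ hφ) (hb φ hφ)
      zero_mem' := fun φ _ => (H_add φ (0 : Fin n → V.M) 0).2.2.1
      smul_mem' := fun c x hx φ hφ => (pF (F := F) φ).smul_mem c (hx φ hφ) }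
  have hBS : ∀ V x, x ∈ BS V ↔ x ∈ BB V := fun V x => Iff.rfl
  refine ⟨fun V => (BS V).map (LinearMap.proj j), ?_, ?_, ?_⟩
  · rintro U V h _ ⟨x, hx, rfl⟩
    exact ⟨fun i => h (x i), hBmap U V h x hx, rfl⟩
  · rintro V ζ ⟨_, ⟨x, hx, rfl⟩, hζ⟩
    obtain ⟨U0, U1, g0, g1, ⟨y0, hy0, hy0'⟩, ⟨y1, hy1, hy1'⟩, hm⟩ :=
      main V (ζ ∘ₗ LinearMap.proj j) ⟨x, hx, hζ⟩
    refine ⟨U0, U1, g0, g1, ⟨y0 j, ⟨y0, hy0, rfl⟩, hy0'⟩, ⟨y1 j, ⟨y1, hy1, rfl⟩, hy1'⟩, ?_⟩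
    rintro Y k0 k1 hk _ ⟨y, hy, rfl⟩
    exact hm Y k0 k1 (fun z hz => hk _ ⟨z, hz, rfl⟩) y hy
  · exact ⟨V0, x0 j, ⟨x0, hx0, rfl⟩, hj⟩

end

end Pool.Agent.W439
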