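import Mathlib
import Pool.Agent.W439.PPd

set_option autoImplicit false

/-! Extension of scalars from a subfield. -/

namespace Pool.Agent.W439

/-- a form of an algebra over a subfield -/
structure BC (K k A0 A : Type) [Field K] [Field k] [Algebra K k] [Ring A0] [Algebra K A0]
    [Ring A] [Algebra k A] where
  r : ℕ
  ι : A0 →+* A
  c : Module.Basis (Fin r) K A0
  b : Module.Basis (Fin r) k A
  hb : ∀ i, b i = ι (c i)
  hι : ∀ x : K, ι (algebraMap K A0 x) = algebraMap k A (algebraMap K k x)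

section
variable {K k A0 A : Type} [Field K] [Field k] [Algebra K k] [Ring A0] [Algebra K A0]
    [Ring A] [Algebra k A] (D : BC K k A0 A)

theorem BC.ι_smul (x : K) (a : A0) : D.ι (x • a) = algebraMap K k x • D.ι a := by
  rw [Algebra.smul_def, map_mul, D.hι, Algebra.smul_def]

theorem BC.agree {M : Type} [AddCommGroup M] [Module k M] (f : A →ₗ[k] M) (g : A0 → M)
    (h1 : ∀ a b, g (a + b) = g a + g b) (h2 : ∀ (x : K) a, g (x • a) = algebraMap K k x • g a)
    (h : ∀ i, f (D.b i) = g (D.c i)) (a : A0) : f (D.ι a) = g a := by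
  have h0 : g 0 = 0 := by
    have := h1 0 0
    rw [add_zero] at this
    exact left_eq_add.1 this
  let g' : A0 →+ M := { toFun := g, map_zero' := h0, map_add' := h1 }
  have ha := D.c.sum_repr a
  rw [← ha, map_sum, map_sum]
  have : g (∑ i, D.c.repr a i • D.c i) = ∑ i, g (D.c.repr a i • D.c i) :=
    map_sum g' _ _
  rw [this]
  refine Finset.sum_congr rfl fun i _ => ?_
  rw [D.ι_smul, map_smul, ← D.hb, h, h2]

/-- matrices over the subfield -/
def mm (K k : Type) [Field K] [Field k] [Algebra K k] {p q : ℕ} (Z : Matrix (Fin p) (Fin q) K) :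
    Matrix (Fin p) (Fin q) k := Z.map (algebraMap K k)

theorem mm_mul {p q r : ℕ} (Z : Matrix (Fin p) (Fin q) K) (Z' : Matrix (Fin q) (Fin r) K) :
    mm K k (Z * Z') = mm K k Z * mm K k Z' := Matrix.map_mul

theorem mm_add {p q : ℕ} (Z Z' : Matrix (Fin p) (Fin q) K) :
    mm K k (Z + Z') = mm K k Z + mm K k Z' :=
  Matrix.map_add _ (fun a b => map_add (algebraMap K k) a b) _ _

theorem mm_smul {p q : ℕ} (x : K) (Z : Matrix (Fin p) (Fin q) K) :
    mm K k (x • Z) = algebraMap K k x • mm K k Z := by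
  ext i j
  show algebraMap K k (x * Z i j) = algebraMap K k x * algebraMap K k (Z i j)
  rw [map_mul]

theorem mm_one {p : ℕ} : mm K k (1 : Matrix (Fin p) (Fin p) K) = 1 :=
  Matrix.map_one _ (map_zero _) (map_one _)

theorem mm_zero {p : ℕ} : mm K k (0 : Matrix (Fin p) (Fin p) K) = 0 :=
  Matrix.map_zero _ (map_zero _)

theorem mm_inj {p q : ℕ} {Z Z' : Matrix (Fin p) (Fin q) K} (h : mm K k Z = mm K k Z') :
    Z = Z' := by
  ext i j
  exact (algebraMap K k).injective (congrFun (congrFun h i) j)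

/-- extension of scalars on modules, the action -/
noncomputable def BC.exρ (V : Ob K A0) : A →ₐ[k] Matrix (Fin V.d) (Fin V.d) k :=
  AlgHom.ofLinearMap (D.b.constr k fun i => mm K k (V.ρ (D.c i)))
    (by
      have h := D.agree (D.b.constr k fun i => mm K k (V.ρ (D.c i))) (fun a => mm K k (V.ρ a))
        (fun a b => by rw [map_add, mm_add]) (fun x a => by rw [map_smul, mm_smul])
        (fun i => by rw [Module.Basis.constr_basis]) 1
      rw [map_one V.ρ, mm_one, map_one D.ι] at h
      exact h)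
    (by
      set f := D.b.constr k fun i => mm K k (V.ρ (D.c i)) with hf
      have h := D.agree f (fun a => mm K k (V.ρ a))
        (fun a b => by rw [map_add, mm_add]) (fun x a => by rw [map_smul, mm_smul])
        (fun i => by rw [hf, Module.Basis.constr_basis])
      have h1 : ∀ i j, f (D.b i * D.b j) = f (D.b i) * f (D.b j) := by
        intro i j
        rw [D.hb, D.hb, ← map_mul, h, h, h, map_mul, mm_mul]
      have h2 : ∀ i y, f (D.b i * y) = f (D.b i) * f y := by
        intro i y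
        have : f ∘ₗ LinearMap.mulLeft k (D.b i) = LinearMap.mulLeft k (f (D.b i)) ∘ₗ f :=
          D.b.ext fun j => h1 i j
        exact LinearMap.congr_fun this y
      intro x y
      have : f ∘ₗ LinearMap.mulRight k y = LinearMap.mulRight k (f y) ∘ₗ f :=
        D.b.ext fun i => h2 i y
      exact LinearMap.congr_fun this x)

/-- extension of scalars on modules -/
noncomputable abbrev BC.ex (V : Ob K A0) : Ob k A := ⟨V.d, D.exρ V⟩

theorem BC.ex_ρ (V : Ob K A0) (a : A0) :
    (D.ex V).ρ (D.ι a) = mm K k (V.ρ a) :=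
  D.agree (D.b.constr k fun i => mm K k (V.ρ (D.c i))) (fun a => mm K k (V.ρ a))
    (fun a b => by rw [map_add, mm_add]) (fun x a => by rw [map_smul, mm_smul])
    (fun i => by rw [Module.Basis.constr_basis]) a

/-- inclusion of the rational vectors -/
def BC.up (V : Ob K A0) (x : V.M) : (D.ex V).M := fun i : Fin V.d => algebraMap K k (x i)

theorem BC.up_apply (V : Ob K A0) (x : V.M) (i : Fin V.d) :
    D.up V x i = algebraMap K k (x i) := rfl

theorem BC.up_add (V : Ob K A0) (x y : V.M) : D.up V (x + y) = D.up V x + D.up V y := by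
  funext i
  exact map_add (algebraMap K k) (x i) (y i)

theorem BC.up_smul (V : Ob K A0) (c : K) (x : V.M) :
    D.up V (c • x) = algebraMap K k c • D.up V x := by
  funext i
  exact map_mul (algebraMap K k) c (x i)

theorem BC.up_act (V : Ob K A0) (a : A0) (x : V.M) : D.up V (a • x) = D.ι a • D.up V x := by
  funext i
  show algebraMap K k (∑ j, V.ρ a i j * x j) = ∑ j, (D.ex V).ρ (D.ι a) i j * D.up V x j
  rw [D.ex_ρ, map_sum]
  refine Finset.sum_congr rfl fun j _ => ?_
  rw [map_mul]
  rfl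

theorem BC.up_e (V : Ob K A0) (j : Fin V.d) : D.up V (V.e j) = (D.ex V).e j := by
  have h : ∀ i : Fin V.d, algebraMap K k ((Pi.single j (1 : K) : Fin V.d → K) i) =
      (Pi.single j (1 : k) : Fin V.d → k) i := by
    intro i
    by_cases h : i = j
    · subst h
      rw [Pi.single_eq_same, Pi.single_eq_same, map_one]
    · rw [Pi.single_eq_of_ne h, Pi.single_eq_of_ne h, map_zero]
  exact funext h

/-- a matrix which commutes with the actions gives a homomorphism -/
theorem Ob.mkHom {F R : Type} [Field F] [Ring R] [Algebra F R] (V U : Ob F R)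
    (Z : Matrix (Fin U.d) (Fin V.d) F) (h : ∀ a, Z * V.ρ a = U.ρ a * Z) :
    ∃ u : V.M →ₗ[R] U.M, ∀ x : V.M, u x = Z.mulVec (x : Fin V.d → F) := by
  refine ⟨{ toFun := fun x => Z.mulVec (x : Fin V.d → F),
            map_add' := fun x y => Matrix.mulVec_add _ _ _, map_smul' := fun a x => ?_ },
    fun x => rfl⟩
  show Z.mulVec ((V.ρ a).mulVec (x : Fin V.d → F)) = (U.ρ a).mulVec (Z.mulVec (x : Fin V.d → F))
  rw [Matrix.mulVec_mulVec, Matrix.mulVec_mulVec, h]

/-- the matrix of a homomorphism -/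
def Ob.mat {F R : Type} [Field F] [Ring R] [Algebra F R] {V U : Ob F R} (u : V.M →ₗ[R] U.M) :
    Matrix (Fin U.d) (Fin V.d) F := fun i j => u (V.e j) i

theorem Ob.mat_mulVec {F R : Type} [Field F] [Ring R] [Algebra F R] {V U : Ob F R}
    (u : V.M →ₗ[R] U.M) (x : V.M) : u x = (Ob.mat u).mulVec (x : Fin V.d → F) := by
  funext i
  have h1 : u x = ∑ l, x l • u (V.e l) := by
    conv_lhs => rw [Ob.sum_single V x]
    have h2 := map_sum (u.restrictScalars F) (fun l => x l • V.e l) Finset.univ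
    refine h2.trans (Finset.sum_congr rfl fun l _ => ?_)
    exact (u.restrictScalars F).map_smul (x l) (V.e l)
  rw [h1]
  show (∑ l, x l • u (V.e l) : Fin U.d → F) i = ∑ l, u (V.e l) i * x l
  rw [Finset.sum_apply]
  exact Finset.sum_congr rfl fun l _ => mul_comm _ _

theorem mat_eq_of_mulVec {F : Type} [Field F] {p q : ℕ} {Z Z' : Matrix (Fin p) (Fin q) F}
    (h : ∀ x : Fin q → F, Z.mulVec x = Z'.mulVec x) : Z = Z' :=
  Matrix.toLin'.injective (LinearMap.ext fun x => by
    rw [Matrix.toLin'_apply, Matrix.toLin'_apply]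
    exact h x)

theorem Ob.mat_comm {F R : Type} [Field F] [Ring R] [Algebra F R] {V U : Ob F R}
    (u : V.M →ₗ[R] U.M) (a : R) : Ob.mat u * V.ρ a = U.ρ a * Ob.mat u := by
  apply mat_eq_of_mulVec
  intro x
  rw [← Matrix.mulVec_mulVec, ← Matrix.mulVec_mulVec]
  have h1 := Ob.mat_mulVec u (a • (show V.M from x))
  have h2 := Ob.mat_mulVec u (show V.M from x)
  have h3 : u (a • (show V.M from x)) = a • u (show V.M from x) := map_smul u a _
  rw [h1] at h3
  rw [h2] at h3
  exact h3

/-- extension of scalars on homomorphisms -/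
theorem BC.exH {V U : Ob K A0} (u : V.M →ₗ[A0] U.M) :
    ∃ w : (D.ex V).M →ₗ[A] (D.ex U).M,
      ∀ x : (D.ex V).M, w x = (mm K k (Ob.mat u)).mulVec (x : Fin V.d → k) := by
  refine Ob.mkHom (D.ex V) (D.ex U) (mm K k (Ob.mat u)) ?_
  have h1 : ∀ i, mm K k (Ob.mat u) * (D.ex V).ρ (D.b i) = (D.ex U).ρ (D.b i) * mm K k (Ob.mat u) := by
    intro i
    rw [D.hb, D.ex_ρ, D.ex_ρ]
    show mm K k (Ob.mat u) * mm K k (V.ρ (D.c i)) = mm K k (U.ρ (D.c i)) * mm K k (Ob.mat u)
    rw [← mm_mul, ← mm_mul, Ob.mat_comm]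
  intro a
  rw [← D.b.sum_repr a, map_sum, map_sum]
  show mm K k (Ob.mat u) * (∑ i, (D.ex V).ρ (D.b.repr a i • D.b i)) =
    (∑ i, (D.ex U).ρ (D.b.repr a i • D.b i)) * mm K k (Ob.mat u)
  rw [Matrix.mul_sum, Matrix.sum_mul]
  refine Finset.sum_congr rfl fun i _ => ?_
  rw [map_smul, map_smul, Matrix.mul_smul, Matrix.smul_mul, h1]

/-- extension of scalars on homomorphisms -/
noncomputable def BC.eh {V U : Ob K A0} (u : V.M →ₗ[A0] U.M) : (D.ex V).M →ₗ[A] (D.ex U).M :=
  (D.exH u).choose

theorem BC.eh_spec {V U : Ob K A0} (u : V.M →ₗ[A0] U.M) (x : (D.ex V).M) :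
    D.eh u x = (mm K k (Ob.mat u)).mulVec (x : Fin V.d → k) := (D.exH u).choose_spec x

theorem BC.eh_apply {V U : Ob K A0} (u : V.M →ₗ[A0] U.M) (x : (D.ex V).M) (i : Fin U.d) :
    D.eh u x i = ∑ j : Fin V.d, algebraMap K k (u (V.e j) i) * x j := by
  rw [D.eh_spec]
  rfl

theorem BC.eh_up {V U : Ob K A0} (u : V.M →ₗ[A0] U.M) (x : V.M) :
    D.eh u (D.up V x) = D.up U (u x) := by
  funext i
  rw [D.eh_apply, Ob.mat_mulVec u x]
  show _ = algebraMap K k (∑ j, Ob.mat u i j * x j)
  rw [map_sum]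
  refine Finset.sum_congr rfl fun j _ => ?_
  rw [map_mul]
  rfl

/-- the reduction of a homomorphism by a linear functional of the big field -/
noncomputable def BC.red (l : k →ₗ[K] K) {V U : Ob K A0} (H : (D.ex V).M →ₗ[A] (D.ex U).M) :
    V.M →ₗ[A0] U.M where
  toFun x := fun i : Fin U.d => l (H (D.up V x) i)
  map_add' x y := by
    funext i
    rw [D.up_add, map_add]
    exact map_add l _ _
  map_smul' a x := by
    funext i
    rw [D.up_act, map_smul]
    show l (∑ j, (D.ex U).ρ (D.ι a) i j * H (D.up V x) j) =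
      ∑ j, U.ρ a i j * l (H (D.up V x) j)
    rw [D.ex_ρ, map_sum]
    refine Finset.sum_congr rfl fun j _ => ?_
    show l (algebraMap K k (U.ρ a i j) * H (D.up V x) j) = _
    rw [← Algebra.smul_def, map_smul, smul_eq_mul]

theorem BC.red_apply (l : k →ₗ[K] K) {V U : Ob K A0} (H : (D.ex V).M →ₗ[A] (D.ex U).M)
    (x : V.M) (i : Fin U.d) : D.red l H x i = l (H (D.up V x) i) := rfl

theorem BC.red_eh (l : k →ₗ[K] K) {V U W : Ob K A0} (H : (D.ex V).M →ₗ[A] (D.ex U).M)
    (g : U.M →ₗ[A0] W.M) (x : V.M) : D.red l (D.eh g ∘ₗ H) x = g (D.red l H x) := by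
  funext i
  rw [D.red_apply, LinearMap.comp_apply, D.eh_apply, Ob.mat_mulVec g]
  show l _ = ∑ j, Ob.mat g i j * D.red l H x j
  rw [map_sum]
  refine Finset.sum_congr rfl fun j _ => ?_
  rw [← Algebra.smul_def, map_smul, smul_eq_mul]
  rfl

/-- the functional on the rational vectors -/
noncomputable def BC.zf {V : Ob K A0} (ζ : (D.ex V).M →ₗ[k] k) : V.M →ₗ[K] k where
  toFun x := ζ (D.up V x)
  map_add' x y := by rw [D.up_add, map_add]
  map_smul' c x := by
    rw [D.up_smul, map_smul, RingHom.id_apply, smul_eq_mul, Algebra.smul_def]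

theorem BC.zf_apply {V : Ob K A0} (ζ : (D.ex V).M →ₗ[k] k) (x : V.M) :
    D.zf ζ x = ζ (D.up V x) := rfl

end

/-- expansion of the elements of a finite-dimensional subspace -/
theorem expan {K k : Type} [Field K] [Field k] [Algebra K k] (S : Submodule K k)
    [Module.Finite K S] : ∃ (m : ℕ) (s : Fin m → k) (l : Fin m → (k →ₗ[K] K)),
      LinearIndependent K s ∧ ∀ w ∈ S, w = ∑ t, l t w • s t := by
  let b := Module.finBasis K S
  have : ∀ t, ∃ l : k →ₗ[K] K, l ∘ₗ S.subtype = b.coord t := fun t =>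
    LinearMap.exists_extend (b.coord t)
  choose l hl using this
  refine ⟨_, fun t => (b t : k), l, ?_, ?_⟩
  · exact b.linearIndependent.map' S.subtype (Submodule.ker_subtype S)
  · intro w hw
    have h1 := b.sum_repr ⟨w, hw⟩
    have h2 := congrArg S.subtype h1
    rw [map_sum] at h2
    simp only [Submodule.subtype_apply, Submodule.coe_smul] at h2
    rw [← h2]
    refine Finset.sum_congr rfl fun t _ => ?_
    congr 1
    have h3 := LinearMap.congr_fun (hl t) ⟨w, hw⟩
    rw [h2]
    exact h3.symm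

/-- no rank one zeros over the big field without such zeros over the small field -/
def D4 (K k : Type) [Field K] [Field k] [Algebra K k] : Prop :=
  ∀ (q r p : ℕ) (β : Fin p → Fin q → Fin r → K),
    (∃ (c : Fin q → k) (e : Fin r → k), c ≠ 0 ∧ e ≠ 0 ∧
      ∀ l, ∑ i, ∑ j, algebraMap K k (β l i j) * c i * e j = 0) →
    ∃ (c : Fin q → K) (e : Fin r → K), c ≠ 0 ∧ e ≠ 0 ∧
      ∀ l, ∑ i, ∑ j, β l i j * c i * e j = 0

theorem lemX {K k : Type} [Field K] [Field k] [Algebra K k] (hD : D4 K k) {B E : Type}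
    [AddCommGroup B] [Module K B] [Module.Finite K B] [AddCommGroup E] [Module K E]
    [Module.Finite K E] (j : E →ₗ[K] k) (hj : Function.Injective j) {m : ℕ} (s : Fin m → k)
    (hs : LinearIndependent K s) (T : Fin m → (B →ₗ[K] E))
    (hT : ∀ x, ∑ t, s t * j (T t x) = 0)
    (hsur : ∀ T' ∈ Submodule.span K (Set.range T), T' = 0 ∨ Function.Surjective T') :
    ∀ t, T t = 0 := by
  classical
  by_contra hcon
  push Not at hcon
  obtain ⟨t0, ht0⟩ := hcon
  let G := Submodule.span K (Set.range T)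
  have : Module.Finite K G := FiniteDimensional.span_of_finite K (Set.finite_range T)
  let τ := Module.finBasis K G
  let ε := Module.finBasis K E
  let x := Module.finBasis K B
  have hTG : ∀ t, T t ∈ G := fun t => Submodule.subset_span ⟨t, rfl⟩
  let a : Fin m → Fin (Module.finrank K G) → K := fun t i => τ.repr ⟨T t, hTG t⟩ i
  have ha : ∀ t, T t = ∑ i, a t i • (τ i : B →ₗ[K] E) := by
    intro t
    have h1 := congrArg G.subtype (τ.sum_repr ⟨T t, hTG t⟩)
    rw [map_sum] at h1
    simp only [Submodule.subtype_apply, Submodule.coe_smul] at h1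
    exact h1.symm
  let γ : Fin (Module.finrank K G) → k := fun i => ∑ t, a t i • s t
  have hγ : γ ≠ 0 := by
    intro h0
    apply ht0
    have h1 : ∀ t i, a t i = 0 := by
      intro t i
      have h2 : ∑ t, a t i • s t = 0 := congrFun h0 i
      exact (Fintype.linearIndependent_iff.1 hs) (fun t => a t i) h2 t
    rw [ha t0]
    exact Finset.sum_eq_zero fun i _ => by rw [h1, zero_smul]
  have hγ2 : ∀ y, ∑ i, γ i * j ((τ i : B →ₗ[K] E) y) = 0 := by
    intro y
    rw [← hT y]
    have h1 : ∀ i, γ i * j ((τ i : B →ₗ[K] E) y) = ∑ t, (a t i • s t) * j ((τ i : B →ₗ[K] E) y) :=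
      fun i => by rw [Finset.sum_mul]
    rw [Finset.sum_congr rfl fun i _ => h1 i, Finset.sum_comm]
    refine Finset.sum_congr rfl fun t _ => ?_
    rw [ha t, LinearMap.sum_apply, map_sum, Finset.mul_sum]
    refine Finset.sum_congr rfl fun i _ => ?_
    rw [LinearMap.smul_apply, map_smul, smul_mul_assoc, mul_smul_comm]
  have hE : (fun i => j (ε i)) ≠ 0 := by
    intro h0
    apply ht0
    have h1 : ∀ i, ε i = 0 := by
      intro i
      apply hj
      rw [map_zero]
      exact congrFun h0 i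
    apply LinearMap.ext
    intro y
    rw [← ε.sum_repr (T t0 y)]
    exact Finset.sum_eq_zero fun i _ => by rw [h1, smul_zero]
  obtain ⟨c', g', hc', hg', h2⟩ := hD _ _ _
    (fun l i t => ε.repr ((τ t : B →ₗ[K] E) (x l)) i) ⟨fun i => j (ε i), γ, hE, hγ, by
      intro l
      rw [Finset.sum_comm, ← hγ2 (x l)]
      refine Finset.sum_congr rfl fun t _ => ?_
      conv_rhs => rw [← ε.sum_repr ((τ t : B →ₗ[K] E) (x l)), map_sum, Finset.mul_sum]
      refine Finset.sum_congr rfl fun i _ => ?_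
      rw [map_smul, Algebra.smul_def]
      ring⟩
  -- the combination
  let T' : B →ₗ[K] E := ∑ t, g' t • (τ t : B →ₗ[K] E)
  have hT'G : T' ∈ G := by
    refine Submodule.sum_mem _ fun t _ => Submodule.smul_mem _ _ (τ t).2
  have hT'0 : T' ≠ 0 := by
    intro h0
    apply hg'
    funext t
    have h1 : ∑ t, g' t • τ t = 0 := by
      apply Subtype.ext
      have h3 := map_sum G.subtype (fun t => g' t • τ t) Finset.univ
      refine Eq.trans h3 ?_
      exact h0
    exact (Fintype.linearIndependent_iff.1 τ.linearIndependent) g' h1 t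
  have hsurj := (hsur T' hT'G).resolve_left hT'0
  let ℓ : E →ₗ[K] K := ε.constr K c'
  have hℓ : ℓ ∘ₗ T' = 0 := by
    apply x.ext
    intro l
    rw [LinearMap.comp_apply, LinearMap.zero_apply, ← h2 l]
    show ℓ ((∑ t, g' t • (τ t : B →ₗ[K] E)) (x l)) = _
    rw [LinearMap.sum_apply, map_sum, Finset.sum_comm]
    refine Finset.sum_congr rfl fun t _ => ?_
    rw [LinearMap.smul_apply, map_smul]
    conv_lhs => rw [← ε.sum_repr ((τ t : B →ₗ[K] E) (x l)), map_sum]
    rw [smul_eq_mul, Finset.mul_sum]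
    refine Finset.sum_congr rfl fun i _ => ?_
    rw [map_smul, Module.Basis.constr_basis, smul_eq_mul]
    ring
  apply hc'
  funext i
  obtain ⟨y, hy⟩ := hsurj (ε i)
  have h3 := LinearMap.congr_fun hℓ y
  rw [LinearMap.comp_apply, hy, Module.Basis.constr_basis] at h3
  exact h3

end Pool.Agent.W439
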