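import Mathlib
import Pool.Agent.W439.Base

set_option autoImplicit false

/-! Countable subfields over which everything is defined. -/

namespace Pool.Agent.W439

theorem closC {X ι : Type} [Countable ι] (ar : ι → Type) (har : ∀ i, Finite (ar i))
    (f : ∀ i, (ar i → X) → X) :
    ∃ C : Set X, C.Countable ∧ ∀ i (v : ar i → X), (∀ j, v j ∈ C) → f i v ∈ C := by
  classical
  have e1 : Nonempty (Encodable ι) := Encodable.nonempty_encodable.2 inferInstance
  obtain ⟨e1⟩ := e1
  have e2 : ∀ i, Fintype (ar i) := fun i => @Fintype.ofFinite _ (har i)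
  have e3 : ∀ i, Encodable (ar i) := fun i => Fintype.toEncodable _
  let ev : WType ar → X := WType.elim X fun t => f t.1 t.2
  have h0 : Encodable (WType ar) := inferInstance
  have h1 : Countable (WType ar) := Encodable.countable
  refine ⟨Set.range ev, Set.countable_range ev, ?_⟩
  intro i v hv
  choose w hw using hv
  refine ⟨WType.mk i w, ?_⟩
  have : ev (WType.mk i w) = f i (fun j => ev (w j)) := rfl
  rw [this]
  congr 1
  funext j
  exact hw j

section
variable {k : Type} [Field k]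

/-- a chosen rank one zero -/
noncomputable def sol (q r p : ℕ) (β : Fin p × Fin q × Fin r → k) : (Fin q → k) × (Fin r → k) :=
  open Classical in
  if h : ∃ c : (Fin q → k) × (Fin r → k), c.1 ≠ 0 ∧ c.2 ≠ 0 ∧
    ∀ l, ∑ i, ∑ j, β (l, i, j) * c.1 i * c.2 j = 0 then h.choose else 0

theorem sol_spec (q r p : ℕ) (β : Fin p × Fin q × Fin r → k)
    (h : ∃ c : (Fin q → k) × (Fin r → k), c.1 ≠ 0 ∧ c.2 ≠ 0 ∧
      ∀ l, ∑ i, ∑ j, β (l, i, j) * c.1 i * c.2 j = 0) :
    (sol q r p β).1 ≠ 0 ∧ (sol q r p β).2 ≠ 0 ∧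
      ∀ l, ∑ i, ∑ j, β (l, i, j) * (sol q r p β).1 i * (sol q r p β).2 j = 0 := by
  unfold sol
  rw [dif_pos h]
  exact h.choose_spec

theorem exists_sub (s : Set k) (hs : s.Countable) :
    ∃ K : Subfield k, s ⊆ K ∧ Countable K ∧ D4 K k := by
  classical
  have hsc : Countable s := hs
  obtain ⟨C1, hC1, h1⟩ := closC (X := k)
    (ι := Fin 6 ⊕ (s ⊕ ((Σ t : ℕ × ℕ × ℕ, Fin t.1) ⊕ (Σ t : ℕ × ℕ × ℕ, Fin t.2.1))))
    (ar := fun i => match i with
      | Sum.inl _ => Fin 2
      | Sum.inr (Sum.inl _) => Fin 0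
      | Sum.inr (Sum.inr (Sum.inl t)) => Fin t.1.2.2 × Fin t.1.1 × Fin t.1.2.1
      | Sum.inr (Sum.inr (Sum.inr t)) => Fin t.1.2.2 × Fin t.1.1 × Fin t.1.2.1)
    (by
      rintro (i | i | i | i)
      · exact inferInstanceAs (Finite (Fin 2))
      · exact inferInstanceAs (Finite (Fin 0))
      · exact inferInstanceAs (Finite (Fin i.1.2.2 × Fin i.1.1 × Fin i.1.2.1))
      · exact inferInstanceAs (Finite (Fin i.1.2.2 × Fin i.1.1 × Fin i.1.2.1)))
    (f := fun i => match i with
      | Sum.inl a => fun v => ![v 0 + v 1, v 0 * v 1, - v 0, (v 0)⁻¹, 0, 1] a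
      | Sum.inr (Sum.inl x) => fun _ => (x : k)
      | Sum.inr (Sum.inr (Sum.inl t)) => fun v => (sol t.1.1 t.1.2.1 t.1.2.2 v).1 t.2
      | Sum.inr (Sum.inr (Sum.inr t)) => fun v => (sol t.1.1 t.1.2.1 t.1.2.2 v).2 t.2)
  have hop : ∀ (a : Fin 6) (x y : k), x ∈ C1 → y ∈ C1 →
      ![x + y, x * y, - x, x⁻¹, 0, 1] a ∈ C1 := by
    intro a x y hx hy
    exact h1 (Sum.inl a) ![x, y] (by
      intro j
      fin_cases j
      · exact hx
      · exact hy)
  have hel : ∀ x ∈ s, x ∈ C1 := by
    intro x hx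
    exact h1 (Sum.inr (Sum.inl ⟨x, hx⟩)) (fun j => j.elim0) (fun j => j.elim0)
  have hs1 : ∀ (q r p : ℕ) (β : Fin p × Fin q × Fin r → k) (i : Fin q), (∀ t, β t ∈ C1) →
      (sol q r p β).1 i ∈ C1 := by
    intro q r p β i hβ
    exact h1 (Sum.inr (Sum.inr (Sum.inl ⟨(q, r, p), i⟩))) β hβ
  have hs2 : ∀ (q r p : ℕ) (β : Fin p × Fin q × Fin r → k) (i : Fin r), (∀ t, β t ∈ C1) →
      (sol q r p β).2 i ∈ C1 := by
    intro q r p β i hβ
    exact h1 (Sum.inr (Sum.inr (Sum.inr ⟨(q, r, p), i⟩))) β hβ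
  have h0 : ∃ x, x ∈ C1 := ⟨_, hs1 1 1 0 (fun _ => 0) 0 (fun t => t.1.elim0)⟩
  obtain ⟨z, hz⟩ := h0
  let K : Subfield k :=
    { carrier := C1
      mul_mem' := fun {a b} ha hb => hop 1 a b ha hb
      one_mem' := hop 5 z z hz hz
      add_mem' := fun {a b} ha hb => hop 0 a b ha hb
      zero_mem' := hop 4 z z hz hz
      neg_mem' := fun {a} ha => hop 2 a a ha ha
      inv_mem' := fun a ha => hop 3 a a ha ha }
  refine ⟨K, hel, hC1, ?_⟩
  intro q r p β ⟨c, e, hc, he, hce⟩
  let β' : Fin p × Fin q × Fin r → k := fun t => (β t.1 t.2.1 t.2.2 : k)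
  have hβ' : ∀ t, β' t ∈ C1 := fun t => (β t.1 t.2.1 t.2.2).2
  obtain ⟨k1, k2, k3⟩ := sol_spec q r p β' ⟨(c, e), hc, he, hce⟩
  refine ⟨fun i => ⟨(sol q r p β').1 i, hs1 q r p β' i hβ'⟩,
    fun j => ⟨(sol q r p β').2 j, hs2 q r p β' j hβ'⟩, ?_, ?_, ?_⟩
  · intro h
    apply k1
    funext i
    exact congrArg Subtype.val (congrFun h i)
  · intro h
    apply k2
    funext i
    exact congrArg Subtype.val (congrFun h i)
  · intro l
    apply Subtype.ext
    have h2 := k3 l
    have h3 := map_sum (algebraMap K k) (fun i => ∑ j, β l i j *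
      (⟨(sol q r p β').1 i, hs1 q r p β' i hβ'⟩ : K) *
      (⟨(sol q r p β').2 j, hs2 q r p β' j hβ'⟩ : K)) Finset.univ
    refine h3.trans (Eq.trans ?_ h2)
    refine Finset.sum_congr rfl fun i _ => ?_
    rw [map_sum]
    rfl

/-- coefficients of elements of the free algebra -/
theorem coeffs (w : FreeAlgebra k (Fin 2)) : ∃ s : Set k, s.Countable ∧
    ∀ K : Subfield k, s ⊆ K → ∀ (N : ℕ) (X Y : Matrix (Fin N) (Fin N) K),
      ∃ Z : Matrix (Fin N) (Fin N) K,
        FreeAlgebra.lift k ![mm K k X, mm K k Y] w = mm K k Z := by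
  induction w using FreeAlgebra.induction with
  | grade0 r =>
    refine ⟨{r}, Set.countable_singleton r, fun K hK N X Y => ⟨Matrix.scalar (Fin N) ⟨r, hK rfl⟩, ?_⟩⟩
    rw [AlgHom.commutes]
    ext i j
    rw [Matrix.algebraMap_matrix_apply]
    show _ = algebraMap K k (Matrix.scalar (Fin N) (⟨r, hK rfl⟩ : K) i j)
    rw [Matrix.scalar_apply, Matrix.diagonal_apply]
    by_cases h : i = j
    · rw [if_pos h, if_pos h]
      rfl
    · rw [if_neg h, if_neg h, map_zero]
  | grade1 x =>
    refine ⟨∅, Set.countable_empty, fun K hK N X Y => ⟨![X, Y] x, ?_⟩⟩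
    rw [FreeAlgebra.lift_ι_apply]
    fin_cases x
    · rfl
    · rfl
  | mul a b ha hb =>
    obtain ⟨s, hs, h⟩ := ha
    obtain ⟨s', hs', h'⟩ := hb
    refine ⟨s ∪ s', hs.union hs', fun K hK N X Y => ?_⟩
    obtain ⟨Z, hZ⟩ := h K (Set.subset_union_left.trans hK) N X Y
    obtain ⟨Z', hZ'⟩ := h' K (Set.subset_union_right.trans hK) N X Y
    exact ⟨Z * Z', by rw [map_mul, hZ, hZ', mm_mul]⟩
  | add a b ha hb =>
    obtain ⟨s, hs, h⟩ := ha
    obtain ⟨s', hs', h'⟩ := hb
    refine ⟨s ∪ s', hs.union hs', fun K hK N X Y => ?_⟩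
    obtain ⟨Z, hZ⟩ := h K (Set.subset_union_left.trans hK) N X Y
    obtain ⟨Z', hZ'⟩ := h' K (Set.subset_union_right.trans hK) N X Y
    exact ⟨Z + Z', by rw [map_add, hZ, hZ', mm_add]⟩

end

section
variable {k A : Type} [Field k] [Ring A] [Algebra k A] {r : ℕ} (b : Module.Basis (Fin r) k A)
  (K : Subfield k) (h1 : ∀ i, b.repr 1 i ∈ K) (h2 : ∀ i j l, b.repr (b i * b j) l ∈ K)

/-- the elements with coordinates in the subfield -/
def fA : Subring A where
  carrier := {a | ∀ i, b.repr a i ∈ K}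
  mul_mem' := by
    intro x y hx hy l
    rw [← b.sum_repr x, ← b.sum_repr y, Finset.sum_mul_sum, map_sum, Finset.sum_apply']
    refine sum_mem fun i _ => ?_
    rw [map_sum, Finset.sum_apply']
    refine sum_mem fun j _ => ?_
    rw [smul_mul_smul_comm, map_smul, Finsupp.smul_apply, smul_eq_mul]
    exact mul_mem (mul_mem (hx i) (hy j)) (h2 i j l)
  one_mem' := h1
  add_mem' := by
    intro x y hx hy i
    rw [map_add, Finsupp.add_apply]
    exact add_mem (hx i) (hy i)
  zero_mem' := by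
    intro i
    rw [map_zero, Finsupp.zero_apply]
    exact zero_mem K
  neg_mem' := by
    intro x hx i
    rw [map_neg, Finsupp.neg_apply]
    exact neg_mem (hx i)

theorem mem_fA (a : A) : a ∈ fA b K h1 h2 ↔ ∀ i, b.repr a i ∈ K := Iff.rfl

theorem smul_fA (x : K) (a : fA b K h1 h2) : (x : k) • (a : A) ∈ fA b K h1 h2 := by
  intro i
  rw [map_smul, Finsupp.smul_apply, smul_eq_mul]
  exact mul_mem x.2 (a.2 i)

/-- the structure map -/
def fAmap : K →+* fA b K h1 h2 where
  toFun x := ⟨algebraMap k A x, by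
    rw [Algebra.algebraMap_eq_smul_one]
    exact smul_fA b K h1 h2 x 1⟩
  map_one' := Subtype.ext (map_one (algebraMap k A))
  map_mul' x y := Subtype.ext (map_mul (algebraMap k A) (x : k) y)
  map_zero' := Subtype.ext (map_zero (algebraMap k A))
  map_add' x y := Subtype.ext (map_add (algebraMap k A) (x : k) y)

/-- the algebra structure -/
@[reducible] def fAalg : Algebra K (fA b K h1 h2) :=
  (fAmap b K h1 h2).toAlgebra' fun c x => Subtype.ext (Algebra.commutes (c : k) (x : A))

end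

theorem exists_form (k A : Type) [Field k] [Ring A] [Algebra k A] [Module.Finite k A] {n : ℕ}
    (φ : A → Matrix (Fin n) (Fin n) (FreeAlgebra k (Fin 2))) :
    ∃ (K A0 : Type) (_ : Field K) (_ : Algebra K k) (_ : Ring A0) (_ : Algebra K A0)
      (D : BC K k A0 A), Countable A0 ∧ D4 K k ∧
      ∀ (i : Fin D.r) (p q : Fin n) (N : ℕ) (X Y : Matrix (Fin N) (Fin N) K),
        ∃ Z : Matrix (Fin N) (Fin N) K,
          FreeAlgebra.lift k ![mm K k X, mm K k Y] (φ (D.b i) p q) = mm K k Z := by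
  classical
  let b := Module.finBasis k A
  have hc : ∀ w : FreeAlgebra k (Fin 2), ∃ s : Set k, s.Countable ∧
    ∀ K : Subfield k, s ⊆ K → ∀ (N : ℕ) (X Y : Matrix (Fin N) (Fin N) K),
      ∃ Z : Matrix (Fin N) (Fin N) K,
        FreeAlgebra.lift k ![mm K k X, mm K k Y] w = mm K k Z := coeffs
  choose sc hsc hsc2 using hc
  obtain ⟨K, hK, hKc, hD⟩ := exists_sub
    ((Set.range fun i => b.repr 1 i) ∪ (Set.range fun t : Fin (Module.finrank k A) ×
      Fin (Module.finrank k A) × Fin (Module.finrank k A) => b.repr (b t.1 * b t.2.1) t.2.2) ∪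
      ⋃ t : Fin (Module.finrank k A) × Fin n × Fin n, sc (φ (b t.1) t.2.1 t.2.2))
    (((Set.countable_range _).union (Set.countable_range _)).union
      (Set.countable_iUnion fun t => hsc _))
  have h1 : ∀ i, b.repr 1 i ∈ K := fun i => hK (Or.inl (Or.inl ⟨i, rfl⟩))
  have h2 : ∀ i j l, b.repr (b i * b j) l ∈ K :=
    fun i j l => hK (Or.inl (Or.inr ⟨(i, j, l), rfl⟩))
  have h3 : ∀ i p q, sc (φ (b i) p q) ⊆ K :=
    fun i p q x hx => hK (Or.inr (Set.mem_iUnion.2 ⟨(i, p, q), hx⟩))
  let iA : Algebra K (fA b K h1 h2) := fAalg b K h1 h2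
  have hsm : ∀ (x : K) (a : fA b K h1 h2), ((x • a : fA b K h1 h2) : A) = (x : k) • (a : A) := by
    intro x a
    rw [Algebra.smul_def]
    show algebraMap k A x * (a : A) = _
    rw [Algebra.smul_def]
  let e0 : fA b K h1 h2 →ₗ[K] (Fin (Module.finrank k A) → K) :=
    { toFun := fun a i => ⟨b.repr (a : A) i, a.2 i⟩
      map_add' := by
        intro x y
        funext i
        apply Subtype.ext
        show b.repr ((x : A) + y) i = b.repr (x : A) i + b.repr (y : A) i
        rw [map_add, Finsupp.add_apply]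
      map_smul' := by
        intro c x
        funext i
        apply Subtype.ext
        show b.repr ((c • x : fA b K h1 h2) : A) i = (c : k) * b.repr (x : A) i
        rw [hsm, map_smul, Finsupp.smul_apply, smul_eq_mul] }
  have he0 : Function.Bijective e0 := by
    constructor
    · intro x y h
      apply Subtype.ext
      apply b.repr.injective
      ext i
      exact congrArg Subtype.val (congrFun h i)
    · intro f
      have hrep : ∀ i, b.repr (∑ j, (f j : k) • b j) i = f i := by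
        intro i
        rw [Module.Basis.repr_sum_self]
      refine ⟨⟨∑ j, (f j : k) • b j, fun i => ?_⟩, ?_⟩
      · rw [hrep]
        exact (f i).2
      · funext i
        apply Subtype.ext
        exact hrep i
  let e := LinearEquiv.ofBijective e0 he0
  have hci : ∀ i, ((e.symm (Pi.single i 1) : fA b K h1 h2) : A) = b i := by
    intro i
    have hmem : b i ∈ fA b K h1 h2 := by
      intro j
      rw [Module.Basis.repr_self, Finsupp.single_apply]
      split_ifs
      · exact one_mem K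
      · exact zero_mem K
    have h4 : e.symm (Pi.single i 1) = (⟨b i, hmem⟩ : fA b K h1 h2) := by
      rw [LinearEquiv.symm_apply_eq]
      funext j
      apply Subtype.ext
      show _ = b.repr (b i) j
      rw [Module.Basis.repr_self, Finsupp.single_apply]
      by_cases h : j = i
      · subst h
        rw [Pi.single_eq_same, if_pos rfl]
        rfl
      · rw [Pi.single_eq_of_ne h, if_neg (fun h' => h h'.symm)]
        rfl
    rw [h4]
  let D : BC K k (fA b K h1 h2) A :=
    { r := Module.finrank k A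
      ι := (fA b K h1 h2).subtype
      c := Module.Basis.ofEquivFun e
      b := b
      hb := by
        intro i
        rw [Module.Basis.coe_ofEquivFun]
        exact (hci i).symm
      hι := fun x => rfl }
  refine ⟨K, fA b K h1 h2, inferInstance, inferInstance, inferInstance, iA, D, ?_, hD, ?_⟩
  · exact Function.Injective.countable e.injective
  · intro i p q N X Y
    exact hsc2 _ K (h3 i p q) N X Y

end Pool.Agent.W439
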