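import Mathlib
import Pool.Agent.W439.Base

set_option autoImplicit false

/-! The splitting property after extension of scalars. -/

namespace Pool.Agent.W439

section
variable {K k A0 A : Type} [Field K] [Field k] [Algebra K k] [Ring A0] [Algebra K A0]
    [Ring A] [Algebra k A] (D : BC K k A0 A)

theorem BC.eh_comp {V U W : Ob K A0} (h : V.M →ₗ[A0] U.M) (g : U.M →ₗ[A0] W.M)
    (x : (D.ex V).M) : D.eh (g ∘ₗ h) x = D.eh g (D.eh h x) := by
  rw [D.eh_spec, D.eh_spec g, D.eh_spec h]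
  have h1 : Ob.mat (g ∘ₗ h) = Ob.mat g * Ob.mat h := by
    ext i j
    show g (h (V.e j)) i = _
    rw [Ob.mat_mulVec g]
    rfl
  rw [h1, mm_mul]
  exact (Matrix.mulVec_mulVec _ _ _).symm

/-- expansion of a homomorphism -/
theorem BC.expand {V U : Ob K A0} (H : (D.ex V).M →ₗ[A] (D.ex U).M) :
    ∃ (m : ℕ) (s : Fin m → k) (l : Fin m → (k →ₗ[K] K)), LinearIndependent K s ∧
      (∀ x : V.M, H (D.up V x) = ∑ t, s t • D.up U (D.red (l t) H x)) ∧
      ∀ (x : V.M) (i : Fin U.d), H (D.up V x) i = ∑ t, l t (H (D.up V x) i) • s t := by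
  let S : Submodule K k := Submodule.span K
    (Set.range fun ij : Fin U.d × Fin V.d => H (D.up V (V.e ij.2)) ij.1)
  have : Module.Finite K S := FiniteDimensional.span_of_finite K (Set.finite_range _)
  have hS : ∀ (x : V.M) (i : Fin U.d), H (D.up V x) i ∈ S := by
    intro x i
    let f : V.M →ₗ[K] k :=
      { toFun := fun x => H (D.up V x) i
        map_add' := by
          intro x y
          rw [D.up_add, map_add]
          rfl
        map_smul' := by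
          intro c x
          rw [D.up_smul]
          have h1 := (H.restrictScalars k).map_smul (algebraMap K k c) (D.up V x)
          have h2 : H (algebraMap K k c • D.up V x) = algebraMap K k c • H (D.up V x) := h1
          rw [h2, RingHom.id_apply, Algebra.smul_def]
          rfl }
    have h1 : f x = ∑ j, x j • f (V.e j) := by
      conv_lhs => rw [Ob.sum_single V x, map_sum]
      exact Finset.sum_congr rfl fun j _ => map_smul f _ _
    show f x ∈ S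
    rw [h1]
    exact Submodule.sum_mem _ fun j _ => Submodule.smul_mem _ _
      (Submodule.subset_span ⟨(i, j), rfl⟩)
  obtain ⟨m, s, l, h1, h2⟩ := expan S
  refine ⟨m, s, l, h1, fun x => ?_, fun x i => h2 _ (hS x i)⟩
  funext i
  have h3 := h2 _ (hS x i)
  have h4 : (∑ t, s t • D.up U (D.red (l t) H x) : (D.ex U).M) i =
      ∑ t, s t * algebraMap K k (l t (H (D.up V x) i)) := by
    show (∑ t, s t • D.up U (D.red (l t) H x) : Fin U.d → k) i = _
    rw [Finset.sum_apply]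
    rfl
  rw [h4]
  refine h3.trans (Finset.sum_congr rfl fun t _ => ?_)
  rw [Algebra.smul_def, mul_comm]

theorem baseU (hD : D4 K k) (B : ∀ V : Ob K A0, Submodule K V.M)
    (B1 : ∀ (U V : Ob K A0) (h : U.M →ₗ[A0] V.M), ∀ x ∈ B U, h x ∈ B V)
    (B2 : ∀ (V : Ob K A0) (ζ : V.M →ₗ[K] K), (∃ x ∈ B V, ζ x ≠ 0) →
        ∃ (U0 U1 : Ob K A0) (g0 : U0.M →ₗ[A0] V.M) (g1 : U1.M →ₗ[A0] V.M),
          (∃ x ∈ B U0, ζ (g0 x) ≠ 0) ∧ (∃ x ∈ B U1, ζ (g1 x) ≠ 0) ∧
          ∀ (Y : Ob K A0) (k0 : Y.M →ₗ[A0] U0.M) (k1 : Y.M →ₗ[A0] U1.M),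
            (∀ x ∈ B Y, ζ (g0 (k0 x)) = ζ (g1 (k1 x))) → ∀ x ∈ B Y, ζ (g0 (k0 x)) = 0)
    (V : Ob K A0) (ζ : (D.ex V).M →ₗ[k] k) (hζ : ∃ x ∈ B V, ζ (D.up V x) ≠ 0) :
    ∃ (U0 U1 : Ob K A0) (g0 : U0.M →ₗ[A0] V.M) (g1 : U1.M →ₗ[A0] V.M),
      (∃ x ∈ B U0, ζ (D.up V (g0 x)) ≠ 0) ∧ (∃ x ∈ B U1, ζ (D.up V (g1 x)) ≠ 0) ∧
      ∀ (Y : Ob K A0) (H0 : (D.ex Y).M →ₗ[A] (D.ex U0).M) (H1 : (D.ex Y).M →ₗ[A] (D.ex U1).M),
        (∀ x ∈ B Y, ζ (D.eh g0 (H0 (D.up Y x))) = ζ (D.eh g1 (H1 (D.up Y x)))) →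
          ∀ x ∈ B Y, ζ (D.eh g0 (H0 (D.up Y x))) = 0 := by
  classical
  let Z : ∀ {V' : Ob K A0}, (V'.M →ₗ[A0] V.M) → (V'.M →ₗ[K] k) :=
    fun g => D.zf ζ ∘ₗ (g.restrictScalars K)
  have hZ : ∀ {V' : Ob K A0} (g : V'.M →ₗ[A0] V.M) (x : V'.M), Z g x = ζ (D.up V (g x)) :=
    fun g x => rfl
  have hex : ∃ d : ℕ, ∃ (V' : Ob K A0) (g : V'.M →ₗ[A0] V.M),
      (∃ x ∈ B V', Z g x ≠ 0) ∧ Module.finrank K ((B V').map (Z g)) = d := by
    obtain ⟨x, hx, hx2⟩ := hζ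
    exact ⟨_, V, LinearMap.id, ⟨x, hx, hx2⟩, rfl⟩
  obtain ⟨V', g, ⟨x0, hx0, hx0'⟩, hd⟩ := Nat.find_spec hex
  have hmin : ∀ (Y : Ob K A0) (h : Y.M →ₗ[A0] V'.M), (∀ x ∈ B Y, Z g (h x) = 0) ∨
      ∀ y ∈ (B V').map (Z g), ∃ x ∈ B Y, Z g (h x) = y := by
    intro Y h
    by_cases h0 : ∀ x ∈ B Y, Z g (h x) = 0
    · exact Or.inl h0
    right
    push Not at h0
    have h1 : Nat.find hex ≤ Module.finrank K ((B Y).map (Z (g ∘ₗ h))) :=
      Nat.find_min' hex ⟨Y, g ∘ₗ h, h0, rfl⟩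
    rw [← hd] at h1
    have h2 : (B Y).map (Z (g ∘ₗ h)) ≤ (B V').map (Z g) := by
      rintro _ ⟨x, hx, rfl⟩
      exact ⟨h x, B1 Y V' h x hx, rfl⟩
    have h3 := Submodule.eq_of_le_of_finrank_le h2 h1
    intro y hy
    rw [← h3] at hy
    obtain ⟨x, hx, rfl⟩ := hy
    exact ⟨x, hx, rfl⟩
  obtain ⟨ℓ, hℓ, -⟩ := Submodule.exists_le_ker_of_notMem (K := K) (p := (⊥ : Submodule K k))
    (v := Z g x0) (by rwa [Submodule.mem_bot])
  obtain ⟨U0, U1, g0, g1, ⟨y0, hy0, hy0'⟩, ⟨y1, hy1, hy1'⟩, hU⟩ := B2 V' (ℓ ∘ₗ Z g) ⟨x0, hx0, hℓ⟩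
  refine ⟨U0, U1, g ∘ₗ g0, g ∘ₗ g1, ⟨y0, hy0, ?_⟩, ⟨y1, hy1, ?_⟩, ?_⟩
  · intro h
    apply hy0'
    show ℓ (ζ (D.up V (g (g0 y0)))) = 0
    have h' : ζ (D.up V (g (g0 y0))) = 0 := h
    rw [h', map_zero]
  · intro h
    apply hy1'
    show ℓ (ζ (D.up V (g (g1 y1)))) = 0
    have h' : ζ (D.up V (g (g1 y1))) = 0 := h
    rw [h', map_zero]
  intro Y H0 H1 hH x hx
  -- the difference
  let G : (D.ex Y).M →ₗ[A] (D.ex V').M := D.eh g0 ∘ₗ H0 - D.eh g1 ∘ₗ H1
  have hG : ∀ x ∈ B Y, ζ (D.eh g (G (D.up Y x))) = 0 := by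
    intro x hx
    have h1 := hH x hx
    rw [D.eh_comp, D.eh_comp] at h1
    show ζ (D.eh g (D.eh g0 (H0 (D.up Y x)) - D.eh g1 (H1 (D.up Y x)))) = 0
    rw [map_sub, map_sub, h1, sub_self]
  have hsum : ∀ {W : Ob K A0} (m : ℕ) (s : Fin m → k) (y : Fin m → W.M)
      (f : W.M →ₗ[A0] V.M), ζ (D.eh f (∑ t, s t • D.up W (y t))) = ∑ t, s t * Z f (y t) := by
    intro W m s y f
    have h1 := map_sum (ζ ∘ₗ (D.eh f).restrictScalars k) (fun t => s t • D.up W (y t)) Finset.univ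
    refine h1.trans (Finset.sum_congr rfl fun t _ => ?_)
    have h2 := (ζ ∘ₗ (D.eh f).restrictScalars k).map_smul (s t) (D.up W (y t))
    refine h2.trans ?_
    rw [smul_eq_mul]
    congr 1
    show ζ (D.eh f (D.up W (y t))) = _
    rw [D.eh_up]
    rfl
  obtain ⟨m, s, l, hs, hs1, hs2⟩ := D.expand G
  have hfin : Module.Finite K ((B V').map (Z g)) := inferInstance
  let Tl : (k →ₗ[K] K) → (B Y →ₗ[K] (B V').map (Z g)) := fun la =>
    LinearMap.codRestrict ((B V').map (Z g))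
      ((Z g ∘ₗ (D.red la G).restrictScalars K) ∘ₗ (B Y).subtype)
      (fun x => ⟨D.red la G x.1, B1 _ _ _ _ x.2, rfl⟩)
  have hTl : ∀ la x, (Tl la x : k) = Z g (D.red la G x.1) := fun la x => rfl
  have hTl_add : ∀ a b, Tl (a + b) = Tl a + Tl b := by
    intro a b
    apply LinearMap.ext
    intro x
    apply Subtype.ext
    rw [LinearMap.add_apply, hTl]
    show _ = (Tl a x : k) + (Tl b x : k)
    rw [hTl, hTl, ← map_add]
    rfl
  have hTl_smul : ∀ (c : K) a, Tl (c • a) = c • Tl a := by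
    intro c a
    apply LinearMap.ext
    intro x
    apply Subtype.ext
    rw [LinearMap.smul_apply, hTl]
    show _ = c • (Tl a x : k)
    rw [hTl, ← map_smul]
    rfl
  have hTl_zero : Tl 0 = 0 := by
    have := hTl_smul 0 0
    rwa [zero_smul, zero_smul] at this
  have hT0 := lemX hD ((B V').map (Z g)).subtype (Submodule.injective_subtype _) s hs
    (fun t => Tl (l t)) (by
      intro x
      have h1 := hG x.1 x.2
      rw [hs1, hsum] at h1
      exact h1) (by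
      intro T' hT'
      have h1 : ∃ la, T' = Tl la := by
        induction hT' using Submodule.span_induction with
        | mem x hx =>
          obtain ⟨t, rfl⟩ := hx
          exact ⟨l t, rfl⟩
        | zero => exact ⟨0, hTl_zero.symm⟩
        | add x y _ _ hx hy =>
          obtain ⟨a, rfl⟩ := hx
          obtain ⟨b, rfl⟩ := hy
          exact ⟨a + b, (hTl_add a b).symm⟩
        | smul c x _ hx =>
          obtain ⟨a, rfl⟩ := hx
          exact ⟨c • a, (hTl_smul c a).symm⟩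
      obtain ⟨la, rfl⟩ := h1
      rcases hmin Y (D.red la G) with h | h
      · left
        apply LinearMap.ext
        intro x
        apply Subtype.ext
        rw [hTl]
        exact h x.1 x.2
      · right
        rintro ⟨y, hy⟩
        obtain ⟨x, hx, hxy⟩ := h y hy
        exact ⟨⟨x, hx⟩, Subtype.ext hxy⟩)
  have hkey : ∀ (la : k →ₗ[K] K), ∀ x ∈ B Y, Z g (D.red la G x) = 0 := by
    intro la x hx
    have h1 : D.red la G x = ∑ t, la (s t) • D.red (l t) G x := by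
      funext i
      have h3 : (∑ t, la (s t) • D.red (l t) G x : V'.M) i =
          ∑ t, la (s t) * l t (G (D.up Y x) i) := by
        show (∑ t, la (s t) • D.red (l t) G x : Fin V'.d → K) i = _
        rw [Finset.sum_apply]
        rfl
      rw [h3, D.red_apply]
      have h4 := congrArg la (hs2 x i)
      rw [map_sum] at h4
      refine h4.trans (Finset.sum_congr rfl fun t _ => ?_)
      rw [map_smul, smul_eq_mul, mul_comm]
    rw [h1, map_sum]
    refine Finset.sum_eq_zero fun t _ => ?_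
    rw [map_smul]
    have h5 : (Tl (l t) ⟨x, hx⟩ : k) = 0 := by
      rw [hT0 t]
      rfl
    rw [hTl] at h5
    rw [h5, smul_zero]
  have hred : ∀ (la : k →ₗ[K] K) (x : Y.M), D.red la G x =
      g0 (D.red la H0 x) - g1 (D.red la H1 x) := by
    intro la x
    rw [← D.red_eh, ← D.red_eh]
    funext i
    exact map_sub la (D.eh g0 (H0 (D.up Y x)) i) (D.eh g1 (H1 (D.up Y x)) i)
  have hz : ∀ (la : k →ₗ[K] K), ∀ x ∈ B Y, Z g (g0 (D.red la H0 x)) = 0 := by
    intro la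
    have h1 : ∀ x ∈ B Y, ℓ (Z g (g0 (D.red la H0 x))) = ℓ (Z g (g1 (D.red la H1 x))) := by
      intro x hx
      have h2 := hkey la x hx
      rw [hred, map_sub, sub_eq_zero] at h2
      rw [h2]
    have h2 := hU Y (D.red la H0) (D.red la H1) h1
    rcases hmin Y (g0 ∘ₗ D.red la H0) with h | h
    · exact h
    · exfalso
      obtain ⟨x, hx, hx2⟩ := h (Z g x0) ⟨x0, hx0, rfl⟩
      apply hℓ
      rw [← hx2]
      exact h2 x hx
  obtain ⟨m', s', l', -, hs1', -⟩ := D.expand (D.eh g0 ∘ₗ H0)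
  rw [D.eh_comp]
  have h1 := hs1' x
  rw [LinearMap.comp_apply] at h1
  rw [h1, hsum]
  refine Finset.sum_eq_zero fun t _ => ?_
  rw [D.red_eh, hz _ x hx, mul_zero]

end

end Pool.Agent.W439
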