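import Mathlib

set_option autoImplicit false

/-! The functor given by a matrix representation over the free algebra, and split maps. -/

namespace Pool.Agent.W439

section fitting
variable {k : Type} [Field k] {V : Type} [AddCommGroup V] [Module k V] [Module.Finite k V]

/-- only trivial idempotents commute with the family -/
def TrivId {ι : Type} (G : ι → Module.End k V) : Prop :=
  ∀ e : Module.End k V, e * e = e → (∀ i, e * G i = G i * e) → e = 0 ∨ e = 1

theorem fit {ι : Type} (G : ι → Module.End k V) (hG : TrivId G) (g : Module.End k V)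
    (hg : ∀ i, g * G i = G i * g) : IsUnit g ∨ IsNilpotent g := by
  obtain ⟨P, hP0, hP⟩ : ∃ P : Polynomial k, P ≠ 0 ∧ Polynomial.aeval g P = 0 :=
    ⟨minpoly k g, minpoly.ne_zero (Algebra.IsIntegral.isIntegral g), minpoly.aeval k g⟩
  obtain ⟨q, hq, hXq⟩ := Polynomial.exists_eq_pow_rootMultiplicity_mul_and_not_dvd P hP0 0
  rw [Polynomial.C_0, sub_zero] at hq hXq
  set s := Polynomial.rootMultiplicity 0 P with hs
  have hcop : IsCoprime (Polynomial.X ^ (s + 1) : Polynomial k) q :=
    IsCoprime.pow_left ((Polynomial.irreducible_X.coprime_iff_not_dvd).2 hXq)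
  obtain ⟨a, b, hab⟩ := hcop
  have hcomm : ∀ f : Polynomial k, ∀ i, Polynomial.aeval g f * G i = G i * Polynomial.aeval g f := by
    intro f i
    have h1 : Commute g (G i) := hg i
    have h2 : Commute (Polynomial.aeval g f) (G i) := by
      induction f using Polynomial.induction_on' with
      | add p q hp hq =>
        rw [map_add]
        exact hp.add_left hq
      | monomial m c =>
        rw [Polynomial.aeval_monomial]
        exact (Algebra.commute_algebraMap_left c _).mul_left (h1.pow_left m)
    exact h2
  have hz : Polynomial.aeval g (Polynomial.X ^ (s + 1) * q) = 0 := by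
    have : Polynomial.X ^ (s + 1) * q = Polynomial.X * P := by
      rw [pow_succ', mul_assoc, ← hq]
    rw [this, map_mul, hP, mul_zero]
  set e := Polynomial.aeval g (a * Polynomial.X ^ (s + 1)) with he
  have he1 : e + Polynomial.aeval g (b * q) = 1 := by
    rw [he, ← map_add, hab, map_one]
  have he2 : e * Polynomial.aeval g (b * q) = 0 := by
    rw [he, ← map_mul]
    have : a * Polynomial.X ^ (s + 1) * (b * q) = a * b * (Polynomial.X ^ (s + 1) * q) := by ring
    rw [this, map_mul, hz, mul_zero]
  have he3 : e * e = e := by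
    have h1 : e * (e + Polynomial.aeval g (b * q)) = e * 1 := by rw [he1]
    rw [mul_add, he2, add_zero, mul_one] at h1
    exact h1
  rcases hG e he3 (hcomm _) with h | h
  · right
    refine ⟨s + 1, ?_⟩
    rw [h, zero_add, map_mul] at he1
    have h1 : g ^ (s + 1) = Polynomial.aeval g (Polynomial.X ^ (s + 1) : Polynomial k) := by
      rw [map_pow, Polynomial.aeval_X]
    have h2 : Polynomial.aeval g (Polynomial.X ^ (s + 1) * (b * q)) =
        Polynomial.aeval g (Polynomial.X ^ (s + 1) : Polynomial k) := by
      rw [map_mul, map_mul (Polynomial.aeval g) b q, he1, mul_one]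
    rw [h1, ← h2]
    have : Polynomial.X ^ (s + 1) * (b * q) = b * (Polynomial.X ^ (s + 1) * q) := by ring
    rw [this, map_mul, hz, mul_zero]
  · left
    have h1 : Polynomial.aeval g (a * Polynomial.X ^ s) * g = 1 := by
      rw [← h, he]
      conv_lhs => rw [← Polynomial.aeval_X (R := k) g, Polynomial.aeval_X (R := k) g]
      rw [pow_succ, ← mul_assoc, map_mul (Polynomial.aeval g) (a * Polynomial.X ^ s),
        Polynomial.aeval_X]
    have h2 : g * Polynomial.aeval g (a * Polynomial.X ^ s) = 1 := by
      have h3 : ∀ f : Polynomial k, g * Polynomial.aeval g f = Polynomial.aeval g f * g := by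
        intro f
        have e1 : Polynomial.aeval g (Polynomial.X * f) = g * Polynomial.aeval g f := by
          rw [map_mul, Polynomial.aeval_X]
        have e2 : Polynomial.aeval g (f * Polynomial.X) = Polynomial.aeval g f * g := by
          rw [map_mul, Polynomial.aeval_X]
        rw [← e1, ← e2, mul_comm]
      rw [h3, h1]
    exact ⟨⟨g, _, h2, h1⟩, rfl⟩

theorem loc {ι : Type} (G : ι → Module.End k V) (hG : TrivId G) (g1 g2 : Module.End k V)
    (h1 : ∀ i, g1 * G i = G i * g1) (h2 : ∀ i, g2 * G i = G i * g2) (hu : IsUnit (g1 + g2)) :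
    IsUnit g1 ∨ IsUnit g2 := by
  obtain ⟨v, hv⟩ := hu
  have hvG : ∀ i, (v : Module.End k V) * G i = G i * v := by
    intro i
    rw [hv, add_mul, mul_add, h1, h2]
  have hvG' : ∀ i, (↑v⁻¹ : Module.End k V) * G i = G i * ↑v⁻¹ := by
    intro i
    have h3 : Commute (v : Module.End k V) (G i) := hvG i
    exact h3.units_inv_left
  rcases fit G hG ((↑v⁻¹ : Module.End k V) * g1) (by
    intro i
    rw [mul_assoc, h1, ← mul_assoc, hvG', mul_assoc]) with h | h
  · left
    have : g1 = (v : Module.End k V) * ((↑v⁻¹ : Module.End k V) * g1) := by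
      rw [← mul_assoc, Units.mul_inv, one_mul]
    rw [this]
    exact v.isUnit.mul h
  · right
    have : g2 = (v : Module.End k V) * (1 - (↑v⁻¹ : Module.End k V) * g1) := by
      rw [mul_sub, mul_one, ← mul_assoc, Units.mul_inv, one_mul, hv]
      abel
    rw [this]
    exact v.isUnit.mul h.isUnit_one_sub

end fitting

end Pool.Agent.W439
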