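import Mathlib
import Pool.Agent.W439.Wild

set_option autoImplicit false

/-! The functor given by a matrix representation over the free algebra, and split maps. -/

namespace Pool.Agent.W439

section functor
variable {k A : Type} [Field k] [Ring A] [Algebra k A] {n : ℕ}
  (φ : A →ₐ[k] Matrix (Fin n) (Fin n) (FreeAlgebra k (Fin 2)))

/-- the action of `A` on `M^n` -/
noncomputable def Fa {M : Type} [AddCommGroup M] [Module k M] (X Y : Module.End k M) (a : A) :
    Module.End k (Fin n → M) :=
  LinearMap.pi fun p => ∑ q, (FreeAlgebra.lift k ![X, Y] (φ a p q)) ∘ₗ LinearMap.proj q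

theorem Fa_apply {M : Type} [AddCommGroup M] [Module k M] (X Y : Module.End k M) (a : A)
    (f : Fin n → M) (p : Fin n) :
    Fa φ X Y a f p = ∑ q, FreeAlgebra.lift k ![X, Y] (φ a p q) (f q) := by
  unfold Fa
  rw [LinearMap.pi_apply, LinearMap.sum_apply]
  rfl

theorem lift_nat {M M' : Type} [AddCommGroup M] [Module k M] [AddCommGroup M'] [Module k M']
    (X Y : Module.End k M) (X' Y' : Module.End k M') (g : M →ₗ[k] M')
    (hX : ∀ m, g (X m) = X' (g m)) (hY : ∀ m, g (Y m) = Y' (g m)) (w : FreeAlgebra k (Fin 2)) :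
    ∀ m, g (FreeAlgebra.lift k ![X, Y] w m) = FreeAlgebra.lift k ![X', Y'] w (g m) := by
  induction w using FreeAlgebra.induction with
  | grade0 r =>
    intro m
    rw [AlgHom.commutes, AlgHom.commutes, Module.algebraMap_end_apply,
      Module.algebraMap_end_apply, map_smul]
  | grade1 x =>
    intro m
    rw [FreeAlgebra.lift_ι_apply, FreeAlgebra.lift_ι_apply]
    fin_cases x
    · exact hX m
    · exact hY m
  | mul a b ha hb =>
    intro m
    rw [map_mul, map_mul, Module.End.mul_apply, Module.End.mul_apply, ha, hb]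
  | add a b ha hb =>
    intro m
    rw [map_add, map_add, LinearMap.add_apply, LinearMap.add_apply, map_add, ha, hb]

theorem Fa_nat {M M' : Type} [AddCommGroup M] [Module k M] [AddCommGroup M'] [Module k M']
    (X Y : Module.End k M) (X' Y' : Module.End k M') (g : M →ₗ[k] M')
    (hX : ∀ m, g (X m) = X' (g m)) (hY : ∀ m, g (Y m) = Y' (g m)) (a : A) (f : Fin n → M) :
    (fun p => g (Fa φ X Y a f p)) = Fa φ X' Y' a (fun p => g (f p)) := by
  funext p
  rw [Fa_apply, Fa_apply, map_sum]
  exact Finset.sum_congr rfl fun q _ => lift_nat X Y X' Y' g hX hY _ _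

/-- the functor preserves indecomposability -/
def PresInd : Prop :=
  ∀ (m : ℕ) (X Y : Matrix (Fin m) (Fin m) k),
    (0 < m ∧ ∀ E : Matrix (Fin m) (Fin m) k,
      E * E = E → E * X = X * E → E * Y = Y * E → E = 0 ∨ E = 1) →
    (Nonempty (Fin n × Fin m) ∧
      ∀ E : Matrix (Fin n × Fin m) (Fin n × Fin m) k, E * E = E →
        (∀ a : A, E * Matrix.of (fun (p : Fin n × Fin m) (q : Fin n × Fin m) =>
              FreeAlgebra.lift k ![X, Y] (φ a p.1 q.1) p.2 q.2) =
            Matrix.of (fun (p : Fin n × Fin m) (q : Fin n × Fin m) =>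
              FreeAlgebra.lift k ![X, Y] (φ a p.1 q.1) p.2 q.2) * E) →
        E = 0 ∨ E = 1)

/-- the pair of operators is indecomposable -/
def Ind2 {M : Type} [AddCommGroup M] [Module k M] (X Y : Module.End k M) : Prop :=
  Nontrivial M ∧ ∀ e : Module.End k M, e * e = e → e * X = X * e → e * Y = Y * e → e = 0 ∨ e = 1

theorem PresInd.pos (h : PresInd φ) : 0 < n := by
  obtain ⟨⟨p⟩, -⟩ := h 1 0 0 ⟨one_pos, by
    intro E hE _ _
    have h1 : E 0 0 * E 0 0 = E 0 0 := by
      have := congrFun (congrFun hE 0) 0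
      rwa [Matrix.mul_apply, Finset.sum_eq_single 0 (fun b _ hb =>
        absurd (Subsingleton.elim b 0) hb) (fun h => absurd (Finset.mem_univ _) h)] at this
    have h2 : E 0 0 = 0 ∨ E 0 0 = 1 := by
      have h3 : E 0 0 * (E 0 0 - 1) = 0 := by rw [mul_sub, h1, mul_one, sub_self]
      rcases mul_eq_zero.1 h3 with h | h
      · exact Or.inl h
      · exact Or.inr (sub_eq_zero.1 h)
    rcases h2 with h | h
    · left
      ext i j
      rw [Subsingleton.elim i 0, Subsingleton.elim j 0, h]
      rfl
    · right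
      ext i j
      rw [Subsingleton.elim i 0, Subsingleton.elim j 0, h]
      rfl⟩
  exact p.1.pos

theorem PresInd.triv (h : PresInd φ) {M : Type} [AddCommGroup M] [Module k M] [Module.Finite k M]
    (X Y : Module.End k M) (hM : Ind2 X Y) : TrivId (Fa φ X Y) := by
  classical
  have := hM.1
  let b := Module.finBasis k M
  let T := LinearMap.toMatrixAlgEquiv b
  obtain ⟨-, h2⟩ := h (Module.finrank k M) (T X) (T Y) ⟨Module.finrank_pos, by
    intro E h1 h2 h3
    rcases hM.2 (T.symm E) (by rw [← map_mul, h1]) (by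
      apply T.injective
      rw [map_mul, map_mul, AlgEquiv.apply_symm_apply, h2]) (by
      apply T.injective
      rw [map_mul, map_mul, AlgEquiv.apply_symm_apply, h3]) with h | h
    · left
      rw [← T.apply_symm_apply E, h, map_zero]
    · right
      rw [← T.apply_symm_apply E, h, map_one]⟩
  let BB : Module.Basis (Fin n × Fin (Module.finrank k M)) k (Fin n → M) :=
    (Pi.basis fun _ : Fin n => b).reindex (Equiv.sigmaEquivProd _ _)
  let T2 := LinearMap.toMatrixAlgEquiv BB
  have hT2 : ∀ a, T2 (Fa φ X Y a) = Matrix.of (fun (p : Fin n × Fin (Module.finrank k M))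
      (q : Fin n × Fin (Module.finrank k M)) =>
        FreeAlgebra.lift k ![T X, T Y] (φ a p.1 q.1) p.2 q.2) := by
    intro a
    ext ⟨p, i⟩ ⟨q, j⟩
    rw [Matrix.of_apply]
    have e1 : T2 (Fa φ X Y a) (p, i) (q, j) =
        b.repr (FreeAlgebra.lift k ![X, Y] (φ a p q) (b j)) i := by
      show LinearMap.toMatrixAlgEquiv BB (Fa φ X Y a) (p, i) (q, j) = _
      rw [LinearMap.toMatrixAlgEquiv_apply]
      show (BB.repr (Fa φ X Y a (BB (q, j)))) (p, i) = _
      have e2 : BB (q, j) = Pi.single q (b j) := by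
        show (Module.Basis.reindex _ _) _ = _
        rw [Module.Basis.reindex_apply, Pi.basis_apply]
        rfl
      have e3 : ∀ x, BB.repr x (p, i) = b.repr (x p) i := by
        intro x
        show ((Module.Basis.reindex _ _).repr x) _ = _
        rw [Module.Basis.repr_reindex_apply, Pi.basis_repr]
        rfl
      rw [e2, e3, Fa_apply, Finset.sum_eq_single q]
      · rw [Pi.single_eq_same]
      · intro t _ ht
        rw [Pi.single_eq_of_ne ht, map_zero]
      · intro h
        exact absurd (Finset.mem_univ _) h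
    rw [e1]
    have e4 : ∀ w : FreeAlgebra k (Fin 2), T (FreeAlgebra.lift k ![X, Y] w) =
        FreeAlgebra.lift k ![T X, T Y] w := by
      intro w
      have : T.toAlgHom.comp (FreeAlgebra.lift k ![X, Y]) = FreeAlgebra.lift k ![T X, T Y] := by
        apply FreeAlgebra.hom_ext
        funext x
        fin_cases x
        · simp
        · simp
      exact congrArg (fun f => f w) this
    rw [← e4]
    show _ = LinearMap.toMatrixAlgEquiv b _ i j
    rw [LinearMap.toMatrixAlgEquiv_apply]
  intro e he hc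
  rcases h2 (T2 e) (by rw [← map_mul, he]) (by
    intro a
    rw [← hT2, ← map_mul, ← map_mul, hc a]) with h | h
  · left
    exact (map_eq_zero_iff T2 T2.injective).1 h
  · right
    apply T2.injective
    rw [h, map_one]

/-- a map that becomes split is split -/
theorem PresInd.split (hφ : PresInd φ) {M Q : Type} [AddCommGroup M] [Module k M]
    [Module.Finite k M] [AddCommGroup Q] [Module k Q] [Module.Finite k Q]
    (X Y : Module.End k M) (hM : Ind2 X Y) (X' Y' : Module.End k Q) (h : M →ₗ[k] Q)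
    (hX : ∀ m, h (X m) = X' (h m)) (hY : ∀ m, h (Y m) = Y' (h m))
    (u : (Fin n → Q) →ₗ[k] (Fin n → M)) (hu : ∀ a f, u (Fa φ X' Y' a f) = Fa φ X Y a (u f))
    (huh : ∀ f : Fin n → M, u (fun p => h (f p)) = f) :
    ∃ s : Q →ₗ[k] M, (∀ m, s (X' m) = X (s m)) ∧ (∀ m, s (Y' m) = Y (s m)) ∧
      ∀ m, s (h m) = m := by
  classical
  have := hM.1
  have hn : 0 < n := hφ.pos
  have : Nonempty (Fin n) := ⟨⟨0, hn⟩⟩
  have hG := hφ.triv φ X Y hM
  -- the componentwise map
  let Fm : ∀ {N N' : Type} [AddCommGroup N] [Module k N] [AddCommGroup N'] [Module k N']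
    (g : N →ₗ[k] N'), (Fin n → N) →ₗ[k] (Fin n → N') := fun g =>
      LinearMap.pi fun p => g ∘ₗ LinearMap.proj p
  let c : Module.End k Q → Module.End k (Fin n → M) := fun e => u ∘ₗ Fm (e ∘ₗ h)
  have hc : ∀ e f, c e f = u (fun p => e (h (f p))) := fun e f => rfl
  have hcadd : ∀ e e', c (e + e') = c e + c e' := by
    intro e e'
    apply LinearMap.ext
    intro f
    rw [LinearMap.add_apply, hc, hc, hc, ← map_add]
    rfl
  have hccomm : ∀ e : Module.End k Q, (∀ m, e (X' m) = X' (e m)) → (∀ m, e (Y' m) = Y' (e m)) →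
      ∀ a, c e * Fa φ X Y a = Fa φ X Y a * c e := by
    intro e e1 e2 a
    apply LinearMap.ext
    intro f
    rw [Module.End.mul_apply, Module.End.mul_apply, hc, hc, ← hu]
    congr 1
    exact Fa_nat φ X Y X' Y' (e ∘ₗ h) (fun m => by
      rw [LinearMap.comp_apply, LinearMap.comp_apply, hX, e1]) (fun m => by
      rw [LinearMap.comp_apply, LinearMap.comp_apply, hY, e2]) a f
  -- minimal idempotent
  have hex : ∃ d : ℕ, ∃ e : Module.End k Q, (∀ m, e (e m) = e m) ∧ (∀ m, e (X' m) = X' (e m)) ∧
      (∀ m, e (Y' m) = Y' (e m)) ∧ IsUnit (c e) ∧ Module.finrank k (LinearMap.range e) = d := by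
    refine ⟨_, 1, fun m => rfl, fun m => rfl, fun m => rfl, ?_, rfl⟩
    have : c 1 = 1 := by
      apply LinearMap.ext
      intro f
      exact huh f
    rw [this]
    exact isUnit_one
  obtain ⟨e, e1, e2, e3, e4, e5⟩ := Nat.find_spec hex
  have hmin : ∀ e' : Module.End k Q, (∀ m, e' (e' m) = e' m) → (∀ m, e' (X' m) = X' (e' m)) →
      (∀ m, e' (Y' m) = Y' (e' m)) → IsUnit (c e') →
      Module.finrank k (LinearMap.range e) ≤ Module.finrank k (LinearMap.range e') := by
    intro e' f1 f2 f3 f4
    rw [e5]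
    exact Nat.find_min' hex ⟨e', f1, f2, f3, f4, rfl⟩
  -- the image
  let XQ : Module.End k (LinearMap.range e) := X'.restrict (by
    rintro _ ⟨m, rfl⟩
    exact ⟨X' m, e2 m⟩)
  let YQ : Module.End k (LinearMap.range e) := Y'.restrict (by
    rintro _ ⟨m, rfl⟩
    exact ⟨Y' m, e3 m⟩)
  let pr : Q →ₗ[k] LinearMap.range e := e.rangeRestrict
  let inc : LinearMap.range e →ₗ[k] Q := (LinearMap.range e).subtype
  have hpi : ∀ x, pr (inc x) = x := by
    rintro ⟨x, m, rfl⟩
    apply Subtype.ext
    exact e1 m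
  have hip : ∀ x, inc (pr x) = e x := fun x => rfl
  have hprX : ∀ m, pr (X' m) = XQ (pr m) := fun m => Subtype.ext (e2 m)
  have hprY : ∀ m, pr (Y' m) = YQ (pr m) := fun m => Subtype.ext (e3 m)
  have hincX : ∀ m, inc (XQ m) = X' (inc m) := fun m => rfl
  have hincY : ∀ m, inc (YQ m) = Y' (inc m) := fun m => rfl
  have hce : IsUnit (c e) := e4
  have hc0 : c e ≠ 0 := by
    intro h0
    rw [h0] at hce
    have : Nontrivial (Fin n → M) := inferInstance
    exact not_isUnit_zero hce
  have hsurj : ∀ e' : Module.End k (LinearMap.range e), (∀ m, e' (e' m) = e' m) →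
      (∀ m, e' (XQ m) = XQ (e' m)) → (∀ m, e' (YQ m) = YQ (e' m)) →
      IsUnit (c (inc ∘ₗ e' ∘ₗ pr)) → e' = 1 := by
    intro e' f1 f2 f3 f4
    have g1 := hmin (inc ∘ₗ e' ∘ₗ pr) (fun m => by
        simp only [LinearMap.comp_apply]
        rw [hpi, f1]) (fun m => by
        simp only [LinearMap.comp_apply]
        rw [hprX, f2, hincX]) (fun m => by
        simp only [LinearMap.comp_apply]
        rw [hprY, f3, hincY]) f4
    have g2 : LinearMap.range (inc ∘ₗ e' ∘ₗ pr) ≤ LinearMap.range e := by
      rintro _ ⟨m, rfl⟩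
      exact (e' (pr m)).2
    have g3 : LinearMap.range (inc ∘ₗ e' ∘ₗ pr) = LinearMap.range e :=
      Submodule.eq_of_le_of_finrank_le g2 g1
    apply LinearMap.ext
    intro x
    have g4 : (x : Q) ∈ LinearMap.range (inc ∘ₗ e' ∘ₗ pr) := by
      rw [g3]
      exact x.2
    obtain ⟨y, hy⟩ := g4
    have g5 : x = e' (pr y) := Subtype.ext hy.symm
    rw [Module.End.one_apply, g5, f1]
  have hcsplit : ∀ e' : Module.End k (LinearMap.range e),
      c (inc ∘ₗ e' ∘ₗ pr) + c (inc ∘ₗ (1 - e') ∘ₗ pr) = c e := by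
    intro e'
    rw [← hcadd]
    congr 1
    apply LinearMap.ext
    intro m
    simp only [LinearMap.add_apply, LinearMap.comp_apply, LinearMap.sub_apply,
      Module.End.one_apply, map_sub]
    rw [hip, add_sub_cancel]
  have hInd : Ind2 XQ YQ := by
    refine ⟨?_, ?_⟩
    · by_contra hnt
      rw [not_nontrivial_iff_subsingleton] at hnt
      apply hc0
      apply LinearMap.ext
      intro f
      rw [hc]
      have : (fun p => e (h (f p))) = (0 : Fin n → Q) := by
        funext p
        have := Subsingleton.elim (pr (h (f p))) 0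
        exact congrArg Subtype.val this
      rw [this, map_zero]
      rfl
    · intro e' f1 f2 f3
      have f1' : ∀ m, e' (e' m) = e' m := fun m => congrArg (fun g => g m) f1
      have f2' : ∀ m, e' (XQ m) = XQ (e' m) := fun m => congrArg (fun g => g m) f2
      have f3' : ∀ m, e' (YQ m) = YQ (e' m) := fun m => congrArg (fun g => g m) f3
      have hcc : ∀ e' : Module.End k (LinearMap.range e), (∀ m, e' (XQ m) = XQ (e' m)) →
          (∀ m, e' (YQ m) = YQ (e' m)) →
          ∀ a, c (inc ∘ₗ e' ∘ₗ pr) * Fa φ X Y a = Fa φ X Y a * c (inc ∘ₗ e' ∘ₗ pr) := by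
        intro e' f2 f3
        refine hccomm _ (fun m => ?_) (fun m => ?_)
        · simp only [LinearMap.comp_apply]
          rw [hprX, f2, hincX]
        · simp only [LinearMap.comp_apply]
          rw [hprY, f3, hincY]
      have k1 : ∀ m, (1 - e') ((1 - e') m) = (1 - e') m := by
        intro m
        simp only [LinearMap.sub_apply, Module.End.one_apply, map_sub]
        rw [f1']
        abel
      have k2 : ∀ m, (1 - e') (XQ m) = XQ ((1 - e') m) := by
        intro m
        simp only [LinearMap.sub_apply, Module.End.one_apply, map_sub]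
        rw [f2']
      have k3 : ∀ m, (1 - e') (YQ m) = YQ ((1 - e') m) := by
        intro m
        simp only [LinearMap.sub_apply, Module.End.one_apply, map_sub]
        rw [f3']
      rcases loc _ hG _ _ (hcc e' f2' f3') (hcc (1 - e') k2 k3) (by rw [hcsplit]; exact hce)
        with h | h
      · right
        exact hsurj e' f1' f2' f3' h
      · left
        have := hsurj (1 - e') k1 k2 k3 h
        exact sub_eq_self.1 this
  have hGQ := hφ.triv φ XQ YQ hInd
  -- the maps
  let al : (Fin n → M) →ₗ[k] (Fin n → LinearMap.range e) := Fm (pr ∘ₗ h)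
  let be : (Fin n → LinearMap.range e) →ₗ[k] (Fin n → M) := u ∘ₗ Fm inc
  have hba : ∀ f, be (al f) = c e f := fun f => rfl
  obtain ⟨v, hv⟩ := hce
  have hvG : ∀ a, (↑v⁻¹ : Module.End k (Fin n → M)) * Fa φ X Y a = Fa φ X Y a * ↑v⁻¹ := by
    intro a
    have h3 : Commute (v : Module.End k (Fin n → M)) (Fa φ X Y a) := by
      rw [hv]
      exact hccomm e e2 e3 a
    exact h3.units_inv_left
  have hvv : ∀ f, (↑v⁻¹ : Module.End k (Fin n → M)) (c e f) = f := by
    intro f
    rw [← hv, ← Module.End.mul_apply, Units.inv_mul, Module.End.one_apply]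
  let id0 : Module.End k (Fin n → LinearMap.range e) := al ∘ₗ (↑v⁻¹ : Module.End k (Fin n → M)) ∘ₗ be
  have halG : ∀ a f, al (Fa φ X Y a f) = Fa φ XQ YQ a (al f) := fun a f =>
    Fa_nat φ X Y XQ YQ (pr ∘ₗ h) (fun m => by
      rw [LinearMap.comp_apply, LinearMap.comp_apply, hX, hprX]) (fun m => by
      rw [LinearMap.comp_apply, LinearMap.comp_apply, hY, hprY]) a f
  have hbeG : ∀ a f, be (Fa φ XQ YQ a f) = Fa φ X Y a (be f) := by
    intro a f
    show u (Fm inc (Fa φ XQ YQ a f)) = Fa φ X Y a (u (Fm inc f))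
    rw [← hu]
    congr 1
    exact Fa_nat φ XQ YQ X' Y' inc hincX hincY a f
  have hid : id0 = 0 ∨ id0 = 1 := by
    apply hGQ
    · apply LinearMap.ext
      intro f
      show al ((↑v⁻¹ : Module.End k (Fin n → M)) (be (al ((↑v⁻¹ : Module.End k (Fin n → M))
        (be f))))) = al ((↑v⁻¹ : Module.End k (Fin n → M)) (be f))
      rw [hba, hvv]
    · intro a
      apply LinearMap.ext
      intro f
      show al ((↑v⁻¹ : Module.End k (Fin n → M)) (be (Fa φ XQ YQ a f))) =
        Fa φ XQ YQ a (al ((↑v⁻¹ : Module.End k (Fin n → M)) (be f)))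
      rw [hbeG, ← halG]
      congr 1
      exact congrArg (fun g : Module.End k (Fin n → M) => g (be f)) (hvG a)
  have hid1 : id0 = 1 := by
    rcases hid with h0 | h0
    · exfalso
      apply hc0
      apply LinearMap.ext
      intro f
      have h1 : id0 (al f) = 0 := by rw [h0]; rfl
      have h2 : al ((↑v⁻¹ : Module.End k (Fin n → M)) (be (al f))) = 0 := h1
      rw [hba, hvv] at h2
      rw [← hba, h2, map_zero]
      rfl
    · exact h0
  have hbij : Function.Bijective (pr ∘ₗ h) := by
    constructor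
    · rw [injective_iff_map_eq_zero]
      intro m hm
      have h1 : al (fun _ => m) = 0 := by
        funext p
        exact hm
      have h2 := hvv (fun _ => m)
      rw [← hba, h1, map_zero, map_zero] at h2
      exact (congrFun h2 ⟨0, hn⟩).symm
    · intro x
      have h1 : id0 (fun _ => x) = fun _ => x := by rw [hid1]; rfl
      exact ⟨_, congrFun h1 ⟨0, hn⟩⟩
  let E := LinearEquiv.ofBijective (pr ∘ₗ h) hbij
  have hE : ∀ m, E m = pr (h m) := fun m => rfl
  refine ⟨E.symm.toLinearMap ∘ₗ pr, fun m => ?_, fun m => ?_, fun m => ?_⟩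
  · show E.symm (pr (X' m)) = X (E.symm (pr m))
    rw [LinearEquiv.symm_apply_eq, hE, hX, hprX, hprX, ← hE, LinearEquiv.apply_symm_apply]
  · show E.symm (pr (Y' m)) = Y (E.symm (pr m))
    rw [LinearEquiv.symm_apply_eq, hE, hY, hprY, hprY, ← hE, LinearEquiv.apply_symm_apply]
  · show E.symm (pr (h m)) = m
    rw [LinearEquiv.symm_apply_eq, hE]

end functor

end Pool.Agent.W439
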