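import Mathlib
import Pool.Agent.W439.Wild2

set_option autoImplicit false

/-! The pushout argument and the chain modules. -/

namespace Pool.Agent.W439

section
variable {k A : Type} [Field k] [Ring A] [Algebra k A] {n : ℕ}
  (φ : A →ₐ[k] Matrix (Fin n) (Fin n) (FreeAlgebra k (Fin 2)))

theorem PresInd.push (hφ : PresInd φ) {M P : Type} [AddCommGroup M] [Module k M]
    [Module.Finite k M] [AddCommGroup P] [Module k P] [Module.Finite k P]
    (X Y : Module.End k M) (hM : Ind2 X Y) (X' Y' : Module.End k P) (m0 : M) (p0 : P)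
    (hX0 : X m0 = 0) (hY0 : Y m0 = 0) (hX0' : X' p0 = 0) (hY0' : Y' p0 = 0)
    (u : (Fin n → P) →ₗ[k] (Fin n → M)) (hu : ∀ a f, u (Fa φ X' Y' a f) = Fa φ X Y a (u f))
    (huh : ∀ p, u (Pi.single p p0) = Pi.single p m0) :
    ∃ s : P →ₗ[k] M, (∀ m, s (X' m) = X (s m)) ∧ (∀ m, s (Y' m) = Y (s m)) ∧ s p0 = m0 := by
  classical
  -- the product and the line
  let XX : Module.End k (M × P) := X.prodMap X'
  let YY : Module.End k (M × P) := Y.prodMap Y'
  let ℓ : Submodule k (M × P) := Submodule.span k {(m0, -p0)}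
  have hℓX : ℓ ≤ ℓ.comap XX := by
    rw [Submodule.span_singleton_le_iff_mem, Submodule.mem_comap]
    have : XX (m0, -p0) = 0 := by
      show (X m0, X' (-p0)) = 0
      rw [map_neg, hX0, hX0', neg_zero]
      rfl
    rw [this]
    exact zero_mem _
  have hℓY : ℓ ≤ ℓ.comap YY := by
    rw [Submodule.span_singleton_le_iff_mem, Submodule.mem_comap]
    have : YY (m0, -p0) = 0 := by
      show (Y m0, Y' (-p0)) = 0
      rw [map_neg, hY0, hY0', neg_zero]
      rfl
    rw [this]
    exact zero_mem _
  let XQ : Module.End k ((M × P) ⧸ ℓ) := ℓ.mapQ ℓ XX hℓX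
  let YQ : Module.End k ((M × P) ⧸ ℓ) := ℓ.mapQ ℓ YY hℓY
  let π : (M × P) →ₗ[k] ((M × P) ⧸ ℓ) := ℓ.mkQ
  have hπX : ∀ m, π (XX m) = XQ (π m) := fun m => rfl
  have hπY : ∀ m, π (YY m) = YQ (π m) := fun m => rfl
  let ut : (Fin n → M × P) →ₗ[k] (Fin n → M) :=
    (LinearMap.pi fun p => LinearMap.fst k M P ∘ₗ LinearMap.proj p) +
      u ∘ₗ (LinearMap.pi fun p => LinearMap.snd k M P ∘ₗ LinearMap.proj p)
  have hut : ∀ f, ut f = (fun p => (f p).1) + u (fun p => (f p).2) := fun f => rfl
  have hutG : ∀ a f, ut (Fa φ XX YY a f) = Fa φ X Y a (ut f) := by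
    intro a f
    rw [hut, hut, map_add, ← hu]
    congr 1
    · exact Fa_nat φ XX YY X Y (LinearMap.fst k M P) (fun m => rfl) (fun m => rfl) a f
    · congr 1
      exact Fa_nat φ XX YY X' Y' (LinearMap.snd k M P) (fun m => rfl) (fun m => rfl) a f
  let rp : Fin n → ((M × P) ⧸ ℓ) →ₗ[k] (Fin n → M) := fun p =>
    ℓ.liftQ (ut ∘ₗ LinearMap.single k (fun _ => M × P) p) (by
      rw [Submodule.span_singleton_le_iff_mem, LinearMap.mem_ker]
      show ut (Pi.single p (m0, -p0)) = 0
      rw [hut]
      have e1 : (fun q => ((Pi.single p (m0, -p0) : Fin n → M × P) q).1) = Pi.single p m0 := by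
        funext q
        by_cases hq : q = p
        · subst hq
          rw [Pi.single_eq_same, Pi.single_eq_same]
        · rw [Pi.single_eq_of_ne hq, Pi.single_eq_of_ne hq]
          rfl
      have e2 : (fun q => ((Pi.single p (m0, -p0) : Fin n → M × P) q).2) =
          - (Pi.single p p0 : Fin n → P) := by
        funext q
        rw [Pi.neg_apply]
        by_cases hq : q = p
        · subst hq
          rw [Pi.single_eq_same, Pi.single_eq_same]
        · rw [Pi.single_eq_of_ne hq, Pi.single_eq_of_ne hq, neg_zero]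
          rfl
      rw [e1, e2, map_neg, huh, add_neg_cancel])
  let r : (Fin n → (M × P) ⧸ ℓ) →ₗ[k] (Fin n → M) := ∑ p, rp p ∘ₗ LinearMap.proj p
  have hr : ∀ f : Fin n → M × P, r (fun p => π (f p)) = ut f := by
    intro f
    have e1 : r (fun p => π (f p)) = ∑ p, rp p (π (f p)) := by
      show (∑ p, rp p ∘ₗ LinearMap.proj p) _ = _
      rw [LinearMap.sum_apply]
      rfl
    have e2 : ∀ p, rp p (π (f p)) = ut (Pi.single p (f p)) := fun p => rfl
    rw [e1, Finset.sum_congr rfl fun p _ => e2 p, ← map_sum]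
    congr 1
    exact Finset.univ_sum_single f
  have hπs : ∀ f : Fin n → (M × P) ⧸ ℓ, ∃ g : Fin n → M × P, f = fun p => π (g p) := by
    intro f
    have : ∀ p, ∃ y, π y = f p := fun p => ℓ.mkQ_surjective (f p)
    choose g hg using this
    exact ⟨g, funext fun p => (hg p).symm⟩
  obtain ⟨s, s1, s2, s3⟩ := hφ.split φ X Y hM XQ YQ (π ∘ₗ LinearMap.inl k M P)
    (fun m => by
      show π (X m, 0) = π (X m, X' 0)
      rw [map_zero]) (fun m => by
      show π (Y m, 0) = π (Y m, Y' 0)
      rw [map_zero]) r (by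
      intro a f
      obtain ⟨g, rfl⟩ := hπs f
      rw [hr, ← hutG, ← hr]
      congr 1
      exact (Fa_nat φ XX YY XQ YQ π hπX hπY a g).symm) (by
      intro f
      have : r (fun p => π (f p, (0 : P))) = ut (fun p => (f p, 0)) := hr _
      refine this.trans ?_
      rw [hut]
      have e1 : (fun p => ((f p, (0 : P)) : M × P).2) = (0 : Fin n → P) := rfl
      rw [e1, map_zero, add_zero])
  refine ⟨s ∘ₗ π ∘ₗ LinearMap.inr k M P, fun m => ?_, fun m => ?_, ?_⟩
  · show s (π (0, X' m)) = X (s (π (0, m)))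
    rw [← s1, ← hπX]
    show s (π (0, X' m)) = s (π (X 0, X' m))
    rw [map_zero]
  · show s (π (0, Y' m)) = Y (s (π (0, m)))
    rw [← s2, ← hπY]
    show s (π (0, Y' m)) = s (π (Y 0, Y' m))
    rw [map_zero]
  · show s (π (0, p0)) = m0
    have e1 : π (0, p0) = π (m0, 0) := by
      rw [eq_comm, ← sub_eq_zero, ← map_sub]
      have : ((m0, 0) - (0, p0) : M × P) = (m0, -p0) := by
        rw [Prod.mk_sub_mk, sub_zero, zero_sub]
      rw [this]
      exact (Submodule.Quotient.mk_eq_zero ℓ).2 (Submodule.mem_span_singleton_self _)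
    rw [e1]
    exact s3 m0

end

section chain
variable (k : Type) [Field k]

/-- basis vectors, zero beyond the range -/
def ee (N j : ℕ) : Fin N → k := fun i => if (i : ℕ) = j then 1 else 0

/-- the shift matrix -/
def XE (N : ℕ) : Matrix (Fin N) (Fin N) k := fun i j => if (i : ℕ) = j + 1 then 1 else 0

/-- the sum of powers of the shift -/
def YE (N : ℕ) (E : Finset ℕ) : Matrix (Fin N) (Fin N) k :=
  fun i j => if ∃ e ∈ E, (i : ℕ) = j + e + 1 then 1 else 0

/-- the inclusion -/
def PE (N N' : ℕ) : Matrix (Fin N') (Fin N) k :=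
  fun i j => if (i : ℕ) + N = j + N' then 1 else 0

theorem ee_zero {N j : ℕ} (h : N ≤ j) : ee k N j = 0 := by
  funext i
  have := i.2
  unfold ee
  rw [if_neg (by omega)]
  rfl

theorem ee_ne {N j : ℕ} (h : j < N) : ee k N j ≠ 0 := by
  intro h0
  have := congrFun h0 ⟨j, h⟩
  unfold ee at this
  rw [if_pos rfl] at this
  exact one_ne_zero this

theorem mulVec_ee {N N' j : ℕ} (h : j < N) (D : Matrix (Fin N') (Fin N) k) (i : Fin N') :
    D.mulVec (ee k N j) i = D i ⟨j, h⟩ := by
  rw [Matrix.mulVec, dotProduct, Finset.sum_eq_single ⟨j, h⟩]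
  · unfold ee
    rw [if_pos rfl, mul_one]
  · intro t _ ht
    unfold ee
    rw [if_neg (fun h' => ht (Fin.ext h')), mul_zero]
  · intro h'
    exact absurd (Finset.mem_univ _) h'

theorem XE_ee (N j : ℕ) : (XE k N).mulVec (ee k N j) = ee k N (j + 1) := by
  by_cases h : j < N
  · funext i
    rw [mulVec_ee k h]
    rfl
  · rw [ee_zero k (by omega), ee_zero k (by omega), Matrix.mulVec_zero]

theorem YE_ee (N j : ℕ) (E : Finset ℕ) :
    (YE k N E).mulVec (ee k N j) = ∑ e ∈ E, ee k N (j + e + 1) := by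
  by_cases h : j < N
  · funext i
    rw [mulVec_ee k h, Finset.sum_apply]
    unfold YE ee
    by_cases he : ∃ e ∈ E, (i : ℕ) = j + e + 1
    · rw [if_pos he]
      obtain ⟨e, he, hi⟩ := he
      rw [Finset.sum_eq_single e]
      · rw [if_pos hi]
      · intro e' _ hne
        rw [if_neg]
        omega
      · intro h'
        exact absurd he h'
    · rw [if_neg he]
      symm
      apply Finset.sum_eq_zero
      intro e heE
      rw [if_neg]
      intro hi
      exact he ⟨e, heE, hi⟩
  · rw [ee_zero k (by omega), Matrix.mulVec_zero]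
    symm
    apply Finset.sum_eq_zero
    intro e _
    exact ee_zero k (by omega)

theorem PE_ee {N N' : ℕ} (hN : N ≤ N') (j : ℕ) :
    (PE k N N').mulVec (ee k N j) = ee k N' (j + (N' - N)) := by
  by_cases h : j < N
  · funext i
    rw [mulVec_ee k h]
    unfold PE ee
    by_cases hi : (i : ℕ) = j + (N' - N)
    · rw [if_pos hi, if_pos (by show (i : ℕ) + N = j + N'; omega)]
    · rw [if_neg hi, if_neg (by show ¬ (i : ℕ) + N = j + N'; omega)]
  · rw [ee_zero k (by omega), Matrix.mulVec_zero, ee_zero k (by omega)]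

theorem sum_ee {N : ℕ} (v : Fin N → k) : v = ∑ j : Fin N, v j • ee k N j := by
  funext i
  rw [Finset.sum_apply, Finset.sum_eq_single i]
  · rw [Pi.smul_apply]
    unfold ee
    rw [if_pos rfl, smul_eq_mul, mul_one]
  · intro j _ hj
    rw [Pi.smul_apply]
    unfold ee
    rw [if_neg (fun h => hj (Fin.ext h.symm)), smul_zero]
  · intro h
    exact absurd (Finset.mem_univ _) h

theorem ext_ee {N : ℕ} {M : Type} [AddCommGroup M] [Module k M] {f g : (Fin N → k) →ₗ[k] M}
    (h : ∀ j, f (ee k N j) = g (ee k N j)) : f = g := by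
  apply LinearMap.ext
  intro v
  rw [sum_ee k v, map_sum, map_sum]
  refine Finset.sum_congr rfl fun j _ => ?_
  rw [map_smul, map_smul, h]

theorem mat_ext_ee {N N' : ℕ} {D D' : Matrix (Fin N') (Fin N) k}
    (h : ∀ j, D.mulVec (ee k N j) = D'.mulVec (ee k N j)) : D = D' := by
  ext i j
  have h1 := congrFun (h j) i
  rw [mulVec_ee k j.2, mulVec_ee k j.2] at h1
  exact h1

/-- the size -/
def NE (E : Finset ℕ) : ℕ := E.sup id + 2

/-- initial segments -/
def isg (E E' : Finset ℕ) : Prop := E'.filter (fun e => e ≤ E.sup id) = E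

theorem isg_iff (E E' : Finset ℕ) : isg E E' ↔ ∀ e ≤ E.sup id, (e ∈ E ↔ e ∈ E') := by
  unfold isg
  constructor
  · intro h e he
    constructor
    · intro heE
      rw [← h, Finset.mem_filter] at heE
      exact heE.1
    · intro heE
      rw [← h, Finset.mem_filter]
      exact ⟨heE, he⟩
  · intro h
    ext e
    rw [Finset.mem_filter]
    constructor
    · rintro ⟨h1, h2⟩
      exact (h e h2).2 h1
    · intro h1
      have h2 : e ≤ E.sup id := Finset.le_sup (f := id) h1
      exact ⟨(h e h2).1 h1, h2⟩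

theorem isg_sup {E E' : Finset ℕ} (h : isg E E') : E.sup id ≤ E'.sup id := by
  apply Finset.sup_mono
  intro e he
  unfold isg at h
  rw [← h, Finset.mem_filter] at he
  exact he.1

theorem PE_XE {E E' : Finset ℕ} (h : isg E E') :
    PE k (NE E) (NE E') * XE k (NE E) = XE k (NE E') * PE k (NE E) (NE E') := by
  have hN : NE E ≤ NE E' := by
    have := isg_sup h
    unfold NE
    omega
  apply mat_ext_ee
  intro j
  rw [← Matrix.mulVec_mulVec, ← Matrix.mulVec_mulVec, XE_ee, PE_ee k hN, PE_ee k hN, XE_ee]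
  congr 1
  omega

theorem PE_YE {E E' : Finset ℕ} (h : isg E E') :
    PE k (NE E) (NE E') * YE k (NE E) E = YE k (NE E') E' * PE k (NE E) (NE E') := by
  have hN : NE E ≤ NE E' := by
    have := isg_sup h
    unfold NE
    omega
  apply mat_ext_ee
  intro j
  rw [← Matrix.mulVec_mulVec, ← Matrix.mulVec_mulVec, YE_ee, PE_ee k hN, YE_ee,
    Matrix.mulVec_sum, Finset.sum_congr rfl fun e _ => PE_ee k hN (j + e + 1)]
  have hsub : E ⊆ E' := by
    intro e he
    unfold isg at h
    rw [← h, Finset.mem_filter] at he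
    exact he.1
  rw [← Finset.sum_subset hsub]
  · refine Finset.sum_congr rfl fun e _ => ?_
    congr 1
    omega
  · intro e he' he
    apply ee_zero
    have : ¬ e ≤ E.sup id := fun h2 => he (((isg_iff E E').1 h e h2).2 he')
    unfold NE at hN ⊢
    omega

theorem Xpow_ee (N j s : ℕ) (f : Module.End k (Fin N → k)) (hf : f = (XE k N).toLin') :
    (f ^ s) (ee k N j) = ee k N (j + s) := by
  induction s with
  | zero => rfl
  | succ s ih =>
    rw [pow_succ', Module.End.mul_apply, ih, hf, Matrix.toLin'_apply, XE_ee]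
    rfl

theorem socle (N : ℕ) (v : Fin N → k) (hv : v ≠ 0) : ∃ (s : ℕ) (c : k), c ≠ 0 ∧
    (((XE k N).toLin' : Module.End k (Fin N → k)) ^ s) v = c • ee k N (N - 1) := by
  classical
  have hex : ∃ i : ℕ, ∃ h : i < N, v ⟨i, h⟩ ≠ 0 := by
    by_contra hcon
    push Not at hcon
    exact hv (funext fun i => hcon i i.2)
  obtain ⟨hi, hvi⟩ := Nat.find_spec hex
  have hmin : ∀ j : Fin N, (j : ℕ) < Nat.find hex → v j = 0 := by
    intro j hj
    by_contra h
    exact Nat.find_min hex hj ⟨j.2, h⟩
  set i := Nat.find hex with hidef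
  refine ⟨N - 1 - i, v ⟨i, hi⟩, hvi, ?_⟩
  conv_lhs => rw [sum_ee k v]
  rw [map_sum, Finset.sum_eq_single ⟨i, hi⟩]
  · rw [map_smul, Xpow_ee k N _ _ _ rfl]
    congr 2
    show i + (N - 1 - i) = N - 1
    omega
  · intro j _ hj
    rw [map_smul, Xpow_ee k N _ _ _ rfl]
    have hji : (j : ℕ) ≠ i := fun h => hj (Fin.ext h)
    rcases lt_or_gt_of_ne hji with h | h
    · rw [hmin j h, zero_smul]
    · rw [ee_zero k (by omega), smul_zero]
  · intro h
    exact absurd (Finset.mem_univ _) h

theorem chain_ind (N : ℕ) (hN : 0 < N) (Y : Module.End k (Fin N → k)) :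
    Ind2 ((XE k N).toLin' : Module.End k (Fin N → k)) Y := by
  haveI : Nonempty (Fin N) := ⟨⟨0, hN⟩⟩
  refine ⟨inferInstance, fun e he heX _ => ?_⟩
  have key : ∀ g : Module.End k (Fin N → k), (∀ v, g (g v) = g v) →
      (∀ v, g ((XE k N).toLin' v) = (XE k N).toLin' (g v)) → g ≠ 0 →
      g (ee k N (N - 1)) = ee k N (N - 1) := by
    intro g h1 h2 h3
    have h4 : ∃ v, g v ≠ 0 := by
      by_contra hcon
      push Not at hcon
      exact h3 (LinearMap.ext hcon)
    obtain ⟨v, hv⟩ := h4
    obtain ⟨s, c, hc, hs⟩ := socle k N (g v) hv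
    have h5 : ∀ (s : ℕ) v, g ((((XE k N).toLin' : Module.End k (Fin N → k)) ^ s) v) =
        (((XE k N).toLin' : Module.End k (Fin N → k)) ^ s) (g v) := by
      intro s
      induction s with
      | zero => intro v; rfl
      | succ s ih =>
        intro v
        rw [pow_succ', Module.End.mul_apply, Module.End.mul_apply, h2, ih]
    have h6 := h5 s (g v)
    rw [h1, hs, map_smul] at h6
    have h7 := congrArg (fun z => c⁻¹ • z) h6
    simp only [smul_smul, inv_mul_cancel₀ hc, one_smul] at h7
    exact h7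
  have he' : ∀ v, e (e v) = e v := fun v => congrArg (fun g => g v) he
  have heX' : ∀ v, e ((XE k N).toLin' v) = (XE k N).toLin' (e v) :=
    fun v => congrArg (fun g => g v) heX
  by_contra hcon
  push Not at hcon
  have h1 := key e he' heX' hcon.1
  have h2 := key (1 - e) (fun v => by
    simp only [LinearMap.sub_apply, Module.End.one_apply, map_sub]
    rw [he']
    abel) (fun v => by
    simp only [LinearMap.sub_apply, Module.End.one_apply, map_sub]
    rw [heX']) (fun h => hcon.2 (sub_eq_zero.1 h).symm)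
  rw [LinearMap.sub_apply, Module.End.one_apply, h1, sub_self] at h2
  exact ee_ne k (by omega) h2.symm

/-- homomorphisms which do not kill the socle -/
theorem chain_hom (E E' : Finset ℕ) (h : (Fin (NE E) → k) →ₗ[k] (Fin (NE E') → k))
    (hX : ∀ v, h ((XE k (NE E)).toLin' v) = (XE k (NE E')).toLin' (h v))
    (hY : ∀ v, h ((YE k (NE E) E).toLin' v) = (YE k (NE E') E').toLin' (h v))
    (h0 : h (ee k (NE E) (NE E - 1)) ≠ 0) : isg E E' := by
  classical
  set X' : Module.End k (Fin (NE E') → k) := (XE k (NE E')).toLin' with hX'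
  set v := h (ee k (NE E) 0) with hv
  have e1 : ∀ j, h (ee k (NE E) j) = (X' ^ j) v := by
    intro j
    induction j with
    | zero => rfl
    | succ j ih =>
      rw [pow_succ', Module.End.mul_apply, ← ih, ← hX, Matrix.toLin'_apply, XE_ee]
  have e2 : ∀ j, NE E ≤ j → (X' ^ j) v = 0 := by
    intro j hj
    rw [← e1, ee_zero k hj, map_zero]
  have e3 : (X' ^ (NE E - 1)) v ≠ 0 := by
    rw [← e1]
    exact h0
  have e4 : ∀ w, (YE k (NE E') E').toLin' w = ∑ e ∈ E', (X' ^ (e + 1)) w := by
    intro w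
    have : ((YE k (NE E') E').toLin' : Module.End k (Fin (NE E') → k)) =
        ∑ e ∈ E', X' ^ (e + 1) := by
      apply ext_ee
      intro j
      rw [Matrix.toLin'_apply, YE_ee, LinearMap.sum_apply]
      refine Finset.sum_congr rfl fun e _ => ?_
      rw [Xpow_ee k _ _ _ _ hX']
      rfl
    rw [this, LinearMap.sum_apply]
  have e5 : ∑ e ∈ E, (X' ^ (e + 1)) v = ∑ e ∈ E', (X' ^ (e + 1)) v := by
    rw [← e4, hv, ← hY, Matrix.toLin'_apply, YE_ee, map_sum]
    refine Finset.sum_congr rfl fun e _ => ?_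
    rw [zero_add, e1 (e + 1)]
  rw [isg_iff]
  intro e
  induction e using Nat.strong_induction_on with
  | _ e0 ih =>
    intro he0
    have hle : e0 + 2 ≤ NE E := by
      unfold NE
      omega
    let f : ℕ → (Fin (NE E') → k) := fun e => (X' ^ (NE E - 2 - e0 + (e + 1))) v
    have f0 : f e0 ≠ 0 := by
      show (X' ^ (NE E - 2 - e0 + (e0 + 1))) v ≠ 0
      have : NE E - 2 - e0 + (e0 + 1) = NE E - 1 := by omega
      rw [this]
      exact e3
    have fbig : ∀ e, e0 < e → f e = 0 := fun e he => e2 _ (by omega)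
    have hf : ∑ e ∈ E, f e = ∑ e ∈ E', f e := by
      have := congrArg (fun w => (X' ^ (NE E - 2 - e0)) w) e5
      simp only [map_sum] at this
      have h2 : ∀ e, (X' ^ (NE E - 2 - e0)) ((X' ^ (e + 1)) v) = f e := by
        intro e
        show _ = (X' ^ (NE E - 2 - e0 + (e + 1))) v
        rw [← Module.End.mul_apply, ← pow_add]
      simpa only [h2] using this
    have hr : ∀ S : Finset ℕ, ∑ e ∈ S, f e =
        (∑ e ∈ Finset.range e0, if e ∈ S then f e else 0) + if e0 ∈ S then f e0 else 0 := by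
      intro S
      rw [← Finset.sum_range_succ (fun e => if e ∈ S then f e else 0) e0, ← Finset.sum_filter]
      symm
      apply Finset.sum_subset
      · intro e he
        exact (Finset.mem_filter.1 he).2
      · intro e heS he
        apply fbig
        by_contra hlt
        apply he
        rw [Finset.mem_filter, Finset.mem_range]
        exact ⟨by omega, heS⟩
    rw [hr E, hr E'] at hf
    have h3 : (∑ e ∈ Finset.range e0, if e ∈ E then f e else 0) =
        ∑ e ∈ Finset.range e0, if e ∈ E' then f e else 0 := by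
      refine Finset.sum_congr rfl fun e he => ?_
      rw [Finset.mem_range] at he
      have := ih e he (by omega)
      by_cases h : e ∈ E
      · rw [if_pos h, if_pos (this.1 h)]
      · rw [if_neg h, if_neg (fun h' => h (this.2 h'))]
    rw [h3] at hf
    have h4 := add_left_cancel hf
    constructor
    · intro h
      by_contra h'
      rw [if_pos h, if_neg h'] at h4
      exact f0 h4
    · intro h
      by_contra h'
      rw [if_neg h', if_pos h] at h4
      exact f0 h4.symm

end chain

end Pool.Agent.W439
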