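import Mathlib
import Pool.Agent.W439.Wild3

set_option autoImplicit false

/-! The chain modules form an open tree after applying the functor. -/

namespace Pool.Agent.W439

section
variable {k A : Type} [Field k] [Ring A] [Algebra k A] {n : ℕ}
  (φ : A →ₐ[k] Matrix (Fin n) (Fin n) (FreeAlgebra k (Fin 2)))

/-- the shift operator -/
noncomputable def Xo (k : Type) [Field k] (E : Finset ℕ) : Module.End k (Fin (NE E) → k) :=
  (XE k (NE E)).toLin'

/-- the second operator -/
noncomputable def Yo (k : Type) [Field k] (E : Finset ℕ) : Module.End k (Fin (NE E) → k) :=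
  (YE k (NE E) E).toLin'

/-- the generator of the socle -/
def so (k : Type) [Field k] (E : Finset ℕ) : Fin (NE E) → k := ee k (NE E) (NE E - 1)

theorem NE_pos (E : Finset ℕ) : 0 < NE E := Nat.succ_pos _

theorem so_ne (E : Finset ℕ) : so k E ≠ 0 := ee_ne k (by have := NE_pos E; omega)

theorem Xo_so (E : Finset ℕ) : Xo k E (so k E) = 0 := by
  unfold Xo so
  rw [Matrix.toLin'_apply, XE_ee]
  exact ee_zero k (by omega)

theorem Yo_so (E : Finset ℕ) : Yo k E (so k E) = 0 := by
  unfold Yo so
  rw [Matrix.toLin'_apply, YE_ee]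
  apply Finset.sum_eq_zero
  intro e _
  exact ee_zero k (by omega)

theorem oc2 (hφ : PresInd φ) (E' : Finset ℕ) (S : Finset (Finset ℕ))
    (u : ∀ E : Finset ℕ, (Fin n → Fin (NE E) → k) →ₗ[k] (Fin n → Fin (NE E') → k))
    (hu : ∀ E a f, u E (Fa φ (Xo k E) (Yo k E) a f) = Fa φ (Xo k E') (Yo k E') a (u E f))
    (h : ∀ p, Pi.single p (so k E') = ∑ E ∈ S, u E (Pi.single p (so k E))) :
    ∃ E ∈ S, isg E E' := by
  classical
  let XP : Module.End k (∀ E : S, Fin (NE E.1) → k) :=
    LinearMap.pi fun E => Xo k E.1 ∘ₗ LinearMap.proj E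
  let YP : Module.End k (∀ E : S, Fin (NE E.1) → k) :=
    LinearMap.pi fun E => Yo k E.1 ∘ₗ LinearMap.proj E
  let U : (Fin n → ∀ E : S, Fin (NE E.1) → k) →ₗ[k] (Fin n → Fin (NE E') → k) :=
    ∑ E : S, u E.1 ∘ₗ (LinearMap.pi fun p => LinearMap.proj E ∘ₗ LinearMap.proj p)
  have hU : ∀ f, U f = ∑ E : S, u E.1 (fun p => f p E) := by
    intro f
    show (∑ E : S, u E.1 ∘ₗ (LinearMap.pi fun p => LinearMap.proj E ∘ₗ LinearMap.proj p)) f = _
    rw [LinearMap.sum_apply]
    rfl
  obtain ⟨s, s1, s2, s3⟩ := hφ.push φ (Xo k E') (Yo k E') (chain_ind k (NE E') (NE_pos E') _)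
    XP YP (so k E') (fun E => so k E.1) (Xo_so E') (Yo_so E') (by
      funext E
      exact Xo_so E.1) (by
      funext E
      exact Yo_so E.1) U (by
      intro a f
      rw [hU, hU, map_sum]
      refine Finset.sum_congr rfl fun E _ => ?_
      rw [← hu]
      congr 1
      exact Fa_nat φ XP YP (Xo k E.1) (Yo k E.1) (LinearMap.proj E) (fun m => rfl)
        (fun m => rfl) a f) (by
      intro p
      rw [hU, h p, ← Finset.sum_coe_sort S]
      refine Finset.sum_congr rfl fun E _ => ?_
      congr 1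
      funext q
      by_cases hq : q = p
      · subst hq
        rw [Pi.single_eq_same, Pi.single_eq_same]
      · rw [Pi.single_eq_of_ne hq, Pi.single_eq_of_ne hq]
        rfl)
  have h1 : ∃ E : S, s (Pi.single E (so k E.1)) ≠ 0 := by
    by_contra hcon
    push Not at hcon
    apply so_ne (k := k) E'
    rw [← s3]
    have h2 : (fun E : S => so k E.1) = ∑ E : S, Pi.single E (so k E.1) :=
      (Finset.univ_sum_single (fun E : S => so k E.1)).symm
    rw [h2, map_sum]
    exact Finset.sum_eq_zero fun E _ => hcon E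
  obtain ⟨E, hE⟩ := h1
  refine ⟨E.1, E.2, chain_hom k E.1 E' (s ∘ₗ LinearMap.single k (fun E : S =>
    Fin (NE E.1) → k) E) (fun v => ?_) (fun v => ?_) hE⟩
  · have h2 := s1 (Pi.single E v)
    refine Eq.trans ?_ h2
    show s (Pi.single E (Xo k E.1 v)) = s (XP (Pi.single E v))
    congr 1
    funext E''
    show _ = Xo k E''.1 ((Pi.single E v : ∀ E : S, Fin (NE E.1) → k) E'')
    by_cases hq : E'' = E
    · subst hq
      rw [Pi.single_eq_same, Pi.single_eq_same]
    · rw [Pi.single_eq_of_ne hq, Pi.single_eq_of_ne hq, map_zero]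
  · have h2 := s2 (Pi.single E v)
    refine Eq.trans ?_ h2
    show s (Pi.single E (Yo k E.1 v)) = s (YP (Pi.single E v))
    congr 1
    funext E''
    show _ = Yo k E''.1 ((Pi.single E v : ∀ E : S, Fin (NE E.1) → k) E'')
    by_cases hq : E'' = E
    · subst hq
      rw [Pi.single_eq_same, Pi.single_eq_same]
    · rw [Pi.single_eq_of_ne hq, Pi.single_eq_of_ne hq, map_zero]

end

/-- the branching property of initial segments -/
theorem isg_br (E : Finset ℕ) (S : Finset (Finset ℕ)) (hS : ∀ s ∈ S, ¬ isg s E) :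
    ∃ E1 E2, isg E E1 ∧ isg E E2 ∧ ¬ isg E1 E2 ∧ ¬ isg E2 E1 ∧
      ∀ s ∈ S, ¬ isg s E1 ∧ ¬ isg s E2 := by
  classical
  set b := max (E.sup id) (S.sup fun s => s.sup id) + 1 with hb
  have hbE : E.sup id < b := by
    rw [hb]
    exact Nat.lt_succ_of_le (le_max_left _ _)
  have hbS : ∀ s ∈ S, s.sup id < b := by
    intro s hs
    rw [hb]
    exact Nat.lt_succ_of_le ((Finset.le_sup (f := fun s : Finset ℕ => s.sup id) hs).trans
      (le_max_right _ _))
  have h1 : ∀ c, b ≤ c → isg E (insert c E) := by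
    intro c hc
    rw [isg_iff]
    intro e he
    rw [Finset.mem_insert]
    constructor
    · exact Or.inr
    · rintro (h | h)
      · omega
      · exact h
  have h2 : ∀ c, b ≤ c → ∀ s ∈ S, ¬ isg s (insert c E) := by
    intro c hc s hs h
    apply hS s hs
    rw [isg_iff] at h ⊢
    intro e he
    rw [h e he, Finset.mem_insert]
    have := hbS s hs
    constructor
    · rintro (h | h)
      · omega
      · exact h
    · exact Or.inr
  have h3 : ∀ c d, b ≤ c → b ≤ d → c ≠ d → ¬ isg (insert c E) (insert d E) := by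
    intro c d hc hd hcd h
    rw [isg_iff] at h
    have h4 := (h c (Finset.le_sup (f := id) (Finset.mem_insert_self c E))).1
      (Finset.mem_insert_self c E)
    rcases Finset.mem_insert.1 h4 with h5 | h5
    · exact hcd h5
    · have h6 := Finset.le_sup (f := id) h5
      have h7 : c ≤ E.sup id := h6
      omega
  exact ⟨insert b E, insert (b + 1) E, h1 b (le_refl b), h1 (b + 1) (by omega),
    h3 b (b + 1) (le_refl b) (by omega) (by omega), h3 (b + 1) b (by omega) (le_refl b) (by omega),
    fun s hs => ⟨h2 b (le_refl b) s hs, h2 (b + 1) (by omega) s hs⟩⟩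

end Pool.Agent.W439
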