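import Mathlib
import Pool.Agent.W439.KLevel
import Pool.Agent.W439.Wild4
import Pool.Agent.W439.BaseU

set_option autoImplicit false

/-! The functor over the small field for a wild algebra. -/

namespace Pool.Agent.W439

section
variable {k A : Type} [Field k] [Ring A] [Algebra k A] {n : ℕ}
  (φ : A →ₐ[k] Matrix (Fin n) (Fin n) (FreeAlgebra k (Fin 2)))

/-- the matrices of the functor -/
noncomputable def Th {N : ℕ} (X Y : Matrix (Fin N) (Fin N) k) :
    A →ₐ[k] Matrix (Fin (n * N)) (Fin (n * N)) k :=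
  (Matrix.reindexAlgEquiv k k (finProdFinEquiv (m := n) (n := N))).toAlgHom.comp
    ((Matrix.compAlgEquiv (Fin n) (Fin N) k k).toAlgHom.comp
      ((FreeAlgebra.lift k ![X, Y]).mapMatrix.comp φ))

theorem Th_apply {N : ℕ} (X Y : Matrix (Fin N) (Fin N) k) (a : A) (s t : Fin (n * N)) :
    Th φ X Y a s t = FreeAlgebra.lift k ![X, Y]
      (φ a (finProdFinEquiv.symm s).1 (finProdFinEquiv.symm t).1)
      (finProdFinEquiv.symm s).2 (finProdFinEquiv.symm t).2 := rfl

/-- flattening -/
def sg {F : Type} (n N : ℕ) (f : Fin n → Fin N → F) : Fin (n * N) → F :=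
  fun s => f (finProdFinEquiv.symm s).1 (finProdFinEquiv.symm s).2

/-- unflattening -/
def us {F : Type} (n N : ℕ) (g : Fin (n * N) → F) : Fin n → Fin N → F :=
  fun p i => g (finProdFinEquiv (p, i))

theorem us_sg {F : Type} (n N : ℕ) (f : Fin n → Fin N → F) : us n N (sg n N f) = f := by
  funext p i
  unfold us sg
  rw [Equiv.symm_apply_apply]

theorem sg_us {F : Type} (n N : ℕ) (g : Fin (n * N) → F) : sg n N (us n N g) = g := by
  funext s
  show g (finProdFinEquiv ((finProdFinEquiv.symm s).1, (finProdFinEquiv.symm s).2)) = g s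
  rw [Prod.mk.eta, Equiv.apply_symm_apply]

theorem Th_sg {N : ℕ} (X Y : Matrix (Fin N) (Fin N) k) (a : A) (f : Fin n → Fin N → k) :
    (Th φ X Y a).mulVec (sg n N f) = sg n N (Fa φ X.toLin' Y.toLin' a f) := by
  funext s
  rw [Matrix.mulVec, dotProduct, ← (finProdFinEquiv (m := n) (n := N)).sum_comp,
    Fintype.sum_prod_type]
  show _ = Fa φ X.toLin' Y.toLin' a f (finProdFinEquiv.symm s).1 (finProdFinEquiv.symm s).2
  rw [Fa_apply, Finset.sum_apply]
  refine Finset.sum_congr rfl fun q _ => ?_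
  have e4 : ∀ w : FreeAlgebra k (Fin 2), FreeAlgebra.lift k ![X.toLin', Y.toLin'] w =
      (FreeAlgebra.lift k ![X, Y] w).toLin' := by
    intro w
    have : (Matrix.toLinAlgEquiv' (R := k) (n := Fin N)).toAlgHom.comp (FreeAlgebra.lift k ![X, Y]) =
        FreeAlgebra.lift k ![X.toLin', Y.toLin'] := by
      apply FreeAlgebra.hom_ext
      funext x
      fin_cases x
      · simp
        rfl
      · simp
        rfl
    exact (congrArg (fun f => f w) this).symm
  rw [e4, Matrix.toLin'_apply]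
  refine Finset.sum_congr rfl fun i _ => ?_
  rw [Th_apply]
  unfold sg
  rw [Equiv.symm_apply_apply]

end

section
variable {K k A0 A : Type} [Field K] [Field k] [Algebra K k] [Ring A0] [Algebra K A0]
    [Ring A] [Algebra k A] (D : BC K k A0 A)

theorem BC.desc {d : ℕ} (Θ : A →ₐ[k] Matrix (Fin d) (Fin d) k)
    (h : ∀ i, ∃ Z, Θ (D.b i) = mm K k Z) :
    ∃ ρ : A0 →ₐ[K] Matrix (Fin d) (Fin d) K, ∀ a, mm K k (ρ a) = Θ (D.ι a) := by
  choose Z hZ using h
  have h1 : ∀ a : A0, ∃ Z', mm K k Z' = Θ (D.ι a) := by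
    intro a
    refine ⟨∑ i, D.c.repr a i • Z i, ?_⟩
    have h2 : mm K k (∑ i, D.c.repr a i • Z i) = ∑ i, mm K k (D.c.repr a i • Z i) := by
      let g : Matrix (Fin d) (Fin d) K →+ Matrix (Fin d) (Fin d) k :=
        { toFun := mm K k, map_zero' := mm_zero, map_add' := mm_add }
      exact map_sum g _ _
    rw [h2]
    conv_rhs => rw [← D.c.sum_repr a, map_sum, map_sum]
    refine Finset.sum_congr rfl fun i _ => ?_
    rw [mm_smul, D.ι_smul, map_smul, ← D.hb, hZ]
  choose ρ hρ using h1
  refine ⟨{ toFun := ρ, map_one' := ?_, map_mul' := ?_, map_zero' := ?_, map_add' := ?_,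
            commutes' := ?_ }, hρ⟩
  · apply mm_inj (k := k)
    rw [hρ, map_one, map_one, mm_one]
  · intro x y
    apply mm_inj (k := k)
    rw [hρ, map_mul, map_mul, mm_mul, hρ, hρ]
  · apply mm_inj (k := k)
    show mm K k (ρ 0) = _
    rw [hρ, map_zero, map_zero, mm_zero]
  · intro x y
    apply mm_inj (k := k)
    show mm K k (ρ (x + y)) = _
    rw [hρ, map_add, map_add, mm_add, hρ, hρ]
  · intro x
    apply mm_inj (k := k)
    show mm K k (ρ (algebraMap K A0 x)) = _
    have e1 : algebraMap k (Matrix (Fin d) (Fin d) k) (algebraMap K k x) =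
        algebraMap K k x • (1 : Matrix (Fin d) (Fin d) k) := Algebra.algebraMap_eq_smul_one _
    have e2 : algebraMap K (Matrix (Fin d) (Fin d) K) x = x • (1 : Matrix (Fin d) (Fin d) K) :=
      Algebra.algebraMap_eq_smul_one _
    rw [hρ, D.hι, AlgHom.commutes, e1, e2, mm_smul, mm_one]

theorem BC.ex_desc {d : ℕ} (Θ : A →ₐ[k] Matrix (Fin d) (Fin d) k)
    (ρ : A0 →ₐ[K] Matrix (Fin d) (Fin d) K) (h : ∀ a, mm K k (ρ a) = Θ (D.ι a)) (a : A) :
    D.exρ ⟨d, ρ⟩ a = Θ a := by
  have h1 : (D.exρ ⟨d, ρ⟩).toLinearMap = Θ.toLinearMap := by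
    apply D.b.ext
    intro i
    show D.exρ ⟨d, ρ⟩ (D.b i) = Θ (D.b i)
    rw [D.hb]
    have h2 := D.ex_ρ ⟨d, ρ⟩ (D.c i)
    exact h2.trans (h _)
  exact LinearMap.congr_fun h1 a

/-- matrices of maps applied in each component -/
def Cm {F : Type} [Field F] (n : ℕ) {N N' : ℕ} (P : Matrix (Fin N') (Fin N) F) :
    Matrix (Fin (n * N')) (Fin (n * N)) F := fun s t =>
  if (finProdFinEquiv.symm s).1 = (finProdFinEquiv.symm t).1 then
    P (finProdFinEquiv.symm s).2 (finProdFinEquiv.symm t).2 else 0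

theorem Cm_sg {F : Type} [Field F] (n : ℕ) {N N' : ℕ} (P : Matrix (Fin N') (Fin N) F)
    (f : Fin n → Fin N → F) :
    (Cm n P).mulVec (sg n N f) = sg n N' (fun p => P.mulVec (f p)) := by
  funext s
  rw [Matrix.mulVec, dotProduct, ← (finProdFinEquiv (m := n) (n := N)).sum_comp,
    Fintype.sum_prod_type, Finset.sum_eq_single (finProdFinEquiv.symm s).1]
  · show _ = ∑ j, P (finProdFinEquiv.symm s).2 j * f (finProdFinEquiv.symm s).1 j
    refine Finset.sum_congr rfl fun i _ => ?_
    unfold Cm sg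
    rw [Equiv.symm_apply_apply, if_pos rfl]
  · intro q _ hq
    refine Finset.sum_eq_zero fun i _ => ?_
    unfold Cm
    rw [Equiv.symm_apply_apply, if_neg (fun h => hq h.symm), zero_mul]
  · intro h
    exact absurd (Finset.mem_univ _) h

theorem mm_XE (N : ℕ) : mm K k (XE K N) = XE k N := by
  ext i j
  show algebraMap K k (if _ then _ else _) = if _ then _ else _
  split_ifs
  · exact map_one _
  · exact map_zero _

theorem mm_YE (N : ℕ) (E : Finset ℕ) : mm K k (YE K N E) = YE k N E := by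
  ext i j
  show algebraMap K k (if _ then _ else _) = if _ then _ else _
  split_ifs
  · exact map_one _
  · exact map_zero _

theorem mm_CmPE (n N N' : ℕ) : mm K k (Cm n (PE K N N')) = Cm n (PE k N N') := by
  ext s t
  show algebraMap K k (if _ then (if _ then _ else _) else _) = if _ then (if _ then _ else _) else _
  split_ifs
  · exact map_one _
  · exact map_zero _
  · exact map_zero _

theorem mm_mulVec {p q : ℕ} (Z : Matrix (Fin p) (Fin q) K) (x : Fin q → K) :
    (fun i => algebraMap K k (Z.mulVec x i)) = (mm K k Z).mulVec (fun j => algebraMap K k (x j)) := by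
  funext i
  show algebraMap K k (∑ j, Z i j * x j) = ∑ j, algebraMap K k (Z i j) * algebraMap K k (x j)
  rw [map_sum]
  exact Finset.sum_congr rfl fun j _ => map_mul _ _ _

theorem wildB [Module.Finite K A0] [Countable A0] {n : ℕ}
    (φ : A →ₐ[k] Matrix (Fin n) (Fin n) (FreeAlgebra k (Fin 2))) (hφ : PresInd φ)
    (hrat : ∀ (i : Fin D.r) (p q : Fin n) (N : ℕ) (X Y : Matrix (Fin N) (Fin N) K),
        ∃ Z : Matrix (Fin N) (Fin N) K,
          FreeAlgebra.lift k ![mm K k X, mm K k Y] (φ (D.b i) p q) = mm K k Z) :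
    ∃ B : ∀ V : Ob K A0, Submodule K V.M,
      (∀ (U V : Ob K A0) (h : U.M →ₗ[A0] V.M), ∀ x ∈ B U, h x ∈ B V) ∧
      (∀ (V : Ob K A0) (ζ : V.M →ₗ[K] K), (∃ x ∈ B V, ζ x ≠ 0) →
        ∃ (U0 U1 : Ob K A0) (g0 : U0.M →ₗ[A0] V.M) (g1 : U1.M →ₗ[A0] V.M),
          (∃ x ∈ B U0, ζ (g0 x) ≠ 0) ∧ (∃ x ∈ B U1, ζ (g1 x) ≠ 0) ∧
          ∀ (Y : Ob K A0) (k0 : Y.M →ₗ[A0] U0.M) (k1 : Y.M →ₗ[A0] U1.M),
            (∀ x ∈ B Y, ζ (g0 (k0 x)) = ζ (g1 (k1 x))) → ∀ x ∈ B Y, ζ (g0 (k0 x)) = 0) ∧
      ∃ V : Ob K A0, ∃ x ∈ B V, x ≠ 0 := by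
  classical
  -- the modules
  have hex : ∀ E : Finset ℕ, ∃ ρ : A0 →ₐ[K] Matrix (Fin (n * NE E)) (Fin (n * NE E)) K,
      ∀ a, mm K k (ρ a) = Th φ (XE k (NE E)) (YE k (NE E) E) (D.ι a) := by
    intro E
    apply D.desc
    intro i
    have h1 : ∀ p q, ∃ Z : Matrix (Fin (NE E)) (Fin (NE E)) K,
        FreeAlgebra.lift k ![XE k (NE E), YE k (NE E) E] (φ (D.b i) p q) = mm K k Z := by
      intro p q
      have h2 := hrat i p q (NE E) (XE K (NE E)) (YE K (NE E) E)
      rw [mm_XE, mm_YE] at h2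
      exact h2
    choose Z hZ using h1
    refine ⟨fun s t => Z (finProdFinEquiv.symm s).1 (finProdFinEquiv.symm t).1
      (finProdFinEquiv.symm s).2 (finProdFinEquiv.symm t).2, ?_⟩
    ext s t
    rw [Th_apply, hZ]
    rfl
  choose ρ hρ using hex
  have hθ : ∀ (E : Finset ℕ) (a : A), D.exρ ⟨n * NE E, ρ E⟩ a =
      Th φ (XE k (NE E)) (YE k (NE E) E) a := fun E a => D.ex_desc _ (ρ E) (hρ E) a
  let W : Finset ℕ → Ob K A0 := fun E => ⟨n * NE E, ρ E⟩
  let w : ∀ E, Fin n → (W E).M := fun E p =>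
    (sg n (NE E) (Pi.single p (so K E)) : Fin (n * NE E) → K)
  -- rational vectors
  have hup : ∀ E p, D.up (W E) (w E p) = (sg n (NE E) (Pi.single p (so k E)) :
      Fin (n * NE E) → k) := by
    intro E p
    have h1 : ∀ s : Fin (n * NE E), algebraMap K k (sg n (NE E) (Pi.single p (so K E)) s) =
        sg n (NE E) (Pi.single p (so k E)) s := by
      intro s
      unfold sg
      by_cases hs : (finProdFinEquiv.symm s).1 = p
      · rw [hs, Pi.single_eq_same, Pi.single_eq_same]
        unfold so ee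
        split_ifs
        · exact map_one _
        · exact map_zero _
      · rw [Pi.single_eq_of_ne hs, Pi.single_eq_of_ne hs]
        exact map_zero _
    exact funext h1
  refine klevel (F := K) (R := A0) (T := Finset ℕ) ∅ isg W w isg_br ?_ ?_
  · -- the maps
    intro E E' hE
    have hN : NE E ≤ NE E' := by
      have := isg_sup hE
      unfold NE
      omega
    have hcomm : ∀ a, Cm n (PE K (NE E) (NE E')) * ρ E a = ρ E' a * Cm n (PE K (NE E) (NE E')) := by
      intro a
      apply mm_inj (k := k)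
      rw [mm_mul, mm_mul, mm_CmPE, hρ, hρ]
      apply mat_eq_of_mulVec
      intro x
      rw [← Matrix.mulVec_mulVec, ← Matrix.mulVec_mulVec, ← sg_us n (NE E) x, Th_sg, Cm_sg, Cm_sg,
        Th_sg]
      congr 1
      exact Fa_nat φ (XE k (NE E)).toLin' (YE k (NE E) E).toLin' (XE k (NE E')).toLin'
        (YE k (NE E') E').toLin' (PE k (NE E) (NE E')).toLin' (fun m => by
          rw [Matrix.toLin'_apply, Matrix.toLin'_apply, Matrix.toLin'_apply, Matrix.toLin'_apply,
            Matrix.mulVec_mulVec, Matrix.mulVec_mulVec, PE_XE k hE]) (fun m => by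
          rw [Matrix.toLin'_apply, Matrix.toLin'_apply, Matrix.toLin'_apply, Matrix.toLin'_apply,
            Matrix.mulVec_mulVec, Matrix.mulVec_mulVec, PE_YE k hE]) (D.ι a) _
    obtain ⟨u, hu⟩ := Ob.mkHom (W E) (W E') (Cm n (PE K (NE E) (NE E'))) hcomm
    refine ⟨u, fun p => ?_⟩
    rw [hu]
    show (Cm n (PE K (NE E) (NE E'))).mulVec (sg n (NE E) (Pi.single p (so K E))) =
      sg n (NE E') (Pi.single p (so K E'))
    rw [Cm_sg]
    congr 1
    funext q
    by_cases hq : q = p
    · subst hq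
      rw [Pi.single_eq_same, Pi.single_eq_same]
      unfold so
      rw [PE_ee K hN]
      congr 1
      have := NE_pos E
      omega
    · rw [Pi.single_eq_of_ne hq, Pi.single_eq_of_ne hq, Matrix.mulVec_zero]
  · -- the open condition
    intro E' S u hu
    let uk : ∀ E : Finset ℕ, (Fin n → Fin (NE E) → k) →ₗ[k] (Fin n → Fin (NE E') → k) := fun E =>
      { toFun := fun f => us n (NE E') (D.eh (u E) (sg n (NE E) f : Fin (n * NE E) → k) :
          Fin (n * NE E') → k)
        map_add' := by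
          intro f g
          have h1 := map_add (D.eh (u E)) (sg n (NE E) f : Fin (n * NE E) → k)
            (sg n (NE E) g : Fin (n * NE E) → k)
          funext p i
          exact congrFun h1 (finProdFinEquiv (p, i))
        map_smul' := by
          intro c f
          have h1 := ((D.eh (u E)).restrictScalars k).map_smul c
            (sg n (NE E) f : Fin (n * NE E) → k)
          funext p i
          exact congrFun h1 (finProdFinEquiv (p, i)) }
    have huk : ∀ E f, sg n (NE E') (uk E f) = (D.eh (u E) (sg n (NE E) f : Fin (n * NE E) → k) :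
        Fin (n * NE E') → k) := fun E f => sg_us n (NE E') _
    have hinj : ∀ {f g : Fin n → Fin (NE E') → k}, sg n (NE E') f = sg n (NE E') g → f = g := by
      intro f g h
      rw [← us_sg n (NE E') f, h, us_sg]
    refine oc2 φ hφ E' S uk ?_ ?_
    · intro E a f
      apply hinj
      rw [huk]
      have h1 := Th_sg φ (XE k (NE E)) (YE k (NE E) E) a f
      have h2 := Th_sg φ (XE k (NE E')) (YE k (NE E') E') a (uk E f)
      have h3 : sg n (NE E) (Fa φ (Xo k E) (Yo k E) a f) =
          (Th φ (XE k (NE E)) (YE k (NE E) E) a).mulVec (sg n (NE E) f) := h1.symm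
      have h4 : sg n (NE E') (Fa φ (Xo k E') (Yo k E') a (uk E f)) =
          (Th φ (XE k (NE E')) (YE k (NE E') E') a).mulVec (sg n (NE E') (uk E f)) := h2.symm
      rw [h3, h4, huk, ← hθ, ← hθ]
      exact map_smul (D.eh (u E)) a (show (D.ex (W E)).M from sg n (NE E) f)
    · intro p
      apply hinj
      have h1 : sg n (NE E') (∑ E ∈ S, uk E (Pi.single p (so k E))) =
          ∑ E ∈ S, sg n (NE E') (uk E (Pi.single p (so k E))) := by
        funext s
        rw [Finset.sum_apply]
        unfold sg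
        rw [Finset.sum_apply, Finset.sum_apply]
      rw [h1]
      have h2 : ∀ E ∈ S, sg n (NE E') (uk E (Pi.single p (so k E))) =
          (D.up (W E') (u E (w E p)) : Fin (n * NE E') → k) := by
        intro E _
        rw [huk, ← D.eh_up, hup]
      rw [Finset.sum_congr rfl h2]
      have h3 : D.up (W E') (w E' p) = D.up (W E') (∑ E ∈ S, u E (w E p)) := by
        rw [← hu]
      rw [hup] at h3
      refine h3.trans ?_
      let g : (W E').M →+ (D.ex (W E')).M :=
        { toFun := D.up (W E')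
          map_zero' := by
            have := D.up_smul (W E') 0 0
            rw [zero_smul, map_zero, zero_smul] at this
            exact this
          map_add' := D.up_add (W E') }
      exact map_sum g (fun E => u E (w E p)) S

end

end Pool.Agent.W439
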