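import Mathlib
import Pool.Agent.Helper232.SD.Main
import Pool.Agent.W439.WildK
import Pool.Agent.W439.Sub

set_option autoImplicit false

/-! The superdecomposable module. -/

namespace Pool.Agent.W439

open Pool.Agent.Helper232.RZ

theorem sdc3 {R : Type} [Ring R] {M : Type} [AddCommGroup M] [Module R M] (hM : AC R M) (a : M)
    (e : Module.End R M) (he : ∀ m, e (e m) = e m) (hea : e a = a)
    (hh : ∀ f : Module.End R M, (∃ s : Module.End R M, s (f a) = a) →
      ∃ s : Module.End R M, ∀ m, s (f (e m)) = e m)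
    (hc : ∀ ψ : PP R 1, ¬ ψ.h a → ∃ ψ0 ψ1 : PP R 1, ¬ ψ0.h a ∧ ¬ ψ1.h a ∧
      (∀ x : M, ψ.h x → ψ0.h x ∧ ψ1.h x) ∧
      ∀ κ : PP R 1, κ.h a → ∃ y z : M, a = y + z ∧ (κ.h y ∧ ψ0.h y) ∧ (κ.h z ∧ ψ1.h z))
    (A B : Submodule R (LinearMap.range e)) (hAB : IsCompl A B) : ¬ Indec R A := by
  intro hI
  obtain ⟨i, hi⟩ : ∃ i : A →ₗ[R] M, i = (LinearMap.range e).subtype ∘ₗ A.subtype := ⟨_, rfl⟩
  obtain ⟨p, hp⟩ : ∃ p : M →ₗ[R] A, p = (Submodule.projectionOnto A B hAB) ∘ₗ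
      (LinearMap.rangeRestrict e) := ⟨_, rfl⟩
  have hix : ∀ x : A, i x = ((x : LinearMap.range e) : M) := by
    intro x
    rw [hi]
    rfl
  have hei : ∀ x : A, e (i x) = i x := by
    intro x
    rw [hix]
    obtain ⟨m, hm⟩ := (x : LinearMap.range e).2
    rw [← hm, he]
  have hpi : ∀ x : A, p (i x) = x := by
    intro x
    have h1 : LinearMap.rangeRestrict e (i x) = (x : LinearMap.range e) := by
      apply Subtype.ext
      show e (i x) = _
      rw [hei, hix]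
    rw [hp]
    show (Submodule.projectionOnto A B hAB) (LinearMap.rangeRestrict e (i x)) = x
    rw [h1]
    exact Submodule.projectionOnto_apply_left hAB x
  obtain ⟨g, hg⟩ : ∃ g : M →ₗ[R] M, ∀ m, g m = i (p m) := ⟨i ∘ₗ p, fun m => rfl⟩
  have hgi : ∀ x : A, g (i x) = i x := by
    intro x
    rw [hg, hpi]
  have claim : ∃ ψ : PP R 1, ψ.h (a - g a) ∧ ¬ ψ.h (g a) := by
    by_contra hcon
    push Not at hcon
    obtain ⟨t, ht⟩ := ac_hom hM (fun _ : Fin 1 => a - g a) (fun _ : Fin 1 => g a)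
      (fun φ h => hcon φ h)
    have ht' : t (a - g a) = g a := ht 0
    obtain ⟨s, hs⟩ := hh (e - g) ⟨LinearMap.id + t, by
      show (LinearMap.id + t : M →ₗ[R] M) ((e - g : M →ₗ[R] M) a) = a
      rw [LinearMap.sub_apply, hea, LinearMap.add_apply, LinearMap.id_apply, ht',
        sub_add_cancel]⟩
    obtain ⟨hnt, _⟩ := hI
    obtain ⟨x, hx⟩ := exists_ne (0 : A)
    apply hx
    have h1 := hs (i x)
    rw [hei, LinearMap.sub_apply, hei, hgi, sub_self, map_zero] at h1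
    have h2 : p (i x) = 0 := by rw [← h1, map_zero]
    rw [hpi] at h2
    exact h2
  obtain ⟨ψ, hψ2, hψ1⟩ := claim
  have hψa : ¬ ψ.h a := fun h => hψ1 (h_map g ψ a h)
  obtain ⟨ψ0, ψ1, h0, h1, hm, hd⟩ := hc ψ hψa
  have hn0 : ¬ ψ0.h (g a) := by
    intro h
    apply h0
    have := (h_add ψ0 (g a) (a - g a)).1 h (hm _ hψ2).1
    rwa [add_sub_cancel] at this
  have hn1 : ¬ ψ1.h (g a) := by
    intro h
    apply h1
    have := (h_add ψ1 (g a) (a - g a)).1 h (hm _ hψ2).2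
    rwa [add_sub_cancel] at this
  have hp0 : ¬ ψ0.h (p a) := by
    intro h
    apply hn0
    rw [hg]
    exact h_map i ψ0 _ h
  have hp1 : ¬ ψ1.h (p a) := by
    intro h
    apply hn1
    rw [hg]
    exact h_map i ψ1 _ h
  have hAC : AC R A := (ac_retract i p hpi).1 hM
  obtain ⟨φ, hφ, hno⟩ := irr hAC hI (p a) ψ0 ψ1 hp0 hp1
  have hφ1 : φ.h (g a) := by
    rw [hg]
    exact h_map i φ _ hφ
  obtain ⟨κ, hκ⟩ := sumTwo φ ψ
  have hκa : κ.h a := (hκ M a).2 ⟨g a, a - g a, by abel, hφ1, hψ2⟩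
  obtain ⟨y, z, hyz, ⟨hy1, hy2⟩, hz1, hz2⟩ := hd κ hκa
  obtain ⟨y1, y2, ey, hy3, hy4⟩ := (hκ M y).1 hy1
  obtain ⟨z1, z2, ez, hz3, hz4⟩ := (hκ M z).1 hz1
  have hy5 : ψ0.h y1 := by
    have := (h_add ψ0 y y2).2.2.1 hy2 (hm _ hy4).1
    rwa [ey, add_sub_cancel_right] at this
  have hz5 : ψ1.h z1 := by
    have := (h_add ψ1 z z2).2.2.1 hz2 (hm _ hz4).2
    rwa [ez, add_sub_cancel_right] at this
  have hw : ψ.h (y2 + z2) := (h_add ψ y2 z2).1 hy4 hz4
  have ew : p (y2 + z2) = p a - p y1 - p z1 := by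
    have : y2 + z2 = a - y1 - z1 := by
      rw [hyz, ey, ez]
      abel
    rw [this, map_sub, map_sub]
  have hwφ : φ.h (p (y2 + z2)) := by
    rw [ew]
    exact (h_add φ _ _).2.2.1 ((h_add φ _ _).2.2.1 hφ (h_map p φ _ hy3)) (h_map p φ _ hz3)
  apply hno
  refine ⟨p y1, p z1 + p (y2 + z2), ?_, h_map p φ _ hy3, h_map p ψ0 _ hy5,
    (h_add φ _ _).1 (h_map p φ _ hz3) hwφ,
    (h_add ψ1 _ _).1 (h_map p ψ1 _ hz5) (h_map p ψ1 _ (hm _ hw).2)⟩
  rw [ew]
  abel

/-- finite-dimensional modules are algebraically compact -/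
theorem ac_ob {F R : Type} [Field F] [Ring R] [Algebra F R] (V : Ob F R) : AC R V.M := by
  classical
  intro I J a b hsol
  let t : J × Fin V.d → (I × Fin V.d →₀ F) := fun jp =>
    ∑ i ∈ (a jp.1).support, ∑ q, Finsupp.single (i, q) (V.ρ (a jp.1 i) jp.2 q)
  let T : (J × Fin V.d →₀ F) →ₗ[F] (I × Fin V.d →₀ F) := Finsupp.linearCombination F t
  let β : (J × Fin V.d →₀ F) →ₗ[F] F :=
    Finsupp.linearCombination F (fun jp : J × Fin V.d => (b jp.1 : Fin V.d → F) jp.2)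
  -- functionals
  have hX : ∀ (X : (I × Fin V.d →₀ F) →ₗ[F] F) (x : I → V.M)
      (_ : ∀ i q, (x i : Fin V.d → F) q = X (Finsupp.single (i, q) 1)) (j : J) (p : Fin V.d),
      X (t (j, p)) = (((a j).sum fun i r => r • x i : V.M) : Fin V.d → F) p := by
    intro X x hx j p
    have e1 : (((a j).sum fun i r => r • x i : V.M) : Fin V.d → F) p =
        ∑ i ∈ (a j).support, ((a j i • x i : V.M) : Fin V.d → F) p := by
      show (∑ i ∈ (a j).support, (a j i • x i : V.M) : Fin V.d → F) p = _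
      rw [Finset.sum_apply]
    rw [e1, map_sum]
    refine Finset.sum_congr rfl fun i _ => ?_
    rw [map_sum]
    show _ = ∑ q, V.ρ (a j i) p q * (x i : Fin V.d → F) q
    refine Finset.sum_congr rfl fun q _ => ?_
    rw [hx]
    have e2 : Finsupp.single (i, q) (V.ρ (a j i) p q) =
        V.ρ (a j i) p q • Finsupp.single (i, q) (1 : F) := by
      rw [Finsupp.smul_single, smul_eq_mul, mul_one]
    show X (Finsupp.single (i, q) (V.ρ (a j i) p q)) = _
    rw [e2, map_smul, smul_eq_mul]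
  have hker : LinearMap.ker T ≤ LinearMap.ker β := by
    intro v hv
    rw [LinearMap.mem_ker] at hv ⊢
    obtain ⟨x, hx⟩ := hsol (v.support.image Prod.fst)
    let X : (I × Fin V.d →₀ F) →ₗ[F] F :=
      Finsupp.linearCombination F (fun iq : I × Fin V.d => (x iq.1 : Fin V.d → F) iq.2)
    have h1 : β v = X (T v) := by
      have hT : T v = ∑ jp ∈ v.support, v jp • t jp := Finsupp.linearCombination_apply F v
      have hβ : β v = ∑ jp ∈ v.support, v jp • (b jp.1 : Fin V.d → F) jp.2 :=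
        Finsupp.linearCombination_apply F v
      rw [hT, hβ, map_sum]
      refine Finset.sum_congr rfl fun jp hjp => ?_
      rw [map_smul]
      congr 1
      have h2 := hX X x (fun i q => by
        show _ = Finsupp.linearCombination F _ _
        rw [Finsupp.linearCombination_single, one_smul]) jp.1 jp.2
      rw [hx jp.1 (Finset.mem_image_of_mem _ hjp)] at h2
      exact h2.symm
    rw [h1, hv, map_zero]
  have hmem : β ∈ LinearMap.range T.dualMap := by
    rw [LinearMap.range_dualMap_eq_dualAnnihilator_ker, Submodule.mem_dualAnnihilator]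
    intro v hv
    exact hker hv
  obtain ⟨X, hXβ⟩ := hmem
  refine ⟨fun i => (fun q => X (Finsupp.single (i, q) 1) : Fin V.d → F), fun j => ?_⟩
  have h1 : ∀ p, (((a j).sum fun i r => r • (show V.M from (fun q => X (Finsupp.single (i, q) 1) :
      Fin V.d → F)) : V.M) : Fin V.d → F) p = (b j : Fin V.d → F) p := by
    intro p
    rw [← hX X _ (fun i q => rfl) j p]
    have h2 : (T.dualMap X) (Finsupp.single (j, p) 1) = β (Finsupp.single (j, p) 1) := by
      rw [hXβ]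
    rw [LinearMap.dualMap_apply] at h2
    have h3 : T (Finsupp.single (j, p) 1) = t (j, p) := by
      show Finsupp.linearCombination F _ _ = _
      rw [Finsupp.linearCombination_single, one_smul]
    have h4 : β (Finsupp.single (j, p) 1) = (b j : Fin V.d → F) p := by
      show Finsupp.linearCombination F _ _ = _
      rw [Finsupp.linearCombination_single, one_smul]
    rw [h3, h4] at h2
    exact h2
  exact funext h1

theorem ac_prod {R : Type} [Ring R] {T : Type} (M : T → Type) [∀ t, AddCommGroup (M t)]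
    [∀ t, Module R (M t)] (h : ∀ t, AC R (M t)) : AC R (∀ t, M t) := by
  intro I J a b hsol
  have hs : ∀ (x : I → ∀ t, M t) (j : J) (t : T), ((a j).sum fun i r => r • x i) t =
      (a j).sum fun i r => r • x i t := by
    intro x j t
    rw [Finsupp.sum, Finsupp.sum, Finset.sum_apply]
    rfl
  have h1 : ∀ t, ∃ x : I → M t, ∀ j, ((a j).sum fun i r => r • x i) = b j t := by
    intro t
    apply h t I J a (fun j => b j t)
    intro F
    obtain ⟨x, hx⟩ := hsol F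
    refine ⟨fun i => x i t, fun j hj => ?_⟩
    rw [← hs, hx j hj]
  choose x hx using h1
  refine ⟨fun i t => x t i, fun j => ?_⟩
  funext t
  rw [hs]
  exact hx t j

theorem factor2 {F R : Type} [Field F] [Ring R] [Algebra F R] (U V : Ob F R)
    (S : Submodule F U.M) (ζ : V.M →ₗ[F] F) (χ : U.M →ₗ[F] F)
    (h : ∀ x ∈ S, (∀ g : U.M →ₗ[R] V.M, ζ (g x) = 0) → χ x = 0) :
    ∃ g : U.M →ₗ[R] V.M, ∀ x ∈ S, χ x = ζ (g x) := by
  let Z : Submodule F (Module.Dual F S) :=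
    { carrier := {ν | ∃ g : U.M →ₗ[R] V.M, ∀ x : S, ν x = ζ (g x.1)}
      add_mem' := by
        rintro a b ⟨g, hg⟩ ⟨g', hg'⟩
        refine ⟨g + g', fun x => ?_⟩
        rw [LinearMap.add_apply, hg, hg', ← map_add]
        rfl
      zero_mem' := by
        refine ⟨0, fun x => ?_⟩
        rw [LinearMap.zero_apply]
        exact (map_zero ζ).symm
      smul_mem' := by
        rintro c a ⟨g, hg⟩
        refine ⟨c • g, fun x => ?_⟩
        rw [LinearMap.smul_apply, hg, ← map_smul]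
        rfl }
  have h1 : χ ∘ₗ S.subtype ∈ Z.dualCoannihilator.dualAnnihilator := by
    rw [Submodule.mem_dualAnnihilator]
    intro x hx
    rw [Submodule.mem_dualCoannihilator] at hx
    refine h x.1 x.2 fun g => ?_
    exact hx (ζ ∘ₗ (g.restrictScalars F) ∘ₗ S.subtype) ⟨g, fun x => rfl⟩
  rw [Subspace.dualCoannihilator_dualAnnihilator_eq] at h1
  obtain ⟨g, hg⟩ := h1
  exact ⟨g, fun x hx => hg ⟨x, hx⟩⟩

/-- the subspace defined by a pp formula in one variable -/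
def p1 {F R : Type} [Field F] [Ring R] [Algebra F R] {M : Type} [AddCommGroup M] [Module F M]
    [Module R M] [IsScalarTower F R M] (φ : PP R 1) : Submodule F M where
  carrier := {x | φ.h x}
  add_mem' := fun {a b} ha hb => (h_add φ a b).1 ha hb
  zero_mem' := (h_add φ (0 : M) 0).2.2.2
  smul_mem' := by
    intro c x hx
    have h1 := (H_add φ (fun _ => x) (fun _ => x)).2.2.2 (algebraMap F R c)
      (fun r => Algebra.commutes c r) hx
    have h2 : (fun _ : Fin 1 => algebraMap F R c • x) = fun _ => c • x := by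
      funext i
      rw [algebraMap_smul]
    rw [h2] at h1
    exact h1

theorem mem_p1 {F R : Type} [Field F] [Ring R] [Algebra F R] {M : Type} [AddCommGroup M]
    [Module F M] [Module R M] [IsScalarTower F R M] (φ : PP R 1) (x : M) :
    x ∈ p1 (F := F) φ ↔ φ.h x := Iff.rfl

section
variable {K k A0 A : Type} [Field K] [Field k] [Algebra K k] [Ring A0] [Algebra K A0]
    [Ring A] [Algebra k A]

/-- the span over the big field -/
noncomputable def Bk (D : BC K k A0 A) (B : ∀ V : Ob K A0, Submodule K V.M) (V : Ob K A0) : Submodule k (D.ex V).M :=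
  Submodule.span k (D.up V '' (B V))

theorem exists_SD (D : BC K k A0 A) [Module.Finite k A] (hD : D4 K k) (B : ∀ V : Ob K A0, Submodule K V.M)
    (B1 : ∀ (U V : Ob K A0) (h : U.M →ₗ[A0] V.M), ∀ x ∈ B U, h x ∈ B V)
    (B2 : ∀ (V : Ob K A0) (ζ : V.M →ₗ[K] K), (∃ x ∈ B V, ζ x ≠ 0) →
        ∃ (U0 U1 : Ob K A0) (g0 : U0.M →ₗ[A0] V.M) (g1 : U1.M →ₗ[A0] V.M),
          (∃ x ∈ B U0, ζ (g0 x) ≠ 0) ∧ (∃ x ∈ B U1, ζ (g1 x) ≠ 0) ∧
          ∀ (Y : Ob K A0) (k0 : Y.M →ₗ[A0] U0.M) (k1 : Y.M →ₗ[A0] U1.M),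
            (∀ x ∈ B Y, ζ (g0 (k0 x)) = ζ (g1 (k1 x))) → ∀ x ∈ B Y, ζ (g0 (k0 x)) = 0)
    (B3 : ∃ V : Ob K A0, ∃ x ∈ B V, x ≠ 0) :
    ∃ (H : Type) (_ : AddCommGroup H) (_ : Module A H), AC A H ∧ Nontrivial H ∧
      ∀ P Q : Submodule A H, IsCompl P Q → ¬ Indec A P := by
  classical
  let T : Type := Σ V : Ob K A0, {v : (D.ex V).M // v ∈ Bk D B V}
  let M : Type := ∀ t : T, (D.ex t.1).M
  let a : M := fun t => t.2.1
  have hM : AC A M := ac_prod (fun t : T => (D.ex t.1).M) (fun t => ac_ob (D.ex t.1))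
  have hpi : ∀ (κ : PP A 1) (x : M), κ.h x ↔ ∀ t, κ.h (x t) := by
    intro κ x
    exact H_pi (fun t : T => (D.ex t.1).M) κ (fun _ => x)
  have hupB : ∀ (V : Ob K A0) (x : V.M), x ∈ B V → D.up V x ∈ Bk D B V :=
    fun V x hx => Submodule.subset_span ⟨x, hx, rfl⟩
  have hc : ∀ ψ : PP A 1, ¬ ψ.h a → ∃ ψ0 ψ1 : PP A 1, ¬ ψ0.h a ∧ ¬ ψ1.h a ∧
      (∀ x : M, ψ.h x → ψ0.h x ∧ ψ1.h x) ∧
      ∀ κ : PP A 1, κ.h a → ∃ y z : M, a = y + z ∧ (κ.h y ∧ ψ0.h y) ∧ (κ.h z ∧ ψ1.h z) := by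
    intro ψ hψ
    rw [hpi] at hψ
    push Not at hψ
    obtain ⟨⟨V, v, hv⟩, hψv⟩ := hψ
    have hψv' : ¬ ψ.h v := hψv
    have h1 : ∃ x ∈ B V, ¬ ψ.h (D.up V x) := by
      by_contra hcon
      push Not at hcon
      apply hψv'
      have : Bk D B V ≤ p1 (F := k) ψ := by
        refine Submodule.span_le.2 ?_
        rintro _ ⟨x, hx, rfl⟩
        exact hcon x hx
      exact this hv
    obtain ⟨x0, hx0, hx0'⟩ := h1
    obtain ⟨ζ, hζ, hζψ⟩ := Submodule.exists_le_ker_of_notMem (K := k)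
      (p := p1 (F := k) (M := (D.ex V).M) ψ) (v := D.up V x0) hx0'
    obtain ⟨U0, U1, g0, g1, ⟨y0, hy0, hy0'⟩, ⟨y1, hy1, hy1'⟩, hU⟩ :=
      baseU D hD B B1 B2 V ζ ⟨x0, hx0, hζ⟩
    obtain ⟨ψ0, hψ0⟩ := dualPP (n := 1) (D.ex U0)
      (ζ ∘ₗ (D.eh g0).restrictScalars k ∘ₗ LinearMap.proj 0)
    obtain ⟨ψ1, hψ1⟩ := dualPP (n := 1) (D.ex U1)
      (ζ ∘ₗ (D.eh g1).restrictScalars k ∘ₗ LinearMap.proj 0)
    have hψ0' : ∀ (N : Type) [AddCommGroup N] [Module A N] (x : N),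
        ψ0.h x ↔ ∀ h : N →ₗ[A] (D.ex U0).M, ζ (D.eh g0 (h x)) = 0 :=
      fun N _ _ x => hψ0 N (fun _ => x)
    have hψ1' : ∀ (N : Type) [AddCommGroup N] [Module A N] (x : N),
        ψ1.h x ↔ ∀ h : N →ₗ[A] (D.ex U1).M, ζ (D.eh g1 (h x)) = 0 :=
      fun N _ _ x => hψ1 N (fun _ => x)
    have hz : ∀ w : (D.ex V).M, ψ.h w → ζ w = 0 := fun w hw => hζψ hw
    refine ⟨ψ0, ψ1, ?_, ?_, ?_, ?_⟩
    · intro h
      rw [hψ0'] at h
      have h2 := h (LinearMap.proj (⟨U0, D.up U0 y0, hupB U0 y0 hy0⟩ : T))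
      apply hy0'
      rw [← D.eh_up]
      exact h2
    · intro h
      rw [hψ1'] at h
      have h2 := h (LinearMap.proj (⟨U1, D.up U1 y1, hupB U1 y1 hy1⟩ : T))
      apply hy1'
      rw [← D.eh_up]
      exact h2
    · intro x hx
      rw [hψ0', hψ1']
      refine ⟨fun h => hz _ ?_, fun h => hz _ ?_⟩
      · exact h_map (D.eh g0 ∘ₗ h) ψ x hx
      · exact h_map (D.eh g1 ∘ₗ h) ψ x hx
    · intro κ hκ
      rw [hpi] at hκ
      have hBκ : ∀ Y : Ob K A0, Bk D B Y ≤ p1 (F := k) κ := fun Y v hv => hκ ⟨Y, v, hv⟩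
      have hsum : ∀ Y : Ob K A0, Bk D B Y ≤
          (Bk D B Y ⊓ p1 (F := k) ψ0) ⊔ (Bk D B Y ⊓ p1 (F := k) ψ1) := by
        intro Y v hv
        by_contra hcon
        obtain ⟨χ, hχ, hχS⟩ := Submodule.exists_le_ker_of_notMem (K := k) hcon
        obtain ⟨H0, hH0⟩ := factor2 (D.ex Y) (D.ex U0) (Bk D B Y)
          (ζ ∘ₗ (D.eh g0).restrictScalars k) χ (by
            intro x hx hg
            have : x ∈ Bk D B Y ⊓ p1 (F := k) ψ0 := ⟨hx, (hψ0' _ x).2 fun h => hg h⟩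
            exact hχS (Submodule.mem_sup_left this))
        obtain ⟨H1, hH1⟩ := factor2 (D.ex Y) (D.ex U1) (Bk D B Y)
          (ζ ∘ₗ (D.eh g1).restrictScalars k) χ (by
            intro x hx hg
            have : x ∈ Bk D B Y ⊓ p1 (F := k) ψ1 := ⟨hx, (hψ1' _ x).2 fun h => hg h⟩
            exact hχS (Submodule.mem_sup_right this))
        have hU' := hU Y H0 H1 (by
          intro x hx
          have e0 := hH0 _ (hupB Y x hx)
          have e1 := hH1 _ (hupB Y x hx)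
          exact e0.symm.trans e1)
        apply hχ
        have h3 : Bk D B Y ≤ LinearMap.ker χ := by
          refine Submodule.span_le.2 ?_
          rintro _ ⟨x, hx, rfl⟩
          have e0 := hH0 _ (hupB Y x hx)
          exact e0.trans (hU' x hx)
        exact h3 hv
      have hdec : ∀ t : T, ∃ y z : (D.ex t.1).M, t.2.1 = y + z ∧ (κ.h y ∧ ψ0.h y) ∧
          (κ.h z ∧ ψ1.h z) := by
        intro t
        obtain ⟨y, hy, z, hz, hyz⟩ := Submodule.mem_sup.1 (hsum t.1 t.2.2)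
        exact ⟨y, z, hyz.symm, ⟨hBκ _ hy.1, hy.2⟩, ⟨hBκ _ hz.1, hz.2⟩⟩
      choose y z h1 h2 h3 using hdec
      refine ⟨y, z, funext h1, ⟨(hpi κ y).2 fun t => (h2 t).1, (hpi ψ0 y).2 fun t => (h2 t).2⟩,
        ⟨(hpi κ z).2 fun t => (h3 t).1, (hpi ψ1 z).2 fun t => (h3 t).2⟩⟩
  obtain ⟨e, he, hea, hh⟩ := hull hM a
  have hip : ∀ x : LinearMap.range e, e.rangeRestrict ((LinearMap.range e).subtype x) = x := by
    rintro ⟨x, m, rfl⟩
    apply Subtype.ext
    exact he m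
  have hret := ac_retract (LinearMap.range e).subtype e.rangeRestrict hip
  refine ⟨LinearMap.range e, inferInstance, inferInstance, hret.1 hM, ?_, ?_⟩
  · refine nontrivial_of_ne (⟨a, ⟨a, hea⟩⟩ : LinearMap.range e) 0 ?_
    intro h0
    have ha0 : a = 0 := congrArg Subtype.val h0
    obtain ⟨V, x, hx, hx0⟩ := B3
    apply hx0
    have h1 : D.up V x = 0 := congrFun ha0 ⟨V, D.up V x, hupB V x hx⟩
    have h2 : ∀ i : Fin V.d, (x : Fin V.d → K) i = 0 := by
      intro i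
      have h3 : algebraMap K k (x i) = 0 := congrFun h1 i
      exact (map_eq_zero_iff _ (algebraMap K k).injective).1 h3
    exact funext h2
  · intro P Q hPQ
    exact sdc3 hM a e he hea hh hc P Q hPQ

end

end Pool.Agent.W439
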