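import Mathlib
import Pool.Agent.W439.Sub

set_option autoImplicit false

/-! A countable form which contains a given countable set. -/

namespace Pool.Agent.W439

theorem exists_form2 (k A : Type) [Field k] [Ring A] [Algebra k A] [Module.Finite k A]
    (S : Set A) (hS : S.Countable) :
    ∃ (K A0 : Type) (_ : Field K) (_ : Algebra K k) (_ : Ring A0) (_ : Algebra K A0)
      (D : BC K k A0 A), Countable A0 ∧ D4 K k ∧ ∀ a ∈ S, ∃ a0 : A0, D.ι a0 = a := by
  classical
  let b := Module.finBasis k A
  obtain ⟨K, hK, hKc, hD⟩ := exists_sub
    ((Set.range fun i => b.repr 1 i) ∪ (Set.range fun t : Fin (Module.finrank k A) ×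
      Fin (Module.finrank k A) × Fin (Module.finrank k A) => b.repr (b t.1 * b t.2.1) t.2.2) ∪
      ⋃ i : Fin (Module.finrank k A), (fun a : A => b.repr a i) '' S)
    (((Set.countable_range _).union (Set.countable_range _)).union
      (Set.countable_iUnion fun t => hS.image _))
  have h1 : ∀ i, b.repr 1 i ∈ K := fun i => hK (Or.inl (Or.inl ⟨i, rfl⟩))
  have h2 : ∀ i j l, b.repr (b i * b j) l ∈ K :=
    fun i j l => hK (Or.inl (Or.inr ⟨(i, j, l), rfl⟩))
  have h3 : ∀ a ∈ S, ∀ i, b.repr a i ∈ K :=
    fun a ha i => hK (Or.inr (Set.mem_iUnion.2 ⟨i, ⟨a, ha, rfl⟩⟩))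
  let iA : Algebra K (fA b K h1 h2) := fAalg b K h1 h2
  have hsm : ∀ (x : K) (a : fA b K h1 h2), ((x • a : fA b K h1 h2) : A) = (x : k) • (a : A) := by
    intro x a
    rw [Algebra.smul_def]
    show algebraMap k A x * (a : A) = _
    rw [Algebra.smul_def]
  let e0 : fA b K h1 h2 →ₗ[K] (Fin (Module.finrank k A) → K) :=
    { toFun := fun a i => ⟨b.repr (a : A) i, a.2 i⟩
      map_add' := by
        intro x y
        funext i
        apply Subtype.ext
        show b.repr ((x : A) + y) i = b.repr (x : A) i + b.repr (y : A) i
        rw [map_add, Finsupp.add_apply]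
      map_smul' := by
        intro c x
        funext i
        apply Subtype.ext
        show b.repr ((c • x : fA b K h1 h2) : A) i = (c : k) * b.repr (x : A) i
        rw [hsm, map_smul, Finsupp.smul_apply, smul_eq_mul] }
  have he0 : Function.Bijective e0 := by
    constructor
    · intro x y h
      apply Subtype.ext
      apply b.repr.injective
      ext i
      exact congrArg Subtype.val (congrFun h i)
    · intro f
      have hrep : ∀ i, b.repr (∑ j, (f j : k) • b j) i = f i := by
        intro i
        rw [Module.Basis.repr_sum_self]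
      refine ⟨⟨∑ j, (f j : k) • b j, fun i => ?_⟩, ?_⟩
      · rw [hrep]
        exact (f i).2
      · funext i
        apply Subtype.ext
        exact hrep i
  let e := LinearEquiv.ofBijective e0 he0
  have hci : ∀ i, ((e.symm (Pi.single i 1) : fA b K h1 h2) : A) = b i := by
    intro i
    have hmem : b i ∈ fA b K h1 h2 := by
      intro j
      rw [Module.Basis.repr_self, Finsupp.single_apply]
      split_ifs
      · exact one_mem K
      · exact zero_mem K
    have h4 : e.symm (Pi.single i 1) = (⟨b i, hmem⟩ : fA b K h1 h2) := by
      rw [LinearEquiv.symm_apply_eq]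
      funext j
      apply Subtype.ext
      show _ = b.repr (b i) j
      rw [Module.Basis.repr_self, Finsupp.single_apply]
      by_cases h : j = i
      · subst h
        rw [Pi.single_eq_same, if_pos rfl]
        rfl
      · rw [Pi.single_eq_of_ne h, if_neg (fun h' => h h'.symm)]
        rfl
    rw [h4]
  let D : BC K k (fA b K h1 h2) A :=
    { r := Module.finrank k A
      ι := (fA b K h1 h2).subtype
      c := Module.Basis.ofEquivFun e
      b := b
      hb := by
        intro i
        rw [Module.Basis.coe_ofEquivFun]
        exact (hci i).symm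
      hι := fun x => rfl }
  refine ⟨K, fA b K h1 h2, inferInstance, inferInstance, inferInstance, iA, D, ?_, hD, ?_⟩
  · exact Function.Injective.countable e.injective
  · intro a ha
    exact ⟨⟨a, h3 a ha⟩, rfl⟩

end Pool.Agent.W439
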