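import Mathlib
import Pool.Agent.W439.Sub2
import Pool.Agent.W439.KLevelW
import Pool.Agent.W439.SDx

set_option autoImplicit false

/-! Wide pp lattices over finite-dimensional algebras. -/

namespace Pool.Agent.W439

open Pool.Agent.Helper232.RZ

/-- formulas over the small ring are formulas over the big ring -/
def upP {A0 A : Type} [Ring A0] [Ring A] (ι : A0 →+* A) {n : ℕ} (φ : PP A0 n) : PP A n :=
  ⟨φ.m, φ.p, fun i j => ι (φ.A i j), fun i l => ι (φ.B i l)⟩

theorem upP_H {A0 A : Type} [Ring A0] [Ring A] (ι : A0 →+* A) {n : ℕ} (φ : PP A0 n)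
    {M : Type} [AddCommGroup M] [Module A M] [Module A0 M]
    (h : ∀ (a : A0) (m : M), a • m = ι a • m) (x : Fin n → M) :
    (upP ι φ).H x ↔ φ.H x := by
  have e : ∀ (y : Fin φ.p → M) (i : Fin φ.m), (∑ j, ι (φ.A i j) • x j) + ∑ l, ι (φ.B i l) • y l =
      (∑ j, φ.A i j • x j) + ∑ l, φ.B i l • y l := by
    intro y i
    congr 1
    · exact Finset.sum_congr rfl fun j _ => (h _ _).symm
    · exact Finset.sum_congr rfl fun j _ => (h _ _).symm
  constructor
  · rintro ⟨y, hy⟩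
    exact ⟨y, fun i => (e y i).symm.trans (hy i)⟩
  · rintro ⟨y, hy⟩
    exact ⟨y, fun i => (e y i).trans (hy i)⟩

/-- the coefficients of a formula -/
def cf {A : Type} {n : ℕ} (φ : PP A n) : Set A :=
  (Set.range fun t : Fin φ.m × Fin n => φ.A t.1 t.2) ∪
    Set.range fun t : Fin φ.m × Fin φ.p => φ.B t.1 t.2

theorem cf_countable {A : Type} {n : ℕ} (φ : PP A n) : (cf φ).Countable :=
  (Set.countable_range _).union (Set.countable_range _)

theorem exists_upP {A0 A : Type} [Ring A0] [Ring A] (ι : A0 →+* A) {n : ℕ} (φ : PP A n)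
    (h : ∀ a ∈ cf φ, ∃ a0 : A0, ι a0 = a) : ∃ φ0 : PP A0 n, upP ι φ0 = φ := by
  have h1 : ∀ i j, ∃ a0 : A0, ι a0 = φ.A i j := fun i j => h _ (Or.inl ⟨(i, j), rfl⟩)
  have h2 : ∀ i j, ∃ a0 : A0, ι a0 = φ.B i j := fun i j => h _ (Or.inr ⟨(i, j), rfl⟩)
  choose f hf using h1
  choose g hg using h2
  refine ⟨⟨φ.m, φ.p, f, g⟩, ?_⟩
  obtain ⟨m, p, Aφ, Bφ⟩ := φ
  unfold upP
  congr
  · funext i j
    exact hf i j
  · funext i j
    exact hg i j

section
variable {K k A0 A : Type} [Field K] [Field k] [Algebra K k] [Ring A0] [Algebra K A0]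
    [Ring A] [Algebra k A] (D : BC K k A0 A)

/-- a retraction of the extension of scalars -/
theorem BC.retr (V : Ob K A0) : ∃ r : (D.ex V).M → V.M, (∀ x, r (D.up V x) = x) ∧
    (∀ x y, r (x + y) = r x + r y) ∧ ∀ (a : A0) (x), r (D.ι a • x) = a • r x := by
  obtain ⟨la, hla⟩ := LinearMap.exists_leftInverse_of_injective (Algebra.linearMap K k)
    (LinearMap.ker_eq_bot.2 (algebraMap K k).injective)
  have hla' : ∀ c : K, la (algebraMap K k c) = c := fun c => LinearMap.congr_fun hla c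
  refine ⟨fun x => (fun i : Fin V.d => la ((x : Fin V.d → k) i)), ?_, ?_, ?_⟩
  · intro x
    funext i
    exact hla' _
  · intro x y
    funext i
    exact map_add la _ _
  · intro a x
    funext i
    show la (∑ j, (D.ex V).ρ (D.ι a) i j * x j) = ∑ j, V.ρ a i j * la (x j)
    rw [D.ex_ρ, map_sum]
    refine Finset.sum_congr rfl fun j _ => ?_
    show la (algebraMap K k (V.ρ a i j) * x j) = _
    rw [← Algebra.smul_def, map_smul, smul_eq_mul]

/-- retraction as a homomorphism, and formulas -/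
theorem BC.retrH (V : Ob K A0) : ∃ r : (D.ex V).M → V.M, (∀ x, r (D.up V x) = x) ∧
    (∀ x y, r (x + y) = r x + r y) ∧ ∀ (n : ℕ) (φ : PP A0 n) (x : Fin n → (D.ex V).M),
      (upP D.ι φ).H x → φ.H (fun i => r (x i)) := by
  obtain ⟨r, h1, h2, h3⟩ := D.retr V
  refine ⟨r, h1, h2, ?_⟩
  intro n φ x hx
  let iM : Module A0 (D.ex V).M := Module.compHom _ D.ι
  have hx' := (upP_H D.ι φ (M := (D.ex V).M) (fun a m => rfl) x).1 hx
  have r0 : r 0 = 0 := by
    have := h2 0 0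
    rw [add_zero] at this
    exact left_eq_add.1 this
  let R : (D.ex V).M →ₗ[A0] V.M :=
    { toFun := r
      map_add' := h2
      map_smul' := fun a x => h3 a x }
  exact H_map R φ x hx'

theorem BC.upH (V : Ob K A0) (n : ℕ) (φ : PP A0 n) (x : Fin n → V.M) (hx : φ.H x) :
    (upP D.ι φ).H (fun i => D.up V (x i)) := by
  let iM : Module A0 (D.ex V).M := Module.compHom _ D.ι
  refine (upP_H D.ι φ (M := (D.ex V).M) (fun a m => rfl) _).2 ?_
  let R : V.M →ₗ[A0] (D.ex V).M :=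
    { toFun := D.up V
      map_add' := D.up_add V
      map_smul' := fun a x => D.up_act V a x }
  exact H_map R φ x hx

theorem BC.hpi {n : ℕ} (φ : PP A0 n) (x : Fin n → NN K A0) :
    φ.H x ↔ ∀ V : Ob K A0, φ.H (fun i => x i V) :=
  H_pi (fun V : Ob K A0 => V.M) φ x

theorem BC.le_desc {n : ℕ} (φ ψ : PP A0 n)
    (h : ∀ (M : Type) [AddCommGroup M] [Module A M] (x : Fin n → M),
      (upP D.ι φ).H x → (upP D.ι ψ).H x) : pl K φ ≤ pl K ψ := by
  rw [pl_le]
  intro x hx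
  rw [BC.hpi] at hx ⊢
  intro V
  obtain ⟨r, h1, h2, h3⟩ := D.retrH V
  have h4 := h3 n ψ _ (h _ _ (D.upH V n φ _ (hx V)))
  have h5 : (fun i => r (D.up V (x i V))) = fun i => x i V := funext fun i => h1 _
  rw [h5] at h4
  exact h4

theorem BC.le_asc [Module.Finite K A0] {n : ℕ} (φ ψ : PP A0 n) (h : pl K φ ≤ pl K ψ)
    (M : Type) [AddCommGroup M] [Module A M] (x : Fin n → M) (hx : (upP D.ι φ).H x) :
    (upP D.ι ψ).H x := by
  classical
  let iM : Module A0 M := Module.compHom _ D.ι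
  have hx' := (upP_H D.ι φ (M := M) (fun a m => rfl) x).1 hx
  refine (upP_H D.ι ψ (M := M) (fun a m => rfl) x).2 ?_
  obtain ⟨U, μ, hμ⟩ := ppDual (F := K) ψ
  rw [hμ]
  intro g
  have h1 : φ.H (fun j => g (x j)) := H_map g φ x hx'
  have h2 : ψ.H (fun j => g (x j)) := by
    rw [pl_le] at h
    have h3 := H_map (LinearMap.single A0 (fun V : Ob K A0 => V.M) U) φ _ h1
    have h4 := h _ h3
    have h5 := H_map (LinearMap.proj U : NN K A0 →ₗ[A0] U.M) ψ _ h4
    have h6 : (fun i => (LinearMap.proj U : NN K A0 →ₗ[A0] U.M)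
        (LinearMap.single A0 (fun V : Ob K A0 => V.M) U (g (x i)))) = fun i => g (x i) := by
      funext i
      simp
    rw [h6] at h5
    exact h5
  rw [hμ] at h2
  exact h2 LinearMap.id

theorem BC.join_desc {n : ℕ} (σ φ ψ : PP A0 n)
    (h : ∀ (M : Type) [AddCommGroup M] [Module A M] (x : Fin n → M),
      (upP D.ι σ).H x → ∃ y z : Fin n → M, x = y + z ∧ (upP D.ι φ).H y ∧ (upP D.ι ψ).H z) :
    pl K σ ≤ pl K φ ⊔ pl K ψ := by
  obtain ⟨χ, hχ⟩ := supN φ ψ
  rw [← pl_sup φ ψ χ hχ, pl_le]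
  intro x hx
  rw [BC.hpi] at hx ⊢
  intro V
  obtain ⟨r, h1, h2, h3⟩ := D.retrH V
  obtain ⟨y, z, hyz, hy, hz⟩ := h _ _ (D.upH V n σ _ (hx V))
  rw [hχ]
  refine ⟨fun i => r (y i), fun i => r (z i), ?_, h3 n φ y hy, h3 n ψ z hz⟩
  funext i
  rw [Pi.add_apply, ← h2]
  have h4 := congrFun hyz i
  have h5 : D.up V (x i V) = y i + z i := h4
  rw [← h5, h1]

end

/-- the order of pp formulas in one variable over `A` -/
def LeA (A : Type) [Ring A] (φ ψ : PP A 1) : Prop :=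
  ∀ (M : Type) [AddCommGroup M] [Module A M] (x : M), φ.h x → ψ.h x

/-- below the sum -/
def LeJ (A : Type) [Ring A] (σ φ ψ : PP A 1) : Prop :=
  ∀ (M : Type) [AddCommGroup M] [Module A M] (x : M), σ.h x → ∃ y z : M, x = y + z ∧ φ.h y ∧ ψ.h z

/-- the tree of pairs -/
def tree {X : Type} (f g : X → X) (x0 : X) : List Bool → X
  | [] => x0
  | b :: l => if b then f (tree f g x0 l) else g (tree f g x0 l)

theorem wide_fd {k A : Type} [Field k] [Ring A] [Algebra k A] [Module.Finite k A]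
    (T : Set (PP A 1 × PP A 1)) (hT0 : T.Nonempty)
    (hT : ∀ q ∈ T, LeA A q.1 q.2 ∧ ¬ LeA A q.2 q.1 ∧ ∃ c ∈ T, ∃ d ∈ T, LeA A q.1 c.1 ∧ LeA A q.1 d.1 ∧
      LeJ A c.2 c.1 d.1 ∧ LeJ A d.2 c.1 d.1 ∧ LeA A c.1 q.2 ∧ LeA A d.1 q.2) :
    ∃ (H : Type) (_ : AddCommGroup H) (_ : Module A H), AC A H ∧ Nontrivial H ∧
      ∀ P Q : Submodule A H, IsCompl P Q → ¬ Indec A P := by
  classical
  obtain ⟨q0, hq0⟩ := hT0
  choose! hle hnle c hc d hd h1 h2 h3 h4 h5 h6 using hT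
  let t : List Bool → PP A 1 × PP A 1 := tree c d q0
  have htT : ∀ l, t l ∈ T := by
    intro l
    induction l with
    | nil => exact hq0
    | cons b l ih =>
      show (if b then c (t l) else d (t l)) ∈ T
      split_ifs
      · exact hc _ ih
      · exact hd _ ih
  let S : Set A := ⋃ l : List Bool, cf (t l).1 ∪ cf (t l).2
  have hS : S.Countable := Set.countable_iUnion fun l => (cf_countable _).union (cf_countable _)
  obtain ⟨K, A0, iK, iKk, iA0, iKA, D, hA0, hD, hlift⟩ := exists_form2 k A S hS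
  have hf1 : ∀ l, ∃ φ0 : PP A0 1, upP D.ι φ0 = (t l).1 := fun l => exists_upP D.ι _ fun a ha =>
    hlift a (Set.mem_iUnion.2 ⟨l, Or.inl ha⟩)
  have hf2 : ∀ l, ∃ φ0 : PP A0 1, upP D.ι φ0 = (t l).2 := fun l => exists_upP D.ι _ fun a ha =>
    hlift a (Set.mem_iUnion.2 ⟨l, Or.inr ha⟩)
  choose u hu using hf1
  choose v hv using hf2
  have hfin : Module.Finite K A0 := Module.Finite.of_basis D.c
  -- comparison
  have cle : ∀ φ ψ : PP A0 1, LeA A (upP D.ι φ) (upP D.ι ψ) → pl K φ ≤ pl K ψ := by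
    intro φ ψ h
    refine D.le_desc φ ψ fun M _ _ x hx => ?_
    have hx' : x = fun _ => x 0 := by
      funext i
      rw [Subsingleton.elim i 0]
    rw [hx'] at hx ⊢
    exact h M (x 0) hx
  have cle' : ∀ φ ψ : PP A0 1, pl K φ ≤ pl K ψ → LeA A (upP D.ι φ) (upP D.ι ψ) := by
    intro φ ψ h M _ _ x hx
    exact D.le_asc φ ψ h M _ hx
  have cj : ∀ σ φ ψ : PP A0 1, LeJ A (upP D.ι σ) (upP D.ι φ) (upP D.ι ψ) →
      pl K σ ≤ pl K φ ⊔ pl K ψ := by
    intro σ φ ψ h
    refine D.join_desc σ φ ψ fun M _ _ x hx => ?_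
    have hx' : x = fun _ => x 0 := by
      funext i
      rw [Subsingleton.elim i 0]
    rw [hx'] at hx
    obtain ⟨y, z, hyz, hy, hz⟩ := h M (x 0) hx
    refine ⟨fun _ => y, fun _ => z, ?_, hy, hz⟩
    rw [hx']
    funext i
    exact hyz
  have hW : Wi (⊥ : pL K A0 1) ⊤ := by
    refine ⟨Set.range fun l => (pl K (u l), pl K (v l)), ⟨Set.range_nonempty _, ?_⟩,
      fun q _ => ⟨bot_le, le_top⟩⟩
    rintro _ ⟨l, rfl⟩
    have et : t (true :: l) = c (t l) := rfl
    have ef : t (false :: l) = d (t l) := rfl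
    refine ⟨lt_of_le_not_ge (cle _ _ ?_) (fun h => ?_), _, ⟨true :: l, rfl⟩, _,
      ⟨false :: l, rfl⟩, cle _ _ ?_, cle _ _ ?_, cj _ _ _ ?_, cj _ _ _ ?_,
      sup_le (cle _ _ ?_) (cle _ _ ?_)⟩
    · rw [hu, hv]
      exact hle _ (htT l)
    · have := cle' _ _ h
      rw [hu, hv] at this
      exact hnle _ (htT l) this
    · rw [hu, hu, et]
      exact h1 _ (htT l)
    · rw [hu, hu, ef]
      exact h2 _ (htT l)
    · rw [hu, hu, hv, et, ef]
      exact h3 _ (htT l)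
    · rw [hu, hu, hv, et, ef]
      exact h4 _ (htT l)
    · rw [hu, hv, et]
      exact h5 _ (htT l)
    · rw [hu, hv, ef]
      exact h6 _ (htT l)
  obtain ⟨B, B1, B2, B3⟩ := klevelW hW
  exact exists_SD D hD B B1 B2 B3

end Pool.Agent.W439
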